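import Mathlib

set_option autoImplicit false

/-!
The large sieve for spaced points on the circle (copy of `MP_7c08ba_nt/CD/BLsv`).
-/

namespace Pool.Agent.Lib.MP_bdd9a3_nt.SP

open Finset
open scoped ComplexConjugate

namespace LsvAux

/-! ### A sum over the natural numbers -/

/-- the majorant -/
noncomputable def hh (a b : ℝ) : ℕ → ℝ
  | 0 => a ^ 2
  | n + 1 => min (a ^ 2) ((b / (n + 1)) ^ 2)

lemma hh_nonneg (a b : ℝ) : ∀ n, 0 ≤ hh a b n
  | 0 => sq_nonneg a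
  | _ + 1 => le_min (sq_nonneg _) (sq_nonneg _)

lemma step {a b : ℝ} (ha : 0 < a) (hb : 0 < b) (n : ℕ) :
    min (a ^ 2) ((b / ((n : ℝ) + 1)) ^ 2) ≤
      4 * a * b ^ 2 / (a * n + b) - 4 * a * b ^ 2 / (a * (n + 1) + b) := by
  have hn : (0 : ℝ) ≤ n := Nat.cast_nonneg n
  have h1 : 0 < a * n + b := by positivity
  have h2 : 0 < a * (n + 1) + b := by positivity
  have h3 : 4 * a * b ^ 2 / (a * n + b) - 4 * a * b ^ 2 / (a * (n + 1) + b) =
      4 * a ^ 2 * b ^ 2 / ((a * n + b) * (a * (n + 1) + b)) := by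
    field_simp
    ring
  rw [h3, le_div_iff₀ (mul_pos h1 h2)]
  rcases le_total (a * (n + 1)) b with h | h
  · refine (mul_le_mul_of_nonneg_right (min_le_left _ _) (mul_pos h1 h2).le).trans ?_
    have h4 : a * n + b ≤ 2 * b := by nlinarith
    have h5 : a * (n + 1) + b ≤ 2 * b := by linarith
    have h6 : (a * n + b) * (a * (n + 1) + b) ≤ 2 * b * (2 * b) :=
      mul_le_mul h4 h5 h2.le (by positivity)
    calc a ^ 2 * ((a * n + b) * (a * (n + 1) + b)) ≤ a ^ 2 * (2 * b * (2 * b)) :=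
          mul_le_mul_of_nonneg_left h6 (sq_nonneg a)
      _ = 4 * a ^ 2 * b ^ 2 := by ring
  · refine (mul_le_mul_of_nonneg_right (min_le_right _ _) (mul_pos h1 h2).le).trans ?_
    have h4 : a * n + b ≤ 2 * (a * (n + 1)) := by nlinarith
    have h5 : a * (n + 1) + b ≤ 2 * (a * (n + 1)) := by linarith
    have h6 : (a * n + b) * (a * (n + 1) + b) ≤ 2 * (a * (n + 1)) * (2 * (a * (n + 1))) :=
      mul_le_mul h4 h5 h2.le (by positivity)
    calc (b / ((n : ℝ) + 1)) ^ 2 * ((a * n + b) * (a * (n + 1) + b)) ≤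
          (b / ((n : ℝ) + 1)) ^ 2 * (2 * (a * (n + 1)) * (2 * (a * (n + 1)))) :=
          mul_le_mul_of_nonneg_left h6 (sq_nonneg _)
      _ = 4 * a ^ 2 * b ^ 2 := by
        field_simp
        ring

lemma hh_sum {a b : ℝ} (ha : 0 < a) (hb : 0 < b) (M : ℕ) :
    ∑ n ∈ range M, hh a b n ≤ a ^ 2 + 4 * a * b := by
  have h1 : ∀ K : ℕ, ∑ n ∈ range K, hh a b (n + 1) ≤
      4 * a * b - 4 * a * b ^ 2 / (a * K + b) := by
    intro K
    induction K with
    | zero =>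
      simp only [range_zero, sum_empty, Nat.cast_zero, mul_zero, zero_add]
      rw [le_sub_iff_add_le, zero_add, div_le_iff₀ hb]
      nlinarith
    | succ K ih =>
      rw [sum_range_succ]
      have h2 := step ha hb K
      have h3 : hh a b (K + 1) = min (a ^ 2) ((b / ((K : ℝ) + 1)) ^ 2) := rfl
      rw [h3]
      push_cast
      linarith
  have h2 : ∑ n ∈ range M, hh a b n ≤ ∑ n ∈ range (M + 1), hh a b n :=
    sum_le_sum_of_subset_of_nonneg (range_mono (Nat.le_succ M)) fun n _ _ => hh_nonneg a b n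
  refine h2.trans ?_
  rw [sum_range_succ']
  have h3 := h1 M
  have h4 : 0 ≤ 4 * a * b ^ 2 / (a * M + b) := by positivity
  have h5 : hh a b 0 = a ^ 2 := rfl
  rw [h5]
  linarith

/-- spaced reals -/
lemma spaced {ι : Type} {a b δ : ℝ} (ha : 0 < a) (hb : 0 < b) (hδ : 0 < δ) (T : Finset ι)
    (f K : ι → ℝ) (hf : ∀ i ∈ T, 0 ≤ f i)
    (hs : ∀ i ∈ T, ∀ j ∈ T, i ≠ j → δ ≤ |f i - f j|)
    (hK : ∀ i ∈ T, K i ≤ hh a b ⌊f i / δ⌋₊) :
    ∑ i ∈ T, K i ≤ a ^ 2 + 4 * a * b := by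
  have hinj : Set.InjOn (fun i => ⌊f i / δ⌋₊) (T : Set ι) := by
    intro i hi j hj hij
    by_contra hne
    have h1 := hs i hi j hj hne
    have hi0 := div_nonneg (hf i hi) hδ.le
    have hj0 := div_nonneg (hf j hj) hδ.le
    have h2 := Nat.floor_le hi0
    have h3 := Nat.lt_floor_add_one (f i / δ)
    have h4 := Nat.floor_le hj0
    have h5 := Nat.lt_floor_add_one (f j / δ)
    have hij' : ⌊f i / δ⌋₊ = ⌊f j / δ⌋₊ := hij
    rw [hij'] at h2 h3
    have h6 : |f i / δ - f j / δ| < 1 := by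
      rw [abs_lt]
      constructor <;> linarith
    rw [← sub_div, abs_div, abs_of_pos hδ, div_lt_one hδ] at h6
    linarith
  calc ∑ i ∈ T, K i ≤ ∑ i ∈ T, hh a b ⌊f i / δ⌋₊ := sum_le_sum hK
    _ = ∑ n ∈ T.image (fun i => ⌊f i / δ⌋₊), hh a b n := (sum_image hinj).symm
    _ ≤ ∑ n ∈ range ((T.image (fun i => ⌊f i / δ⌋₊)).sup id + 1), hh a b n := by
        refine sum_le_sum_of_subset_of_nonneg (fun n hn => ?_) fun n _ _ => hh_nonneg a b n
        exact mem_range.2 (Nat.lt_succ_of_le (Finset.le_sup (f := id) hn))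
    _ ≤ a ^ 2 + 4 * a * b := hh_sum ha hb _

/-! ### Arcs -/

lemma eq_exp {w : ℂ} (hw : ‖w‖ = 1) : w = Complex.exp (Complex.I * (w.arg : ℂ)) := by
  have h := Complex.norm_mul_exp_arg_mul_I w
  rw [hw, Complex.ofReal_one, one_mul, mul_comm] at h
  exact h.symm

lemma arc_le {w w' : ℂ} (hw : ‖w‖ = 1) (hw' : ‖w'‖ = 1) : ‖w - w'‖ ≤ |w.arg - w'.arg| := by
  have e1 := eq_exp hw
  have e2 := eq_exp hw'
  have e3 : Complex.exp (Complex.I * (w.arg : ℂ)) =
      w' * Complex.exp (Complex.I * ((w.arg - w'.arg : ℝ) : ℂ)) := by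
    calc Complex.exp (Complex.I * (w.arg : ℂ)) =
        Complex.exp (Complex.I * (w'.arg : ℂ)) *
          Complex.exp (Complex.I * ((w.arg - w'.arg : ℝ) : ℂ)) := by
          rw [← Complex.exp_add]
          congr 1
          push_cast
          ring
      _ = _ := by rw [← e2]
  have h1 : w - w' = w' * (Complex.exp (Complex.I * ((w.arg - w'.arg : ℝ) : ℂ)) - 1) := by
    rw [mul_sub, ← e3, ← e1, mul_one]
  rw [h1, norm_mul, hw', one_mul]
  exact Real.norm_exp_I_mul_ofReal_sub_one_le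

lemma le_arc {w : ℂ} (hw : ‖w‖ = 1) : |w.arg| / 2 ≤ ‖1 - w‖ := by
  rw [norm_sub_rev]
  conv_rhs => rw [eq_exp hw]
  rw [Complex.norm_exp_I_mul_ofReal_sub_one, Real.norm_eq_abs, abs_mul, abs_two]
  have h0 : |w.arg| ≤ Real.pi := Complex.abs_arg_le_pi w
  have h1 : |Real.sin (w.arg / 2)| = Real.sin (|w.arg| / 2) := by
    rw [Real.abs_sin_eq_sin_abs_of_abs_le_pi, abs_div, abs_two]
    rw [abs_div, abs_two]
    have := Real.pi_pos
    linarith
  rw [h1]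
  have h2 := Real.mul_le_sin (x := |w.arg| / 2) (by positivity) (by linarith)
  have h3 : 2 / Real.pi * (|w.arg| / 2) ≥ |w.arg| / 4 := by
    have h4 : 2 / Real.pi ≥ 1 / 2 := by
      rw [ge_iff_le, div_le_div_iff₀ two_pos Real.pi_pos]
      have := Real.pi_le_four
      linarith
    nlinarith [abs_nonneg w.arg]
  linarith

/-- spaced points on the circle -/
lemma row {ι : Type} {a δ : ℝ} (ha : 0 < a) (hδ : 0 < δ) (S : Finset ι) (w : ι → ℂ) (K : ι → ℝ)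
    (hw : ∀ i ∈ S, ‖w i‖ = 1) (hs : ∀ i ∈ S, ∀ j ∈ S, i ≠ j → δ ≤ ‖w i - w j‖)
    (hK1 : ∀ i ∈ S, K i ≤ a ^ 2) (hK2 : ∀ i ∈ S, K i * ‖1 - w i‖ ^ 2 ≤ 4) :
    ∑ i ∈ S, K i ≤ 2 * a ^ 2 + 32 * a / δ := by
  classical
  have hbd : ∀ i ∈ S, K i ≤ hh a (4 / δ) ⌊|(w i).arg| / δ⌋₊ := by
    intro i hi
    rcases hn : ⌊|(w i).arg| / δ⌋₊ with _ | n
    · exact hK1 i hi
    · refine le_min (hK1 i hi) ?_
      have h1 : ((n : ℝ) + 1) ≤ |(w i).arg| / δ := by
        have h2 := Nat.floor_le (div_nonneg (abs_nonneg (w i).arg) hδ.le)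
        rw [hn] at h2
        push_cast at h2
        exact h2
      rw [le_div_iff₀ hδ] at h1
      have h2 := le_arc (hw i hi)
      have h3 : ((n : ℝ) + 1) * δ / 2 ≤ ‖1 - w i‖ := by linarith
      have h4 : 0 < ((n : ℝ) + 1) * δ / 2 := by positivity
      have h5 := hK2 i hi
      have h6 : (((n : ℝ) + 1) * δ / 2) ^ 2 ≤ ‖1 - w i‖ ^ 2 := pow_le_pow_left₀ h4.le h3 2
      have h7 : 0 < ‖1 - w i‖ ^ 2 := lt_of_lt_of_le (by positivity) h6
      have h8 : K i ≤ 4 / ‖1 - w i‖ ^ 2 := by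
        rw [le_div_iff₀ h7]
        exact h5
      refine h8.trans ?_
      have h9 : 4 / ‖1 - w i‖ ^ 2 ≤ 4 / (((n : ℝ) + 1) * δ / 2) ^ 2 :=
        div_le_div_of_nonneg_left (by norm_num) (by positivity) h6
      refine h9.trans (le_of_eq ?_)
      field_simp
      norm_num
  have hb : (0 : ℝ) < 4 / δ := by positivity
  have h1 := spaced ha hb hδ (S.filter fun i => 0 ≤ (w i).arg) (fun i => |(w i).arg|) K
    (fun i _ => abs_nonneg _) (fun i hi j hj hij => by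
      obtain ⟨hi1, hi2⟩ := mem_filter.1 hi
      obtain ⟨hj1, hj2⟩ := mem_filter.1 hj
      have h := (hs i hi1 j hj1 hij).trans (arc_le (hw i hi1) (hw j hj1))
      simp only [abs_of_nonneg hi2, abs_of_nonneg hj2]
      exact h) (fun i hi => hbd i (mem_filter.1 hi).1)
  have h2 := spaced ha hb hδ (S.filter fun i => ¬ 0 ≤ (w i).arg) (fun i => |(w i).arg|) K
    (fun i _ => abs_nonneg _) (fun i hi j hj hij => by
      obtain ⟨hi1, hi2⟩ := mem_filter.1 hi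
      obtain ⟨hj1, hj2⟩ := mem_filter.1 hj
      have h := (hs i hi1 j hj1 hij).trans (arc_le (hw i hi1) (hw j hj1))
      push Not at hi2 hj2
      simp only [abs_of_neg hi2, abs_of_neg hj2]
      rw [neg_sub_neg, abs_sub_comm]
      exact h) (fun i hi => hbd i (mem_filter.1 hi).1)
  rw [← sum_filter_add_sum_filter_not S (fun i => 0 ≤ (w i).arg) K]
  have h3 : 4 * a * (4 / δ) = 16 * a / δ := by ring
  have h4 : 32 * a / δ = 2 * (16 * a / δ) := by ring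
  rw [h3] at h1 h2
  rw [h4]
  linarith

/-! ### The kernel -/

/-- the geometric sum -/
noncomputable def DD (P : ℕ) (w : ℂ) : ℂ := ∑ r ∈ range P, w ^ r

lemma DD_le (P : ℕ) {w : ℂ} (hw : ‖w‖ = 1) : ‖DD P w‖ ≤ P := by
  refine (norm_sum_le _ _).trans ?_
  simp [norm_pow, hw]

lemma DD_mul (P : ℕ) {w : ℂ} (hw : ‖w‖ = 1) : ‖DD P w‖ * ‖1 - w‖ ≤ 2 := by
  rw [← norm_mul]
  have h1 : DD P w * (1 - w) = 1 - w ^ P := by
    unfold DD
    have := geom_sum_mul_neg w P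
    exact this
  rw [h1]
  refine (norm_sub_le _ _).trans ?_
  rw [norm_one, norm_pow, hw, one_pow]
  norm_num

lemma expand {ι : Type} (S : Finset ι) (z b : ι → ℂ) (P : ℕ) :
    ((∑ r ∈ range P, ∑ t ∈ range P, ‖∑ i ∈ S, b i * (z i ^ r * conj (z i) ^ t)‖ ^ 2 : ℝ) : ℂ) =
      ∑ i ∈ S, ∑ j ∈ S, b i * conj (b j) * ((‖DD P (z i * conj (z j))‖ ^ 2 : ℝ) : ℂ) := by
  have h1 : ∀ x : ℂ, ((‖x‖ ^ 2 : ℝ) : ℂ) = x * conj x := by
    intro x
    rw [Complex.mul_conj, Complex.normSq_eq_norm_sq]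
  have h2 : ∀ i j, b i * conj (b j) * ((‖DD P (z i * conj (z j))‖ ^ 2 : ℝ) : ℂ) =
      ∑ r ∈ range P, ∑ t ∈ range P,
        b i * (z i ^ r * conj (z i) ^ t) * conj (b j * (z j ^ r * conj (z j) ^ t)) := by
    intro i j
    rw [h1]
    unfold DD
    rw [map_sum, sum_mul_sum, mul_sum]
    refine sum_congr rfl fun r _ => ?_
    rw [mul_sum]
    refine sum_congr rfl fun t _ => ?_
    simp only [map_mul, map_pow, Complex.conj_conj, mul_pow]
    ring
  have h3 : ((∑ r ∈ range P, ∑ t ∈ range P,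
      ‖∑ i ∈ S, b i * (z i ^ r * conj (z i) ^ t)‖ ^ 2 : ℝ) : ℂ) =
      ∑ r ∈ range P, ∑ t ∈ range P, ∑ i ∈ S, ∑ j ∈ S,
        b i * (z i ^ r * conj (z i) ^ t) * conj (b j * (z j ^ r * conj (z j) ^ t)) := by
    rw [Complex.ofReal_sum]
    refine sum_congr rfl fun r _ => ?_
    rw [Complex.ofReal_sum]
    refine sum_congr rfl fun t _ => ?_
    rw [h1, map_sum, sum_mul_sum]
  rw [h3]
  simp only [h2]
  calc ∑ r ∈ range P, ∑ t ∈ range P, ∑ i ∈ S, ∑ j ∈ S,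
        b i * (z i ^ r * conj (z i) ^ t) * conj (b j * (z j ^ r * conj (z j) ^ t)) =
      ∑ r ∈ range P, ∑ i ∈ S, ∑ j ∈ S, ∑ t ∈ range P,
        b i * (z i ^ r * conj (z i) ^ t) * conj (b j * (z j ^ r * conj (z j) ^ t)) := by
        refine sum_congr rfl fun r _ => ?_
        rw [sum_comm]
        exact sum_congr rfl fun i _ => sum_comm
    _ = _ := by
        rw [sum_comm]
        exact sum_congr rfl fun i _ => sum_comm

/-- passing to a double sum -/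
lemma double {ι : Type} (S : Finset ι) (z b : ι → ℂ) (hz : ∀ i ∈ S, ‖z i‖ = 1) (N : ℕ) :
    N * ∑ m ∈ range N, ‖∑ i ∈ S, b i * z i ^ m‖ ^ 2 ≤
      ∑ r ∈ range (2 * N), ∑ t ∈ range (2 * N),
        ‖∑ i ∈ S, b i * (z i ^ r * conj (z i) ^ t)‖ ^ 2 := by
  have h1 : ∀ m t, ‖∑ i ∈ S, b i * z i ^ m‖ ^ 2 =
      ‖∑ i ∈ S, b i * (z i ^ (m + t) * conj (z i) ^ t)‖ ^ 2 := by
    intro m t
    congr 2
    refine sum_congr rfl fun i hi => ?_
    have h2 : z i * conj (z i) = 1 := by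
      rw [Complex.mul_conj, Complex.normSq_eq_norm_sq, hz i hi]
      simp
    rw [pow_add, mul_assoc (z i ^ m), ← mul_pow, h2, one_pow, mul_one]
  rw [sum_comm (s := range (2 * N))]
  calc (N : ℝ) * ∑ m ∈ range N, ‖∑ i ∈ S, b i * z i ^ m‖ ^ 2 =
      ∑ t ∈ range N, ∑ m ∈ range N, ‖∑ i ∈ S, b i * (z i ^ (m + t) * conj (z i) ^ t)‖ ^ 2 := by
        rw [← nsmul_eq_mul, ← card_range N, ← sum_const]
        refine sum_congr (by rw [card_range]) fun t _ => ?_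
        rw [card_range]
        exact sum_congr rfl fun m _ => h1 m t
    _ ≤ ∑ t ∈ range N, ∑ r ∈ range (2 * N),
          ‖∑ i ∈ S, b i * (z i ^ r * conj (z i) ^ t)‖ ^ 2 := by
        refine sum_le_sum fun t ht => ?_
        have ht' := mem_range.1 ht
        have h2 : ∑ m ∈ range N, ‖∑ i ∈ S, b i * (z i ^ (m + t) * conj (z i) ^ t)‖ ^ 2 =
            ∑ r ∈ (range N).image (fun m => m + t),
              ‖∑ i ∈ S, b i * (z i ^ r * conj (z i) ^ t)‖ ^ 2 := by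
          rw [sum_image fun x _ y _ h => Nat.add_right_cancel h]
        rw [h2]
        refine sum_le_sum_of_subset_of_nonneg ?_ fun _ _ _ => sq_nonneg _
        intro r hr
        obtain ⟨m, hm, rfl⟩ := mem_image.1 hr
        have := mem_range.1 hm
        exact mem_range.2 (by omega)
    _ ≤ _ := by
        refine sum_le_sum_of_subset_of_nonneg (range_mono (by omega)) fun t _ _ => ?_
        exact sum_nonneg fun _ _ => sq_nonneg _

end LsvAux

open LsvAux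

/-- The dual large sieve for spaced points. -/
theorem lsv : ∃ C : ℝ, 0 < C ∧ ∀ (ι : Type) (S : Finset ι) (z b : ι → ℂ) (δ : ℝ) (N : ℕ),
    0 < δ → 1 ≤ N →
    (∀ i ∈ S, ‖z i‖ = 1) → (∀ i ∈ S, ∀ j ∈ S, i ≠ j → δ ≤ ‖z i - z j‖) →
    ∑ m ∈ Finset.range N, ‖∑ i ∈ S, b i * z i ^ m‖ ^ 2 ≤
      C * (N + 1 / δ) * ∑ i ∈ S, ‖b i‖ ^ 2 := by
  refine ⟨64, by norm_num, ?_⟩
  intro ι S z b δ N hδ hN hz hs
  have hN0 : (0 : ℝ) < N := by exact_mod_cast hN
  set K : ι → ι → ℝ := fun i j => ‖DD (2 * N) (z i * conj (z j))‖ ^ 2 with hK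
  have hKn : ∀ i j, 0 ≤ K i j := fun i j => sq_nonneg _
  have hnz : ∀ i ∈ S, ∀ j ∈ S, ‖z i * conj (z j)‖ = 1 := by
    intro i hi j hj
    rw [norm_mul, Complex.norm_conj, hz i hi, hz j hj, mul_one]
  have hK1 : ∀ i ∈ S, ∀ j ∈ S, K i j ≤ (2 * (N : ℝ)) ^ 2 := by
    intro i hi j hj
    have h := DD_le (2 * N) (hnz i hi j hj)
    push_cast at h
    exact pow_le_pow_left₀ (norm_nonneg _) h 2
  have hK2 : ∀ i ∈ S, ∀ j ∈ S, K i j * ‖1 - z i * conj (z j)‖ ^ 2 ≤ 4 := by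
    intro i hi j hj
    have h := DD_mul (2 * N) (hnz i hi j hj)
    have h2 := pow_le_pow_left₀ (mul_nonneg (norm_nonneg _) (norm_nonneg _)) h 2
    rw [mul_pow] at h2
    refine h2.trans (by norm_num)
  have hB : 2 * (2 * (N : ℝ)) ^ 2 + 32 * (2 * (N : ℝ)) / δ =
      N * (8 * N + 64 / δ) := by
    field_simp
    ring
  -- rows and columns
  have hrow : ∀ i ∈ S, ∑ j ∈ S, K j i ≤ N * (8 * N + 64 / δ) := by
    intro i hi
    rw [← hB]
    refine row (by positivity) hδ S (fun j => z j * conj (z i)) (fun j => K j i)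
      (fun j hj => hnz j hj i hi) (fun j hj k hk hjk => ?_) (fun j hj => hK1 j hj i hi)
      (fun j hj => hK2 j hj i hi)
    rw [← sub_mul, norm_mul, Complex.norm_conj, hz i hi, mul_one]
    exact hs j hj k hk hjk
  have hcol : ∀ i ∈ S, ∑ j ∈ S, K i j ≤ N * (8 * N + 64 / δ) := by
    intro i hi
    rw [← hB]
    refine row (by positivity) hδ S (fun j => z i * conj (z j)) (fun j => K i j)
      (fun j hj => hnz i hi j hj) (fun j hj k hk hjk => ?_) (fun j hj => hK1 i hi j hj)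
      (fun j hj => hK2 i hi j hj)
    rw [← mul_sub, norm_mul, hz i hi, one_mul, ← map_sub, Complex.norm_conj]
    exact hs j hj k hk hjk
  -- the double sum
  have h1 := double S z b hz N
  have h2 : ∑ r ∈ range (2 * N), ∑ t ∈ range (2 * N),
        ‖∑ i ∈ S, b i * (z i ^ r * conj (z i) ^ t)‖ ^ 2 ≤
      ∑ i ∈ S, ∑ j ∈ S, ‖b i‖ * ‖b j‖ * K i j := by
    have h3 := expand S z b (2 * N)
    have h4 : ∑ r ∈ range (2 * N), ∑ t ∈ range (2 * N),
        ‖∑ i ∈ S, b i * (z i ^ r * conj (z i) ^ t)‖ ^ 2 =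
        ‖((∑ r ∈ range (2 * N), ∑ t ∈ range (2 * N),
        ‖∑ i ∈ S, b i * (z i ^ r * conj (z i) ^ t)‖ ^ 2 : ℝ) : ℂ)‖ := by
      rw [Complex.norm_real, Real.norm_of_nonneg]
      exact sum_nonneg fun _ _ => sum_nonneg fun _ _ => sq_nonneg _
    rw [h4, h3]
    refine (norm_sum_le _ _).trans (sum_le_sum fun i _ => ?_)
    refine (norm_sum_le _ _).trans (sum_le_sum fun j _ => ?_)
    rw [norm_mul, norm_mul, Complex.norm_conj, Complex.norm_real,
      Real.norm_of_nonneg (sq_nonneg _)]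
  have h5 : ∑ i ∈ S, ∑ j ∈ S, ‖b i‖ * ‖b j‖ * K i j ≤
      N * (8 * N + 64 / δ) * ∑ i ∈ S, ‖b i‖ ^ 2 := by
    have h6 : ∑ i ∈ S, ∑ j ∈ S, ‖b i‖ * ‖b j‖ * K i j ≤
        ∑ i ∈ S, ∑ j ∈ S, (‖b i‖ ^ 2 / 2 * K i j + ‖b j‖ ^ 2 / 2 * K i j) := by
      refine sum_le_sum fun i _ => sum_le_sum fun j _ => ?_
      rw [← add_mul]
      refine mul_le_mul_of_nonneg_right ?_ (hKn i j)
      nlinarith [sq_nonneg (‖b i‖ - ‖b j‖)]
    refine h6.trans ?_
    simp only [sum_add_distrib]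
    rw [sum_comm (f := fun i j => ‖b j‖ ^ 2 / 2 * K i j)]
    simp only [← Finset.mul_sum]
    rw [← sum_add_distrib, Finset.mul_sum]
    refine sum_le_sum fun i hi => ?_
    have h7 := mul_le_mul_of_nonneg_left (hcol i hi) (by positivity : 0 ≤ ‖b i‖ ^ 2 / 2)
    have h8 := mul_le_mul_of_nonneg_left (hrow i hi) (by positivity : 0 ≤ ‖b i‖ ^ 2 / 2)
    linarith
  have h9 : (N : ℝ) * ∑ m ∈ range N, ‖∑ i ∈ S, b i * z i ^ m‖ ^ 2 ≤
      N * ((8 * N + 64 / δ) * ∑ i ∈ S, ‖b i‖ ^ 2) := by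
    rw [← mul_assoc]
    exact h1.trans (h2.trans h5)
  have h10 := le_of_mul_le_mul_left h9 hN0
  refine h10.trans (mul_le_mul_of_nonneg_right ?_ (sum_nonneg fun _ _ => sq_nonneg _))
  have h11 : 64 * ((N : ℝ) + 1 / δ) = 64 * N + 64 / δ := by ring
  rw [h11]
  linarith

end Pool.Agent.Lib.MP_bdd9a3_nt.SP
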