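import Mathlib
import Pool.Agent.Lib.MP_bdd9a3_nt.SP.ALS

set_option autoImplicit false

/-!
The multiplicative large sieve for primitive Dirichlet characters.
-/

namespace Pool.Agent.Lib.MP_bdd9a3_nt.SP

open Finset
open scoped ComplexConjugate

/-! ### Duality -/

theorem lsvD : ∃ C : ℝ, 0 < C ∧ ∀ (ι : Type) (S : Finset ι) (z : ι → ℂ) (a : ℕ → ℂ) (δ : ℝ)
    (N : ℕ), 0 < δ → 1 ≤ N → (∀ i ∈ S, ‖z i‖ = 1) →
    (∀ i ∈ S, ∀ j ∈ S, i ≠ j → δ ≤ ‖z i - z j‖) →
    ∑ i ∈ S, ‖∑ m ∈ range N, a m * z i ^ m‖ ^ 2 ≤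
      C * (N + 1 / δ) * ∑ m ∈ range N, ‖a m‖ ^ 2 := by
  obtain ⟨C, hC, h⟩ := lsv
  refine ⟨C, hC, ?_⟩
  intro ι S z a δ N hδ hN hz hs
  set A : ι → ℂ := fun i => ∑ m ∈ range N, a m * z i ^ m with hA
  set D : ℕ → ℂ := fun m => ∑ i ∈ S, conj (A i) * z i ^ m with hD
  set T : ℝ := ∑ i ∈ S, ‖A i‖ ^ 2 with hT
  have hT0 : 0 ≤ T := sum_nonneg fun _ _ => sq_nonneg _
  have h1 : ∑ m ∈ range N, ‖D m‖ ^ 2 ≤ C * (N + 1 / δ) * T := by
    have := h ι S z (fun i => conj (A i)) δ N hδ hN hz hs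
    simpa only [Complex.norm_conj] using this
  have h2 : (T : ℂ) = ∑ m ∈ range N, a m * D m := by
    have e1 : ∀ i, ((‖A i‖ ^ 2 : ℝ) : ℂ) = ∑ m ∈ range N, a m * (conj (A i) * z i ^ m) := by
      intro i
      have : ((‖A i‖ ^ 2 : ℝ) : ℂ) = A i * conj (A i) := by
        rw [Complex.mul_conj, Complex.normSq_eq_norm_sq]
      rw [this, hA]
      simp only
      rw [Finset.sum_mul]
      refine sum_congr rfl fun m _ => ?_
      ring
    rw [hT, Complex.ofReal_sum]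
    simp only [e1, hD, Finset.mul_sum]
    rw [sum_comm]
  have h3 : T ≤ ∑ m ∈ range N, ‖a m‖ * ‖D m‖ := by
    calc T = ‖(T : ℂ)‖ := by rw [Complex.norm_real, Real.norm_of_nonneg hT0]
      _ ≤ ∑ m ∈ range N, ‖a m * D m‖ := by rw [h2]; exact norm_sum_le _ _
      _ = _ := sum_congr rfl fun m _ => norm_mul _ _
  have h4 : (∑ m ∈ range N, ‖a m‖ * ‖D m‖) ^ 2 ≤
      (∑ m ∈ range N, ‖a m‖ ^ 2) * ∑ m ∈ range N, ‖D m‖ ^ 2 := sum_mul_sq_le_sq_mul_sq _ _ _
  have h5 : T ^ 2 ≤ (∑ m ∈ range N, ‖a m‖ ^ 2) * (C * (N + 1 / δ) * T) :=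
    (pow_le_pow_left₀ hT0 h3 2).trans (h4.trans (mul_le_mul_of_nonneg_left h1
      (sum_nonneg fun _ _ => sq_nonneg _)))
  rcases hT0.eq_or_lt with h0 | h0
  · rw [← h0]
    have : 0 ≤ ∑ m ∈ range N, ‖a m‖ ^ 2 := sum_nonneg fun _ _ => sq_nonneg _
    positivity
  · have h6 : T * T ≤ (C * (N + 1 / δ) * ∑ m ∈ range N, ‖a m‖ ^ 2) * T := by
      calc T * T = T ^ 2 := by ring
        _ ≤ _ := h5
        _ = _ := by ring
    exact le_of_mul_le_mul_right h6 h0

/-! ### Spacing of fractions -/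

lemma sin_lb {R j : ℕ} (h1 : 1 ≤ j) (h2 : j < R) :
    2 / (R : ℝ) ≤ Real.sin (Real.pi * j / R) := by
  have hR : (0 : ℝ) < R := by exact_mod_cast (by omega : 0 < R)
  have hpi := Real.pi_pos
  have hj : (1 : ℝ) ≤ j := by exact_mod_cast h1
  rcases le_total (2 * j) R with h | h
  · have h' : (2 : ℝ) * j ≤ R := by exact_mod_cast h
    have h3 : Real.pi * j / R ≤ Real.pi / 2 := by
      rw [div_le_div_iff₀ hR two_pos]
      nlinarith
    have h4 := Real.mul_le_sin (x := Real.pi * j / R) (by positivity) h3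
    refine le_trans ?_ h4
    have : 2 / Real.pi * (Real.pi * j / R) = 2 * j / R := by field_simp
    rw [this]
    gcongr
    linarith
  · have h' : (R : ℝ) ≤ 2 * j := by exact_mod_cast h
    have h5 : (j : ℝ) + 1 ≤ R := by exact_mod_cast h2
    have h6 : Real.sin (Real.pi * j / R) = Real.sin (Real.pi * (R - j) / R) := by
      rw [← Real.sin_pi_sub]
      congr 1
      field_simp
    have h3 : Real.pi * (R - j) / R ≤ Real.pi / 2 := by
      rw [div_le_div_iff₀ hR two_pos]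
      nlinarith
    have h7 : (0 : ℝ) ≤ R - j := by linarith
    have h4 := Real.mul_le_sin (x := Real.pi * (R - j) / R) (by positivity) h3
    rw [h6]
    refine le_trans ?_ h4
    have : 2 / Real.pi * (Real.pi * (R - j) / R) = 2 * (R - j) / R := by field_simp
    rw [this]
    gcongr
    linarith

lemma root_lb {R : ℕ} (hR : 0 < R) {k : ℤ} (hk : ¬ (R : ℤ) ∣ k) :
    4 / (R : ℝ) ≤ ‖Complex.exp (2 * Real.pi * Complex.I * k / R) - 1‖ := by
  have hR' : (0 : ℝ) < R := by exact_mod_cast hR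
  have hRc : (R : ℂ) ≠ 0 := by exact_mod_cast hR.ne'
  have hRz : (0 : ℤ) < R := by exact_mod_cast hR
  set j : ℕ := (k % R).toNat with hj
  have hjz : (j : ℤ) = k % R := Int.toNat_of_nonneg (Int.emod_nonneg _ hRz.ne')
  have hj2 : j < R := by
    have := Int.emod_lt_of_pos k hRz
    omega
  have hj1 : 1 ≤ j := by
    by_contra h0
    apply hk
    apply Int.dvd_of_emod_eq_zero
    omega
  have hkj : k = R * (k / R) + j := by
    rw [hjz]
    exact (Int.mul_ediv_add_emod k R).symm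
  have e1 : Complex.exp (2 * Real.pi * Complex.I * k / R) =
      Complex.exp (Complex.I * ((2 * (Real.pi * j / R) : ℝ) : ℂ)) := by
    have e2 : (2 * Real.pi * Complex.I * k / R : ℂ) =
        Complex.I * ((2 * (Real.pi * j / R) : ℝ) : ℂ) + (k / R : ℤ) * (2 * Real.pi * Complex.I) := by
      have e3 : (k : ℂ) = R * ((k / R : ℤ) : ℂ) + j := by exact_mod_cast congrArg (Int.cast (R := ℂ)) hkj
      rw [e3]
      push_cast
      field_simp
      ring
    rw [e2, Complex.exp_add, Complex.exp_int_mul_two_pi_mul_I, mul_one]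
  rw [e1, Complex.norm_exp_I_mul_ofReal_sub_one]
  have h1 : 2 * (Real.pi * j / R) / 2 = Real.pi * j / R := by ring
  rw [h1, Real.norm_eq_abs, abs_mul, abs_two]
  have h2 := sin_lb hj1 hj2
  have h3 : 4 / (R : ℝ) = 2 * (2 / R) := by ring
  rw [h3]
  exact mul_le_mul_of_nonneg_left (h2.trans (le_abs_self _)) two_pos.le

/-- the point `e(b/r)` -/
noncomputable def pt (x : ℕ × ℕ) : ℂ := Complex.exp (2 * Real.pi * Complex.I * x.2 / x.1)

lemma norm_pt (x : ℕ × ℕ) : ‖pt x‖ = 1 := by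
  unfold pt
  have : (2 * Real.pi * Complex.I * x.2 / x.1 : ℂ) =
      ((2 * Real.pi * x.2 / x.1 : ℝ) : ℂ) * Complex.I := by
    push_cast
    ring
  rw [this, Complex.norm_exp_ofReal_mul_I]

lemma pt_spaced {x x' : ℕ × ℕ} {Q : ℕ} (h1 : 1 ≤ x.1) (h2 : x.1 ≤ Q) (h3 : x.2 < x.1)
    (h4 : x.2.Coprime x.1) (h1' : 1 ≤ x'.1) (h2' : x'.1 ≤ Q) (h3' : x'.2 < x'.1)
    (h4' : x'.2.Coprime x'.1) (hne : x ≠ x') : 4 / (Q : ℝ) ^ 2 ≤ ‖pt x - pt x'‖ := by
  obtain ⟨r, b⟩ := x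
  obtain ⟨r', b'⟩ := x'
  simp only at h1 h2 h3 h4 h1' h2' h3' h4'
  have hr : (r : ℂ) ≠ 0 := by exact_mod_cast (by omega : r ≠ 0)
  have hr' : (r' : ℂ) ≠ 0 := by exact_mod_cast (by omega : r' ≠ 0)
  set k : ℤ := b * r' - b' * r with hk
  have hnd : ¬ ((r * r' : ℕ) : ℤ) ∣ k := by
    intro hd
    push_cast at hd
    have d1 : (r : ℤ) ∣ b * r' := by
      have := (dvd_of_mul_right_dvd hd)
      rw [hk] at this
      have := (Int.dvd_sub this (Dvd.intro_left (-b' : ℤ) rfl : (r : ℤ) ∣ -b' * r))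
      have e : (b * r' - b' * r - -b' * r : ℤ) = b * r' := by ring
      rwa [e] at this
    have d2 : (r' : ℤ) ∣ b' * r := by
      have := (dvd_of_mul_left_dvd hd)
      rw [hk] at this
      have := (Int.dvd_sub (Dvd.intro_left (b : ℤ) rfl : (r' : ℤ) ∣ b * r') this)
      have e : (b * r' - (b * r' - b' * r) : ℤ) = b' * r := by ring
      rwa [e] at this
    have d3 : r ∣ r' := by
      have : r ∣ b * r' := by exact_mod_cast d1
      exact Nat.Coprime.dvd_of_dvd_mul_left h4.symm this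
    have d4 : r' ∣ r := by
      have : r' ∣ b' * r := by exact_mod_cast d2
      exact Nat.Coprime.dvd_of_dvd_mul_left h4'.symm this
    have hrr : r = r' := Nat.dvd_antisymm d3 d4
    subst hrr
    have e : k = (b - b') * r := by rw [hk]; ring
    rw [e] at hd
    have hr0 : (r : ℤ) ≠ 0 := by exact_mod_cast (by omega : r ≠ 0)
    have d5 : (r : ℤ) ∣ b - b' := (mul_dvd_mul_iff_right hr0).1 hd
    have d6 : (b : ℤ) - b' = 0 := by
      apply Int.eq_zero_of_abs_lt_dvd d5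
      rw [abs_lt]
      constructor <;> omega
    apply hne
    have : b = b' := by omega
    rw [this]
  have hR : 0 < r * r' := Nat.mul_pos h1 h1'
  have h5 := root_lb hR hnd
  have h6 : ‖pt (r, b) - pt (r', b')‖ =
      ‖Complex.exp (2 * Real.pi * Complex.I * k / (r * r' : ℕ)) - 1‖ := by
    have e1 : pt (r, b) - pt (r', b') =
        pt (r', b') * (Complex.exp (2 * Real.pi * Complex.I * k / (r * r' : ℕ)) - 1) := by
      rw [mul_sub, mul_one]
      congr 1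
      unfold pt
      rw [← Complex.exp_add]
      congr 1
      rw [hk]
      push_cast
      field_simp
      ring
    rw [e1, norm_mul, norm_pt, one_mul]
  rw [h6]
  refine le_trans ?_ h5
  have h7 : ((r * r' : ℕ) : ℝ) ≤ (Q : ℝ) ^ 2 := by
    rw [sq]
    exact_mod_cast Nat.mul_le_mul h2 h2'
  have h8 : (0 : ℝ) < (r * r' : ℕ) := by exact_mod_cast hR
  exact div_le_div_of_nonneg_left (by norm_num) h8 h7

/-! ### Gauss sums -/

section Gauss

variable {r : ℕ} [NeZero r]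

omit [NeZero r] in
lemma conj_char (ψ : DirichletCharacter ℂ r) (a : ZMod r) : conj (ψ a) = ψ⁻¹ a :=
  MulChar.star_apply' ψ a

lemma parseval (f : ZMod r → ℂ) :
    ∑ n : ZMod r, ‖∑ a, f a * ZMod.stdAddChar (n * a)‖ ^ 2 = r * ∑ a, ‖f a‖ ^ 2 := by
  have key : ((∑ n : ZMod r, ‖∑ a, f a * ZMod.stdAddChar (n * a)‖ ^ 2 : ℝ) : ℂ) =
      ((r * ∑ a, ‖f a‖ ^ 2 : ℝ) : ℂ) := by
    have h1 : ∀ x : ℂ, ((‖x‖ ^ 2 : ℝ) : ℂ) = x * conj x := by
      intro x
      rw [Complex.mul_conj, Complex.normSq_eq_norm_sq]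
    rw [Complex.ofReal_sum]
    simp only [h1]
    rw [Complex.ofReal_mul, Complex.ofReal_sum, Complex.ofReal_natCast]
    simp only [h1]
    have h2 : ∀ n : ZMod r, (∑ a, f a * ZMod.stdAddChar (n * a)) *
        conj (∑ a, f a * ZMod.stdAddChar (n * a)) =
        ∑ a, ∑ b, f a * conj (f b) * ZMod.stdAddChar (n * (a - b)) := by
      intro n
      rw [map_sum, sum_mul_sum]
      refine sum_congr rfl fun a _ => sum_congr rfl fun b _ => ?_
      rw [map_mul (starRingEnd ℂ), ← AddChar.map_neg_eq_conj]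
      have : n * (a - b) = n * a + -(n * b) := by ring
      rw [this, AddChar.map_add_eq_mul]
      ring
    simp only [h2]
    rw [sum_comm]
    rw [Finset.mul_sum]
    refine sum_congr rfl fun a _ => ?_
    rw [sum_comm]
    have h3 : ∀ b : ZMod r, ∑ n : ZMod r, f a * conj (f b) * ZMod.stdAddChar (n * (a - b)) =
        if a = b then f a * conj (f b) * r else 0 := by
      intro b
      rw [← Finset.mul_sum, AddChar.sum_mulShift _ (ZMod.isPrimitive_stdAddChar r)]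
      by_cases hab : a = b
      · rw [if_pos hab, if_pos (sub_eq_zero.2 hab), ZMod.card]
      · rw [if_neg hab, if_neg (sub_ne_zero.2 hab), Nat.cast_zero, mul_zero]
    simp only [h3]
    rw [Finset.sum_ite_eq, if_pos (mem_univ _)]
    ring
  exact_mod_cast key

lemma gauss_eq {ψ : DirichletCharacter ℂ r} (hψ : ψ.IsPrimitive) (n : ZMod r) :
    ∑ a, ψ a * ZMod.stdAddChar (n * a) = ψ⁻¹ n * gaussSum ψ ZMod.stdAddChar := by
  rw [← gaussSum_mulShift_of_isPrimitive _ hψ n]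
  rfl

lemma tau_sq {ψ : DirichletCharacter ℂ r} (hψ : ψ.IsPrimitive) :
    ‖gaussSum ψ ZMod.stdAddChar‖ ^ 2 = r := by
  have h1 := parseval (r := r) (fun a => ψ a)
  simp only [gauss_eq hψ, norm_mul, mul_pow] at h1
  rw [← Finset.sum_mul] at h1
  have h2 : ∑ n : ZMod r, ‖ψ⁻¹ n‖ ^ 2 = ∑ a : ZMod r, ‖ψ a‖ ^ 2 := by
    refine sum_congr rfl fun a _ => ?_
    rw [← conj_char, Complex.norm_conj]
  rw [h2] at h1
  have h3 : 0 < ∑ a : ZMod r, ‖ψ a‖ ^ 2 := by
    refine lt_of_lt_of_le one_pos ?_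
    have : (1 : ℝ) = ‖ψ 1‖ ^ 2 := by simp
    rw [this]
    exact single_le_sum (f := fun a => ‖ψ a‖ ^ 2) (fun _ _ => sq_nonneg _) (mem_univ 1)
  have h4 : (∑ a : ZMod r, ‖ψ a‖ ^ 2) * ‖gaussSum ψ ZMod.stdAddChar‖ ^ 2 =
      (∑ a : ZMod r, ‖ψ a‖ ^ 2) * r := by rw [h1]; ring
  exact mul_left_cancel₀ h3.ne' h4

lemma char_parseval (T : ZMod r → ℂ) :
    ∑ ψ : DirichletCharacter ℂ r, ‖∑ a, ψ a * T a‖ ^ 2 ≤
      r * ∑ a ∈ univ.filter (fun a : ZMod r => IsUnit a), ‖T a‖ ^ 2 := by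
  have key : ((∑ ψ : DirichletCharacter ℂ r, ‖∑ a, ψ a * T a‖ ^ 2 : ℝ) : ℂ) =
      ((r.totient * ∑ a ∈ univ.filter (fun a : ZMod r => IsUnit a), ‖T a‖ ^ 2 : ℝ) : ℂ) := by
    have h1 : ∀ x : ℂ, ((‖x‖ ^ 2 : ℝ) : ℂ) = x * conj x := by
      intro x
      rw [Complex.mul_conj, Complex.normSq_eq_norm_sq]
    rw [Complex.ofReal_sum]
    simp only [h1]
    rw [Complex.ofReal_mul, Complex.ofReal_sum, Complex.ofReal_natCast]
    simp only [h1]
    have h2 : ∀ ψ : DirichletCharacter ℂ r, (∑ a, ψ a * T a) * conj (∑ a, ψ a * T a) =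
        ∑ b, ∑ a, T a * conj (T b) * (ψ⁻¹ b * ψ a) := by
      intro ψ
      rw [map_sum, sum_mul_sum, sum_comm]
      refine sum_congr rfl fun a _ => sum_congr rfl fun b _ => ?_
      rw [map_mul, conj_char]
      ring
    simp only [h2]
    rw [sum_comm]
    rw [Finset.mul_sum, sum_filter]
    refine sum_congr rfl fun b _ => ?_
    rw [sum_comm]
    split_ifs with hb
    · have h3 : ∀ a : ZMod r, ∑ ψ : DirichletCharacter ℂ r, T a * conj (T b) * (ψ⁻¹ b * ψ a) =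
          if b = a then T a * conj (T b) * r.totient else 0 := by
        intro a
        rw [← Finset.mul_sum]
        have h4 : ∀ ψ : DirichletCharacter ℂ r, ψ⁻¹ b = ψ b⁻¹ := by
          intro ψ
          rw [MulChar.inv_apply]
          congr 1
          obtain ⟨u, rfl⟩ := hb
          rw [Ring.inverse_unit]
          have : ((u⁻¹ : (ZMod r)ˣ) : ZMod r) * (u : ZMod r) = 1 := u.inv_mul
          rw [← ZMod.inv_mul_eq_one_of_isUnit] <;> simp
        simp only [h4]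
        rw [DirichletCharacter.sum_char_inv_mul_char_eq ℂ hb a]
        split_ifs with h <;> simp
      simp only [h3]
      rw [Finset.sum_ite_eq, if_pos (mem_univ _)]
      ring
    · refine sum_eq_zero fun a _ => sum_eq_zero fun ψ _ => ?_
      rw [MulChar.map_nonunit _ hb]
      ring
  have key' : (∑ ψ : DirichletCharacter ℂ r, ‖∑ a, ψ a * T a‖ ^ 2 : ℝ) =
      r.totient * ∑ a ∈ univ.filter (fun a : ZMod r => IsUnit a), ‖T a‖ ^ 2 := by
    exact_mod_cast key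
  rw [key']
  refine mul_le_mul_of_nonneg_right ?_ (sum_nonneg fun _ _ => sq_nonneg _)
  exact_mod_cast Nat.totient_le r

open scoped Classical in
lemma prim_le (a : ℕ → ℂ) (N : ℕ) :
    ∑ ψ ∈ univ.filter (fun ψ : DirichletCharacter ℂ r => ψ.IsPrimitive),
      ‖∑ n ∈ range N, a n * ψ⁻¹ (n : ZMod r)‖ ^ 2 ≤
      ∑ b ∈ univ.filter (fun b : ZMod r => IsUnit b),
        ‖∑ n ∈ range N, a n * (ZMod.stdAddChar b) ^ n‖ ^ 2 := by
  have hr : (0 : ℝ) < r := by exact_mod_cast Nat.pos_of_ne_zero (NeZero.ne r)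
  set T : ZMod r → ℂ := fun b => ∑ n ∈ range N, a n * (ZMod.stdAddChar b) ^ n with hT
  have h1 : ∀ ψ ∈ univ.filter (fun ψ : DirichletCharacter ℂ r => ψ.IsPrimitive),
      r * ‖∑ n ∈ range N, a n * ψ⁻¹ (n : ZMod r)‖ ^ 2 = ‖∑ b, ψ b * T b‖ ^ 2 := by
    intro ψ hψ
    have hψ' := (mem_filter.1 hψ).2
    rw [← tau_sq hψ', ← mul_pow, ← norm_mul]
    congr 2
    rw [Finset.mul_sum]
    simp only [hT, Finset.mul_sum]
    rw [sum_comm]
    refine sum_congr rfl fun n _ => ?_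
    have h2 := gauss_eq hψ' (n : ZMod r)
    calc gaussSum ψ ZMod.stdAddChar * (a n * ψ⁻¹ (n : ZMod r)) =
        a n * (ψ⁻¹ (n : ZMod r) * gaussSum ψ ZMod.stdAddChar) := by ring
      _ = a n * ∑ b, ψ b * ZMod.stdAddChar ((n : ZMod r) * b) := by rw [h2]
      _ = _ := by
        rw [Finset.mul_sum]
        refine sum_congr rfl fun b _ => ?_
        have : (n : ZMod r) * b = n • b := by rw [nsmul_eq_mul]
        rw [this, AddChar.map_nsmul_eq_pow]
        ring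
  have h2 : r * ∑ ψ ∈ univ.filter (fun ψ : DirichletCharacter ℂ r => ψ.IsPrimitive),
      ‖∑ n ∈ range N, a n * ψ⁻¹ (n : ZMod r)‖ ^ 2 ≤
      r * ∑ b ∈ univ.filter (fun b : ZMod r => IsUnit b), ‖T b‖ ^ 2 := by
    rw [Finset.mul_sum, sum_congr rfl h1]
    refine le_trans ?_ (char_parseval T)
    exact sum_le_sum_of_subset_of_nonneg (filter_subset _ _) fun _ _ _ => sq_nonneg _
  exact le_of_mul_le_mul_left h2 hr

open scoped Classical in
lemma prim_le' (a : ℕ → ℂ) (N : ℕ) :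
    ∑ ψ ∈ univ.filter (fun ψ : DirichletCharacter ℂ r => ψ.IsPrimitive),
      ‖∑ n ∈ range N, a n * ψ (n : ZMod r)‖ ^ 2 ≤
      ∑ b ∈ (range r).filter (fun b => b.Coprime r),
        ‖∑ n ∈ range N, conj (a n) * (pt (r, b)) ^ n‖ ^ 2 := by
  have h1 := prim_le (r := r) (fun n => conj (a n)) N
  have h2 : ∀ ψ : DirichletCharacter ℂ r, ‖∑ n ∈ range N, a n * ψ (n : ZMod r)‖ =
      ‖∑ n ∈ range N, conj (a n) * ψ⁻¹ (n : ZMod r)‖ := by
    intro ψ
    rw [← Complex.norm_conj, map_sum]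
    congr 1
    refine sum_congr rfl fun n _ => ?_
    rw [map_mul, conj_char]
  simp only [h2]
  refine h1.trans (le_of_eq ?_)
  refine sum_bij' (fun b _ => b.val) (fun b _ => (b : ZMod r)) ?_ ?_ ?_ ?_ ?_
  · intro b hb
    have hb' := (mem_filter.1 hb).2
    refine mem_filter.2 ⟨mem_range.2 (ZMod.val_lt b), ?_⟩
    rw [← ZMod.isUnit_iff_coprime, ZMod.natCast_zmod_val]
    exact hb'
  · intro b hb
    have hb' := (mem_filter.1 hb).2
    refine mem_filter.2 ⟨mem_univ _, ?_⟩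
    rwa [ZMod.isUnit_iff_coprime]
  · intro b _
    simp
  · intro b hb
    exact ZMod.val_cast_of_lt (mem_range.1 (mem_filter.1 hb).1)
  · intro b _
    have : ZMod.stdAddChar b = pt (r, b.val) := by
      unfold pt
      rw [ZMod.stdAddChar_apply, ZMod.toCircle_apply]
    simp only [this]

end Gauss

/-! ### The multiplicative large sieve -/

open scoped Classical in
/-- the primitive characters modulo `r` -/
noncomputable def prim (r : ℕ) : Finset (DirichletCharacter ℂ r) :=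
  if h : r = 0 then ∅ else
    (haveI : NeZero r := ⟨h⟩; univ.filter (fun ψ => ψ.IsPrimitive))

open scoped Classical in
lemma prim_eq (r : ℕ) [h : NeZero r] :
    prim r = univ.filter (fun ψ : DirichletCharacter ℂ r => ψ.IsPrimitive) := by
  unfold prim
  rw [dif_neg h.out]

theorem mls : ∃ C : ℝ, 0 < C ∧ ∀ (F : Finset ℕ) (Q N : ℕ) (a : ℕ → ℂ),
    (∀ r ∈ F, 1 ≤ r ∧ r ≤ Q) → 1 ≤ Q → 1 ≤ N →
    ∑ r ∈ F, ∑ ψ ∈ prim r, ‖∑ n ∈ range N, a n * ψ (n : ZMod r)‖ ^ 2 ≤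
      C * (N + (Q : ℝ) ^ 2) * ∑ n ∈ range N, ‖a n‖ ^ 2 := by
  classical
  obtain ⟨C, hC, h⟩ := lsvD
  refine ⟨C, hC, ?_⟩
  intro F Q N a hF hQ hN
  have hQ' : (0 : ℝ) < Q := by exact_mod_cast hQ
  set S : Finset (ℕ × ℕ) := F.biUnion fun r => ((range r).filter (fun b => b.Coprime r)).image
    (fun b => (r, b)) with hS
  have hmem : ∀ x ∈ S, x.1 ∈ F ∧ x.2 < x.1 ∧ x.2.Coprime x.1 := by
    intro x hx
    rw [hS, mem_biUnion] at hx
    obtain ⟨r, hr, hx⟩ := hx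
    obtain ⟨b, hb, rfl⟩ := mem_image.1 hx
    obtain ⟨hb1, hb2⟩ := mem_filter.1 hb
    exact ⟨hr, mem_range.1 hb1, hb2⟩
  have h1 := h (ℕ × ℕ) S pt (fun n => conj (a n)) (4 / (Q : ℝ) ^ 2) N (by positivity) hN
    (fun x _ => norm_pt x) (fun x hx y hy hxy => by
      obtain ⟨a1, a2, a3⟩ := hmem x hx
      obtain ⟨b1, b2, b3⟩ := hmem y hy
      exact pt_spaced (hF _ a1).1 (hF _ a1).2 a2 a3 (hF _ b1).1 (hF _ b1).2 b2 b3 hxy)
  have h2 : ∑ x ∈ S, ‖∑ n ∈ range N, conj (a n) * pt x ^ n‖ ^ 2 =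
      ∑ r ∈ F, ∑ b ∈ (range r).filter (fun b => b.Coprime r),
        ‖∑ n ∈ range N, conj (a n) * pt (r, b) ^ n‖ ^ 2 := by
    rw [hS, sum_biUnion]
    · refine sum_congr rfl fun r _ => ?_
      rw [sum_image]
      intro x _ y _ hxy
      exact (Prod.mk.inj hxy).2
    · intro r _ r' _ hrr
      rw [Function.onFun, disjoint_left]
      intro x hx hx'
      obtain ⟨b, _, rfl⟩ := mem_image.1 hx
      obtain ⟨b', _, hb'⟩ := mem_image.1 hx'
      exact hrr (Prod.mk.inj hb').1.symm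
  have h3 : ∑ r ∈ F, ∑ ψ ∈ prim r, ‖∑ n ∈ range N, a n * ψ (n : ZMod r)‖ ^ 2 ≤
      ∑ r ∈ F, ∑ b ∈ (range r).filter (fun b => b.Coprime r),
        ‖∑ n ∈ range N, conj (a n) * pt (r, b) ^ n‖ ^ 2 := by
    refine sum_le_sum fun r hr => ?_
    have : NeZero r := ⟨by have := (hF r hr).1; omega⟩
    rw [prim_eq r]
    exact prim_le' a N
  refine h3.trans ?_
  rw [← h2]
  refine h1.trans ?_
  simp only [Complex.norm_conj]
  refine mul_le_mul_of_nonneg_right (mul_le_mul_of_nonneg_left ?_ hC.le)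
    (sum_nonneg fun _ _ => sq_nonneg _)
  have : 1 / (4 / (Q : ℝ) ^ 2) = (Q : ℝ) ^ 2 / 4 := by
    field_simp
  rw [this]
  have : (0 : ℝ) ≤ (Q : ℝ) ^ 2 := sq_nonneg _
  linarith

end Pool.Agent.Lib.MP_bdd9a3_nt.SP
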