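import Mathlib
import Pool.Agent.Lib.MP_bdd9a3_nt.SP.MLS

set_option autoImplicit false

/-!
Moments of sums of primitive characters over a set of primes.
-/

namespace Pool.Agent.Lib.MP_bdd9a3_nt.SP

open Finset

/-- the sum of a character over `P` -/
noncomputable def SS (P : Finset ℕ) {r : ℕ} (ψ : DirichletCharacter ℂ r) : ℂ :=
  ∑ p ∈ P, ψ (p : ZMod r)

/-- tuples -/
def tup (P : Finset ℕ) (k : ℕ) : Finset (Fin k → ℕ) := Fintype.piFinset fun _ => P

lemma card_tup (P : Finset ℕ) (k : ℕ) : (tup P k).card = P.card ^ k := by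
  simp [tup, Fintype.card_piFinset]

lemma SS_pow (P : Finset ℕ) {r : ℕ} (ψ : DirichletCharacter ℂ r) (k : ℕ) :
    SS P ψ ^ k = ∑ x ∈ tup P k, ψ ((∏ i, x i : ℕ) : ZMod r) := by
  unfold SS tup
  have h : (∑ p ∈ P, ψ (p : ZMod r)) ^ k = ∏ _i : Fin k, ∑ p ∈ P, ψ (p : ZMod r) := by
    rw [prod_const, card_univ, Fintype.card_fin]
  rw [h, Finset.prod_univ_sum]
  refine sum_congr rfl fun x _ => ?_
  rw [Nat.cast_prod, map_prod]

lemma card_rep (P : Finset ℕ) (hP : ∀ p ∈ P, p.Prime) (k n : ℕ) :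
    ((tup P k).filter (fun x => ∏ i, x i = n)).card ≤ k.factorial := by
  classical
  rcases ((tup P k).filter (fun x => ∏ i, x i = n)).eq_empty_or_nonempty with h0 | ⟨x, hx⟩
  · rw [h0]
    simp
  have key : ∀ y ∈ (tup P k).filter (fun x => ∏ i, x i = n),
      (List.ofFn y).Perm (Nat.primeFactorsList n) := by
    intro y hy
    obtain ⟨hy1, hy2⟩ := mem_filter.1 hy
    refine Nat.primeFactorsList_unique ?_ ?_
    · rw [List.prod_ofFn, hy2]
    · intro p hp
      rw [List.mem_ofFn] at hp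
      obtain ⟨i, rfl⟩ := hp
      exact hP _ (Fintype.mem_piFinset.1 hy1 i)
  have hlen : (Nat.primeFactorsList n).length = k := by
    rw [← (key x hx).length_eq, List.length_ofFn]
  calc ((tup P k).filter (fun x => ∏ i, x i = n)).card =
      (((tup P k).filter (fun x => ∏ i, x i = n)).image List.ofFn).card := by
        rw [card_image_of_injective _ List.ofFn_injective]
    _ ≤ (Nat.primeFactorsList n).permutations.toFinset.card := by
        refine card_le_card fun l hl => ?_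
        obtain ⟨y, hy, rfl⟩ := mem_image.1 hl
        rw [List.mem_toFinset, List.mem_permutations]
        exact key y hy
    _ ≤ (Nat.primeFactorsList n).permutations.length := List.toFinset_card_le _
    _ = k.factorial := by rw [List.length_permutations, hlen]

theorem mom : ∃ C : ℝ, 0 < C ∧ ∀ (P F : Finset ℕ) (Y Q k : ℕ), (∀ p ∈ P, p.Prime ∧ p ≤ Y) →
    (∀ r ∈ F, 1 ≤ r ∧ r ≤ Q) → 1 ≤ Q →
    ∑ r ∈ F, ∑ ψ ∈ prim r, ‖SS P ψ‖ ^ (2 * k) ≤
      C * ((Y : ℝ) ^ k + 1 + (Q : ℝ) ^ 2) * (k.factorial * (P.card : ℝ) ^ k) := by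
  classical
  obtain ⟨C, hC, h⟩ := mls
  refine ⟨C, hC, ?_⟩
  intro P F Y Q k hP hF hQ
  set a : ℕ → ℂ := fun n => (((tup P k).filter (fun x => ∏ i, x i = n)).card : ℂ) with ha
  have hlt : ∀ x ∈ tup P k, ∏ i, x i ∈ range (Y ^ k + 1) := by
    intro x hx
    rw [mem_range, Nat.lt_succ_iff]
    calc ∏ i, x i ≤ ∏ _i : Fin k, Y :=
          prod_le_prod' fun i _ => (hP _ (Fintype.mem_piFinset.1 hx i)).2
      _ = Y ^ k := by rw [prod_const, card_univ, Fintype.card_fin]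
  have h1 : ∀ (r : ℕ) (ψ : DirichletCharacter ℂ r),
      ∑ n ∈ range (Y ^ k + 1), a n * ψ (n : ZMod r) = SS P ψ ^ k := by
    intro r ψ
    rw [SS_pow, ← sum_fiberwise_of_maps_to hlt]
    refine sum_congr rfl fun n _ => ?_
    have : ∀ x ∈ (tup P k).filter (fun x => ∏ i, x i = n), ψ ((∏ i, x i : ℕ) : ZMod r) =
        ψ (n : ZMod r) := by
      intro x hx
      rw [(mem_filter.1 hx).2]
    rw [sum_congr rfl this, sum_const, nsmul_eq_mul]
  have h2 := h F Q (Y ^ k + 1) a hF hQ (Nat.succ_le_succ (Nat.zero_le _))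
  simp only [h1, norm_pow, ← pow_mul] at h2
  have h3 : ∑ n ∈ range (Y ^ k + 1), ‖a n‖ ^ 2 ≤ k.factorial * (P.card : ℝ) ^ k := by
    have h4 : ∀ n, ‖a n‖ ^ 2 ≤
        k.factorial * (((tup P k).filter (fun x => ∏ i, x i = n)).card : ℝ) := by
      intro n
      rw [ha]
      simp only
      rw [Complex.norm_natCast, sq]
      refine mul_le_mul_of_nonneg_right ?_ (Nat.cast_nonneg _)
      exact_mod_cast card_rep P (fun p hp => (hP p hp).1) k n
    refine (sum_le_sum fun n _ => h4 n).trans (le_of_eq ?_)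
    rw [← Finset.mul_sum]
    congr 1
    have h5 := card_eq_sum_card_fiberwise (s := tup P k) (t := range (Y ^ k + 1))
      (f := fun x => ∏ i, x i) hlt
    rw [card_tup] at h5
    rw [← Nat.cast_sum]
    exact_mod_cast h5.symm
  have h6 : ∀ m, k * 2 = 2 * k → m ^ (k * 2) = m ^ (2 * k) := fun (m : ℝ) h => by rw [h]
  have h7 : ∑ r ∈ F, ∑ ψ ∈ prim r, ‖SS P ψ‖ ^ (2 * k) =
      ∑ r ∈ F, ∑ ψ ∈ prim r, ‖SS P ψ‖ ^ (k * 2) := by
    simp only [mul_comm k 2]
  rw [h7]
  refine h2.trans ?_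
  have h8 : ((Y ^ k + 1 : ℕ) : ℝ) = (Y : ℝ) ^ k + 1 := by push_cast; ring
  rw [h8]
  refine mul_le_mul_of_nonneg_left h3 ?_
  positivity

end Pool.Agent.Lib.MP_bdd9a3_nt.SP
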