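import Mathlib
import Pool.Agent.Lib.MP_bdd9a3_nt.SP.Mom

set_option autoImplicit false

/-!
Averaging over a family of smooth moduli.
-/

namespace Pool.Agent.Lib.MP_bdd9a3_nt.SP

open Finset

/-! ### One modulus -/

open scoped Classical in
theorem exists_tuple {d : ℕ} [NeZero d] (P : Finset ℕ) (u : ℕ) (hcop : ∀ p ∈ P, p.Coprime d)
    (h : ∑ χ ∈ univ.erase (1 : DirichletCharacter ℂ d), ‖SS P χ‖ ^ u < (P.card : ℝ) ^ u) :
    ∃ x ∈ tup P u, d ∣ (∏ i, x i) + 1 := by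
  by_contra hno
  push Not at hno
  have h1 : ∀ x ∈ tup P u, ∑ χ : DirichletCharacter ℂ d,
      χ ((-1 : ZMod d)⁻¹) * χ ((∏ i, x i : ℕ) : ZMod d) = 0 := by
    intro x hx
    rw [DirichletCharacter.sum_char_inv_mul_char_eq ℂ (a := (-1 : ZMod d)) isUnit_one.neg
      ((∏ i, x i : ℕ) : ZMod d), if_neg]
    intro he
    apply hno x hx
    rw [← ZMod.natCast_eq_zero_iff, Nat.cast_add, Nat.cast_one, ← he]
    ring
  have h2 : ∑ χ : DirichletCharacter ℂ d, χ ((-1 : ZMod d)⁻¹) * SS P χ ^ u = 0 := by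
    simp only [SS_pow, Finset.mul_sum]
    rw [sum_comm]
    exact sum_eq_zero h1
  rw [← add_sum_erase _ _ (mem_univ (1 : DirichletCharacter ℂ d))] at h2
  have h3 : SS P (1 : DirichletCharacter ℂ d) = P.card := by
    unfold SS
    rw [card_eq_sum_ones]
    push_cast
    refine sum_congr rfl fun p hp => ?_
    exact MulChar.one_apply ((ZMod.isUnit_iff_coprime p d).2 (hcop p hp))
  have hu : IsUnit ((-1 : ZMod d)⁻¹) := by
    have : ((-1 : ZMod d)⁻¹) * (-1) = 1 := ZMod.inv_mul_of_unit _ isUnit_one.neg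
    exact IsUnit.of_mul_eq_one _ this
  rw [h3, MulChar.one_apply hu, one_mul] at h2
  have h4 : (P.card : ℂ) ^ u =
      -∑ χ ∈ univ.erase (1 : DirichletCharacter ℂ d), χ ((-1 : ZMod d)⁻¹) * SS P χ ^ u :=
    eq_neg_of_add_eq_zero_left h2
  have h5 : (P.card : ℝ) ^ u ≤
      ∑ χ ∈ univ.erase (1 : DirichletCharacter ℂ d), ‖SS P χ‖ ^ u := by
    calc (P.card : ℝ) ^ u = ‖(P.card : ℂ) ^ u‖ := by rw [norm_pow, Complex.norm_natCast]
      _ ≤ ∑ χ ∈ univ.erase (1 : DirichletCharacter ℂ d), ‖χ ((-1 : ZMod d)⁻¹) * SS P χ ^ u‖ := by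
        rw [h4, norm_neg]
        exact norm_sum_le _ _
      _ ≤ _ := by
        refine sum_le_sum fun χ _ => ?_
        rw [norm_mul, norm_pow]
        refine mul_le_of_le_one_left (pow_nonneg (norm_nonneg _) _) ?_
        exact DirichletCharacter.norm_le_one χ _
  exact absurd h5 (not_le.2 h)

/-! ### Splitting by conductors -/

lemma prod_pos_of {J : Finset ℕ} (hJ : ∀ q ∈ J, q.Prime) : 0 < ∏ q ∈ J, q :=
  prod_pos fun q hq => (hJ q hq).pos

lemma prod_injOn {J : Finset ℕ} (hJ : ∀ q ∈ J, q.Prime) :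
    Set.InjOn (fun I : Finset ℕ => ∏ q ∈ I, q) {I | I ⊆ J} := by
  intro I hI I' hI' h
  have h1 := Nat.primeFactors_prod (fun q hq => hJ q (hI hq))
  have h2 := Nat.primeFactors_prod (fun q hq => hJ q (hI' hq))
  have h' : ∏ q ∈ I, q = ∏ q ∈ I', q := h
  rw [← h1, ← h2, h']

lemma sqf_prod {J : Finset ℕ} (hJ : ∀ q ∈ J, q.Prime) : Squarefree (∏ q ∈ J, q) := by
  classical
  induction J using Finset.induction_on with
  | empty => simp
  | insert q J hq ih =>
    rw [prod_insert hq]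
    have h1 : ∀ q ∈ J, q.Prime := fun q' h => hJ q' (mem_insert_of_mem h)
    rw [Nat.squarefree_mul]
    · exact ⟨(hJ q (mem_insert_self _ _)).squarefree, ih h1⟩
    · refine Nat.Coprime.prod_right fun q' hq' => ?_
      rw [Nat.coprime_primes (hJ q (mem_insert_self _ _)) (h1 q' hq')]
      rintro rfl
      exact hq hq'

open scoped Classical in
theorem sum_chars_le (P J : Finset ℕ) (u : ℕ) (hJ : ∀ q ∈ J, q.Prime)
    (hP : ∀ p ∈ P, p.Coprime (∏ q ∈ J, q)) [NeZero (∏ q ∈ J, q)] :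
    ∑ χ ∈ univ.erase (1 : DirichletCharacter ℂ (∏ q ∈ J, q)), ‖SS P χ‖ ^ u ≤
      ∑ I ∈ J.powerset.erase ∅, ∑ ψ ∈ prim (∏ q ∈ I, q), ‖SS P ψ‖ ^ u := by
  set d : ℕ := ∏ q ∈ J, q with hd
  have hd0 : d ≠ 0 := NeZero.ne d
  set g : (Σ c : ℕ, DirichletCharacter ℂ c) → ℝ := fun y => ‖SS P y.2‖ ^ u with hg
  set e : DirichletCharacter ℂ d → (Σ c : ℕ, DirichletCharacter ℂ c) :=
    fun χ => ⟨χ.conductor, χ.primitiveCharacter⟩ with he
  have hinj : Function.Injective e := by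
    set l : (Σ c : ℕ, DirichletCharacter ℂ c) → DirichletCharacter ℂ d :=
      fun y => if h : y.1 ∣ d then DirichletCharacter.changeLevel h y.2 else 1 with hl
    have : Function.LeftInverse l e := by
      intro χ
      simp only [hl, he]
      rw [dif_pos χ.conductor_dvd_level]
      exact χ.changeLevel_primitiveCharacter
    exact this.injective
  have hSS : ∀ χ : DirichletCharacter ℂ d, SS P χ = SS P χ.primitiveCharacter := by
    intro χ
    unfold SS
    refine sum_congr rfl fun p hp => ?_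
    have h1 := χ.primitiveCharacter_apply_of_isCoprime (a := (p : ℤ))
      (Nat.isCoprime_iff_coprime.2 (hP p hp))
    simp only [Int.cast_natCast] at h1
    exact h1.symm
  have hstep1 : ∑ χ ∈ univ.erase (1 : DirichletCharacter ℂ d), ‖SS P χ‖ ^ u ≤
      ∑ c ∈ d.divisors.erase 1, ∑ ψ ∈ prim c, ‖SS P ψ‖ ^ u := by
    rw [← Finset.sum_sigma (d.divisors.erase 1) (fun c => prim c) (fun y => g y)]
    calc ∑ χ ∈ univ.erase (1 : DirichletCharacter ℂ d), ‖SS P χ‖ ^ u =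
        ∑ χ ∈ univ.erase (1 : DirichletCharacter ℂ d), g (e χ) := by
          refine sum_congr rfl fun χ _ => ?_
          rw [hg, he]
          simp only
          rw [hSS χ]
      _ = ∑ y ∈ (univ.erase (1 : DirichletCharacter ℂ d)).image e, g y := by
          rw [sum_image fun x _ y _ h => hinj h]
      _ ≤ _ := by
          refine sum_le_sum_of_subset_of_nonneg ?_ fun _ _ _ => by positivity
          intro y hy
          obtain ⟨χ, hχ, rfl⟩ := mem_image.1 hy
          have hχ1 : χ ≠ 1 := (mem_erase.1 hχ).1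
          rw [mem_sigma]
          refine ⟨?_, ?_⟩
          · rw [mem_erase, Nat.mem_divisors]
            refine ⟨?_, χ.conductor_dvd_level, hd0⟩
            intro h
            exact hχ1 (χ.eq_one_iff_conductor_eq_one.2 h)
          · have : NeZero χ.conductor := ⟨χ.conductor_ne_zero⟩
            change χ.primitiveCharacter ∈ prim χ.conductor
            rw [prim_eq, mem_filter]
            exact ⟨mem_univ _, χ.primitiveCharacter_isPrimitive⟩
  refine hstep1.trans ?_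
  set G : ℕ → ℝ := fun c => ∑ ψ ∈ prim c, ‖SS P ψ‖ ^ u with hG
  have hG0 : ∀ c, 0 ≤ G c := fun c => sum_nonneg fun _ _ => by positivity
  change ∑ c ∈ d.divisors.erase 1, G c ≤ ∑ I ∈ J.powerset.erase ∅, G (∏ q ∈ I, q)
  rw [← sum_image (f := G) (g := fun I : Finset ℕ => ∏ q ∈ I, q)
    (s := J.powerset.erase ∅) (fun I hI I' hI' h => prod_injOn hJ
      (mem_powerset.1 (mem_erase.1 hI).2) (mem_powerset.1 (mem_erase.1 hI').2) h)]
  refine sum_le_sum_of_subset_of_nonneg ?_ fun _ _ _ => hG0 _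
  intro c hc
  obtain ⟨hc1, hc2⟩ := mem_erase.1 hc
  obtain ⟨hc3, _⟩ := Nat.mem_divisors.1 hc2
  have hsq : Squarefree c := (sqf_prod hJ).squarefree_of_dvd hc3
  rw [mem_image]
  refine ⟨c.primeFactors, ?_, Nat.prod_primeFactors_of_squarefree hsq⟩
  rw [mem_erase, mem_powerset]
  refine ⟨?_, ?_⟩
  · intro h
    rw [Nat.primeFactors_eq_empty] at h
    rcases h with h | h
    · exact hsq.ne_zero h
    · exact hc1 h
  · intro p hp
    have h1 := Nat.primeFactors_mono hc3 hd0 hp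
    rwa [hd, Nat.primeFactors_prod hJ] at h1

/-! ### Counting -/

lemma choose_step (M j i : ℕ) (hj : j ≤ M) (hi : i ≤ j) :
    (M - i).choose (j - i) * M ^ i ≤ M.choose j * j ^ i := by
  induction i with
  | zero => simp
  | succ i ih =>
    have ih := ih (by omega)
    have e1 : M - i = (M - (i + 1)) + 1 := by omega
    have e2 : j - i = (j - (i + 1)) + 1 := by omega
    have h1 := Nat.add_one_mul_choose_eq (M - (i + 1)) (j - (i + 1))
    rw [← e1, ← e2] at h1
    have h2 : (j - i) * M ≤ j * (M - i) := by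
      have h3 : i * j ≤ i * M := Nat.mul_le_mul_left _ hj
      rw [Nat.sub_mul, Nat.mul_sub]
      have h4 : j * i = i * j := Nat.mul_comm _ _
      omega
    have hpos : 0 < M - i := by omega
    refine Nat.le_of_mul_le_mul_left (c := M - i) ?_ hpos
    calc (M - i) * ((M - (i + 1)).choose (j - (i + 1)) * M ^ (i + 1)) =
        ((M - i) * (M - (i + 1)).choose (j - (i + 1))) * M ^ i * M := by ring
      _ = ((M - i).choose (j - i) * M ^ i) * ((j - i) * M) := by rw [h1]; ring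
      _ ≤ (M.choose j * j ^ i) * (j * (M - i)) := Nat.mul_le_mul ih h2
      _ = (M - i) * (M.choose j * j ^ (i + 1)) := by ring

lemma card_sup (P' I : Finset ℕ) (j i : ℕ) (hI : I ∈ powersetCard i P') :
    ((powersetCard j P').filter (fun J => I ⊆ J)).card ≤ (P'.card - i).choose (j - i) := by
  obtain ⟨hI1, hI2⟩ := mem_powersetCard.1 hI
  have h1 : (powersetCard (j - i) (P' \ I)).card = (P'.card - i).choose (j - i) := by
    rw [card_powersetCard, card_sdiff_of_subset hI1, hI2]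
  rw [← h1]
  refine card_le_card_of_injOn (fun J => J \ I) ?_ ?_
  · intro J hJ
    obtain ⟨hJ1, hJ2⟩ := mem_filter.1 hJ
    obtain ⟨hJ3, hJ4⟩ := mem_powersetCard.1 hJ1
    rw [mem_coe, mem_powersetCard]
    refine ⟨sdiff_subset_sdiff hJ3 (Subset.refl _), ?_⟩
    rw [card_sdiff_of_subset hJ2, hJ4, hI2]
  · intro J hJ J' hJ' h
    have hJ2 := (mem_filter.1 hJ).2
    have hJ2' := (mem_filter.1 hJ').2
    have h' : J \ I = J' \ I := h
    rw [← sdiff_union_of_subset hJ2, ← sdiff_union_of_subset hJ2', h']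

lemma powerset_split (J : Finset ℕ) (j : ℕ) (hJ : J.card = j) (Γ : Finset ℕ → ℝ) :
    ∑ I ∈ J.powerset.erase ∅, Γ I = ∑ i ∈ Icc 1 j, ∑ I ∈ powersetCard i J, Γ I := by
  rw [← sum_fiberwise_of_maps_to (s := J.powerset.erase ∅) (t := Icc 1 j) (g := fun I => I.card)]
  · refine sum_congr rfl fun i hi => ?_
    refine sum_congr ?_ fun _ _ => rfl
    ext I
    have hi1 := (mem_Icc.1 hi).1
    simp only [mem_filter, mem_erase, mem_powerset, mem_powersetCard]
    constructor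
    · rintro ⟨⟨_, h2⟩, h3⟩
      exact ⟨h2, h3⟩
    · rintro ⟨h2, h3⟩
      refine ⟨⟨?_, h2⟩, h3⟩
      rintro rfl
      rw [card_empty] at h3
      omega
  · intro I hI
    obtain ⟨h1, h2⟩ := mem_erase.1 hI
    rw [mem_powerset] at h2
    rw [mem_Icc]
    refine ⟨card_pos.2 (nonempty_iff_ne_empty.2 h1), ?_⟩
    rw [← hJ]
    exact card_le_card h2

lemma pow_split {t τ : ℝ} (h0 : 0 ≤ t) (h1 : t ≤ 1) (hτ : 0 < τ) (m u : ℕ) :
    t ^ u ≤ (1 / τ) ^ (m - u) * t ^ m + τ ^ u := by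
  rcases le_total t τ with h | h
  · have h2 : t ^ u ≤ τ ^ u := pow_le_pow_left₀ h0 h u
    have h3 : 0 ≤ (1 / τ) ^ (m - u) * t ^ m := by positivity
    linarith
  · have h3 : t ^ u ≤ (1 / τ) ^ (m - u) * t ^ m := by
      rcases le_total m u with hm | hm
      · rw [Nat.sub_eq_zero_of_le hm, pow_zero, one_mul]
        exact pow_le_pow_of_le_one h0 h1 hm
      · have h4 : t ^ m = t ^ u * t ^ (m - u) := by
          rw [← pow_add]
          congr 1
          omega
        rw [h4]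
        have h5 : 1 ≤ (1 / τ) ^ (m - u) * t ^ (m - u) := by
          rw [← mul_pow]
          refine one_le_pow₀ ?_
          rw [one_div, inv_mul_eq_div, le_div_iff₀ hτ, one_mul]
          exact h
        calc t ^ u = t ^ u * 1 := by ring
          _ ≤ t ^ u * ((1 / τ) ^ (m - u) * t ^ (m - u)) :=
            mul_le_mul_of_nonneg_left h5 (pow_nonneg h0 _)
          _ = _ := by ring
    have h6 : 0 ≤ τ ^ u := by positivity
    linarith

lemma card_prim_le (r : ℕ) : ((prim r).card : ℝ) ≤ r := by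
  classical
  rcases Nat.eq_zero_or_pos r with h | h
  · subst h
    unfold prim
    simp
  · have : NeZero r := ⟨h.ne'⟩
    rw [prim_eq]
    have h1 : (univ.filter (fun ψ : DirichletCharacter ℂ r => ψ.IsPrimitive)).card ≤
        Fintype.card (DirichletCharacter ℂ r) := card_le_univ _
    have h2 : Fintype.card (DirichletCharacter ℂ r) = r.totient := by
      rw [← Nat.card_eq_fintype_card]
      exact DirichletCharacter.card_eq_totient_of_hasEnoughRootsOfUnity ℂ r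
    rw [h2] at h1
    exact_mod_cast h1.trans (Nat.totient_le r)

lemma prod_le_pow {I : Finset ℕ} {Y i : ℕ} (h : ∀ q ∈ I, q ≤ Y) (hi : I.card = i) :
    ∏ q ∈ I, q ≤ Y ^ i := by
  rw [← hi]
  exact prod_le_pow_card _ _ _ h

/-- The bound for the conductors with `i` prime factors. -/
theorem cond_bound : ∃ C : ℝ, 0 < C ∧ ∀ (P P' : Finset ℕ) (Y u i : ℕ) (τ : ℝ),
    (∀ p ∈ P, p.Prime ∧ p ≤ Y) → (∀ q ∈ P', q.Prime ∧ q ≤ Y) → P.Nonempty → 1 ≤ Y →
    0 < τ →
    ∑ I ∈ powersetCard i P', ∑ ψ ∈ prim (∏ q ∈ I, q), (‖SS P ψ‖ / P.card) ^ u ≤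
      (1 / τ) ^ (4 * i - u) * (C * (Y : ℝ) ^ (2 * i) * (2 * i).factorial / (P.card : ℝ) ^ (2 * i)) +
        P'.card.choose i * ((Y : ℝ) ^ i * τ ^ u) := by
  classical
  obtain ⟨C, hC, hm⟩ := mom
  refine ⟨3 * C, by positivity, ?_⟩
  intro P P' Y u i τ hP hP' hne hY hτ
  have hcard : (0 : ℝ) < P.card := by exact_mod_cast hne.card_pos
  have hY' : (1 : ℝ) ≤ Y := by exact_mod_cast hY
  have hSSle : ∀ (r : ℕ) (ψ : DirichletCharacter ℂ r), ‖SS P ψ‖ / P.card ≤ 1 := by
    intro r ψ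
    rw [div_le_one hcard]
    unfold SS
    refine (norm_sum_le _ _).trans ?_
    refine (sum_le_sum fun p _ => DirichletCharacter.norm_le_one ψ _).trans ?_
    simp
  have hpr : ∀ q ∈ P', q.Prime := fun q hq => (hP' q hq).1
  have h1 : ∀ I ∈ powersetCard i P', ∑ ψ ∈ prim (∏ q ∈ I, q), (‖SS P ψ‖ / P.card) ^ u ≤
      (1 / τ) ^ (4 * i - u) * (∑ ψ ∈ prim (∏ q ∈ I, q), (‖SS P ψ‖ / P.card) ^ (4 * i)) +
        (Y : ℝ) ^ i * τ ^ u := by
    intro I hI
    obtain ⟨hI1, hI2⟩ := mem_powersetCard.1 hI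
    calc ∑ ψ ∈ prim (∏ q ∈ I, q), (‖SS P ψ‖ / P.card) ^ u ≤
        ∑ ψ ∈ prim (∏ q ∈ I, q), ((1 / τ) ^ (4 * i - u) * (‖SS P ψ‖ / P.card) ^ (4 * i) + τ ^ u) :=
          sum_le_sum fun ψ _ => pow_split (by positivity) (hSSle _ ψ) hτ _ _
      _ = (1 / τ) ^ (4 * i - u) * (∑ ψ ∈ prim (∏ q ∈ I, q), (‖SS P ψ‖ / P.card) ^ (4 * i)) +
          (prim (∏ q ∈ I, q)).card * τ ^ u := by
          rw [sum_add_distrib, ← Finset.mul_sum, sum_const, nsmul_eq_mul]
      _ ≤ _ := by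
          have h2 : ((prim (∏ q ∈ I, q)).card : ℝ) ≤ (Y : ℝ) ^ i := by
            refine (card_prim_le _).trans ?_
            exact_mod_cast prod_le_pow (fun q hq => (hP' q (hI1 hq)).2) hI2
          have h3 : 0 ≤ τ ^ u := by positivity
          have := mul_le_mul_of_nonneg_right h2 h3
          linarith
  refine (sum_le_sum h1).trans ?_
  rw [sum_add_distrib, ← Finset.mul_sum, sum_const, card_powersetCard, nsmul_eq_mul]
  refine add_le_add_left ?_ _ |>.trans (le_of_eq rfl)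
  refine mul_le_mul_of_nonneg_left ?_ (by positivity)
  -- the moment
  have h4 := hm P ((powersetCard i P').image fun I => ∏ q ∈ I, q) Y (Y ^ i) (2 * i) hP (by
    intro r hr
    obtain ⟨I, hI, rfl⟩ := mem_image.1 hr
    obtain ⟨hI1, hI2⟩ := mem_powersetCard.1 hI
    exact ⟨prod_pos_of fun q hq => hpr q (hI1 hq),
      prod_le_pow (fun q hq => (hP' q (hI1 hq)).2) hI2⟩) (Nat.one_le_pow _ _ hY)
  rw [sum_image (fun I hI I' hI' h => prod_injOn hpr (mem_powersetCard.1 hI).1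
    (mem_powersetCard.1 hI').1 h)] at h4
  have e1 : 2 * (2 * i) = 4 * i := by ring
  rw [e1] at h4
  have h5 : ∑ I ∈ powersetCard i P', ∑ ψ ∈ prim (∏ q ∈ I, q), (‖SS P ψ‖ / P.card) ^ (4 * i) =
      (∑ I ∈ powersetCard i P', ∑ ψ ∈ prim (∏ q ∈ I, q), ‖SS P ψ‖ ^ (4 * i)) /
        (P.card : ℝ) ^ (4 * i) := by
    simp only [div_pow, Finset.sum_div]
  rw [h5, div_le_iff₀ (by positivity)]
  refine h4.trans ?_
  have h6 : (Y : ℝ) ^ (2 * i) + 1 + ((Y ^ i : ℕ) : ℝ) ^ 2 ≤ 3 * (Y : ℝ) ^ (2 * i) := by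
    push_cast
    rw [← pow_mul, mul_comm i 2]
    have : 1 ≤ (Y : ℝ) ^ (2 * i) := one_le_pow₀ hY'
    linarith
  calc C * ((Y : ℝ) ^ (2 * i) + 1 + ((Y ^ i : ℕ) : ℝ) ^ 2) *
        ((2 * i).factorial * (P.card : ℝ) ^ (2 * i)) ≤
      C * (3 * (Y : ℝ) ^ (2 * i)) * ((2 * i).factorial * (P.card : ℝ) ^ (2 * i)) := by
        gcongr
    _ = 3 * C * (Y : ℝ) ^ (2 * i) * (2 * i).factorial / (P.card : ℝ) ^ (2 * i) *
        (P.card : ℝ) ^ (4 * i) := by
        have : (P.card : ℝ) ^ (4 * i) = (P.card : ℝ) ^ (2 * i) * (P.card : ℝ) ^ (2 * i) := by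
          rw [← pow_add]
          congr 1
          ring
        rw [this]
        field_simp

/-- The existence theorem. -/
theorem fam : ∃ C : ℝ, 0 < C ∧ ∀ (P P' : Finset ℕ) (Y u j : ℕ) (τ : ℝ),
    (∀ p ∈ P, p.Prime ∧ p ≤ Y) → (∀ q ∈ P', q.Prime ∧ q ≤ Y) → Disjoint P P' → P.Nonempty →
    1 ≤ Y → j ≤ P'.card → 0 < τ →
    ∑ i ∈ Icc 1 j, (C * (4 * (j : ℝ) ^ 3 * Y ^ 2 / (P'.card * (P.card : ℝ) ^ 2)) ^ i *
      (1 / τ) ^ (4 * i - u) + 2 ^ j * Y ^ i * τ ^ u) < 1 →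
    ∃ J ⊆ P', J.card = j ∧ ∃ x ∈ tup P u, (∏ q ∈ J, q) ∣ (∏ i, x i) + 1 := by
  classical
  obtain ⟨C, hC, hcb⟩ := cond_bound
  refine ⟨C, hC, ?_⟩
  intro P P' Y u j τ hP hP' hdis hne hY hj hτ hsmall
  by_contra hno
  push Not at hno
  set M : ℕ := P'.card with hM
  have hcard : (0 : ℝ) < P.card := by exact_mod_cast hne.card_pos
  have hY' : (1 : ℝ) ≤ Y := by exact_mod_cast hY
  have hpr : ∀ q ∈ P', q.Prime := fun q hq => (hP' q hq).1
  set Γ : Finset ℕ → ℝ := fun I => ∑ ψ ∈ prim (∏ q ∈ I, q), (‖SS P ψ‖ / P.card) ^ u with hΓ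
  have hΓ0 : ∀ I, 0 ≤ Γ I := fun I => sum_nonneg fun _ _ => by positivity
  -- each J contributes at least 1
  have h1 : ∀ J ∈ powersetCard j P', 1 ≤ ∑ i ∈ Icc 1 j, ∑ I ∈ powersetCard i J, Γ I := by
    intro J hJ
    obtain ⟨hJ1, hJ2⟩ := mem_powersetCard.1 hJ
    have hprJ : ∀ q ∈ J, q.Prime := fun q hq => hpr q (hJ1 hq)
    have : NeZero (∏ q ∈ J, q) := ⟨(prod_pos_of hprJ).ne'⟩
    have hcop : ∀ p ∈ P, p.Coprime (∏ q ∈ J, q) := by
      intro p hp
      refine Nat.Coprime.prod_right fun q hq => ?_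
      rw [Nat.coprime_primes (hP p hp).1 (hprJ q hq)]
      rintro rfl
      exact disjoint_left.1 hdis hp (hJ1 hq)
    rw [← powerset_split J j hJ2]
    by_contra hlt
    push Not at hlt
    have h2 := sum_chars_le P J u hprJ hcop
    have h3 : ∑ I ∈ J.powerset.erase ∅, ∑ ψ ∈ prim (∏ q ∈ I, q), ‖SS P ψ‖ ^ u =
        (∑ I ∈ J.powerset.erase ∅, Γ I) * (P.card : ℝ) ^ u := by
      rw [Finset.sum_mul]
      refine sum_congr rfl fun I _ => ?_
      rw [hΓ]
      simp only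
      rw [Finset.sum_mul]
      refine sum_congr rfl fun ψ _ => ?_
      rw [div_pow]
      field_simp
    have h4 : ∑ χ ∈ univ.erase (1 : DirichletCharacter ℂ (∏ q ∈ J, q)), ‖SS P χ‖ ^ u <
        (P.card : ℝ) ^ u := by
      refine h2.trans_lt ?_
      rw [h3]
      exact mul_lt_of_lt_one_left (by positivity) hlt
    obtain ⟨x, hx, hdvd⟩ := exists_tuple P u hcop h4
    exact hno J hJ1 hJ2 x hx hdvd
  -- sum over J
  have h2 : (M.choose j : ℝ) ≤ ∑ i ∈ Icc 1 j, ((M - i).choose (j - i) : ℝ) *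
      ∑ I ∈ powersetCard i P', Γ I := by
    calc (M.choose j : ℝ) = ∑ J ∈ powersetCard j P', (1 : ℝ) := by
          rw [sum_const, card_powersetCard, nsmul_eq_mul, mul_one]
      _ ≤ ∑ J ∈ powersetCard j P', ∑ i ∈ Icc 1 j, ∑ I ∈ powersetCard i J, Γ I := sum_le_sum h1
      _ = ∑ i ∈ Icc 1 j, ∑ J ∈ powersetCard j P', ∑ I ∈ powersetCard i J, Γ I := sum_comm
      _ ≤ _ := by
          refine sum_le_sum fun i _ => ?_
          have h3 : ∑ J ∈ powersetCard j P', ∑ I ∈ powersetCard i J, Γ I =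
              ∑ I ∈ powersetCard i P', ∑ _J ∈ (powersetCard j P').filter (fun J => I ⊆ J), Γ I := by
            refine sum_comm' ?_
            intro J I
            simp only [mem_powersetCard, mem_filter]
            constructor
            · rintro ⟨⟨h4, h5⟩, h6, h7⟩
              exact ⟨⟨⟨h4, h5⟩, h6⟩, h6.trans h4, h7⟩
            · rintro ⟨⟨⟨h4, h5⟩, h6⟩, _, h7⟩
              exact ⟨⟨h4, h5⟩, h6, h7⟩
          rw [h3, Finset.mul_sum]
          refine sum_le_sum fun I hI => ?_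
          rw [sum_const, nsmul_eq_mul]
          refine mul_le_mul_of_nonneg_right ?_ (hΓ0 I)
          exact_mod_cast card_sup P' I j i hI
  have hcj : (0 : ℝ) < M.choose j := by exact_mod_cast Nat.choose_pos hj
  have h3 : ∀ i ∈ Icc 1 j, ((M - i).choose (j - i) : ℝ) * ∑ I ∈ powersetCard i P', Γ I ≤
      M.choose j * (C * (4 * (j : ℝ) ^ 3 * Y ^ 2 / (M * (P.card : ℝ) ^ 2)) ^ i *
      (1 / τ) ^ (4 * i - u) + 2 ^ j * Y ^ i * τ ^ u) := by
    intro i hi
    obtain ⟨hi1, hi2⟩ := mem_Icc.1 hi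
    have hM0 : (0 : ℝ) < M := by exact_mod_cast (by omega : 0 < M)
    have hj0 : (0 : ℝ) < j := by exact_mod_cast (by omega : 0 < j)
    have h4 := hcb P P' Y u i τ hP hP' hne hY hτ
    have h5 : ((M - i).choose (j - i) : ℝ) ≤ M.choose j * ((j : ℝ) / M) ^ i := by
      have := choose_step M j i hj hi2
      have h6 : ((M - i).choose (j - i) : ℝ) * (M : ℝ) ^ i ≤ M.choose j * (j : ℝ) ^ i := by
        exact_mod_cast this
      rw [div_pow, ← mul_div_assoc, le_div_iff₀ (by positivity)]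
      exact h6
    have h6 : ((M - i).choose (j - i) : ℝ) * M.choose i ≤ M.choose j * 2 ^ j := by
      have h7 : M.choose j * j.choose i = M.choose i * (M - i).choose (j - i) :=
        Nat.choose_mul hi2
      have h8 : j.choose i ≤ 2 ^ j := Nat.choose_le_two_pow _ _
      have h9 : (M - i).choose (j - i) * M.choose i ≤ M.choose j * 2 ^ j := by
        rw [mul_comm, ← h7]
        exact Nat.mul_le_mul_left _ h8
      exact_mod_cast h9
    have h7 : ((2 * i).factorial : ℝ) ≤ (4 * (j : ℝ) ^ 2) ^ i := by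
      have h8 : (2 * i).factorial ≤ (2 * i) ^ (2 * i) := Nat.factorial_le_pow _
      have h9 : (2 * i) ^ (2 * i) ≤ (2 * j) ^ (2 * i) := Nat.pow_le_pow_left (by omega) _
      have h10 : (2 * j) ^ (2 * i) = (4 * j ^ 2) ^ i := by
        rw [pow_mul]
        congr 1
        ring
      have := h8.trans (h9.trans h10.le)
      exact_mod_cast this
    calc ((M - i).choose (j - i) : ℝ) * ∑ I ∈ powersetCard i P', Γ I ≤
        ((M - i).choose (j - i) : ℝ) * ((1 / τ) ^ (4 * i - u) * (C * (Y : ℝ) ^ (2 * i) *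
          (2 * i).factorial / (P.card : ℝ) ^ (2 * i)) + M.choose i * ((Y : ℝ) ^ i * τ ^ u)) :=
          mul_le_mul_of_nonneg_left h4 (Nat.cast_nonneg _)
      _ = ((M - i).choose (j - i) : ℝ) * ((1 / τ) ^ (4 * i - u) * (C * (Y : ℝ) ^ (2 * i) *
          (2 * i).factorial / (P.card : ℝ) ^ (2 * i))) +
          (((M - i).choose (j - i) : ℝ) * M.choose i) * ((Y : ℝ) ^ i * τ ^ u) := by ring
      _ ≤ (M.choose j * ((j : ℝ) / M) ^ i) * ((1 / τ) ^ (4 * i - u) * (C * (Y : ℝ) ^ (2 * i) *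
          (4 * (j : ℝ) ^ 2) ^ i / (P.card : ℝ) ^ (2 * i))) +
          (M.choose j * 2 ^ j) * ((Y : ℝ) ^ i * τ ^ u) := by gcongr
      _ = _ := by
          have e1 : (4 * (j : ℝ) ^ 3 * Y ^ 2 / (M * (P.card : ℝ) ^ 2)) ^ i =
              ((j : ℝ) / M) ^ i * ((Y : ℝ) ^ (2 * i) * (4 * (j : ℝ) ^ 2) ^ i /
                (P.card : ℝ) ^ (2 * i)) := by
            rw [pow_mul, pow_mul, ← mul_pow, ← div_pow, ← mul_pow]
            congr 1
            field_simp
          rw [e1]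
          ring
  have h4 := h2.trans (sum_le_sum h3)
  rw [← Finset.mul_sum] at h4
  have h5 : (M.choose j : ℝ) * ∑ i ∈ Icc 1 j, (C * (4 * (j : ℝ) ^ 3 * Y ^ 2 /
      (M * (P.card : ℝ) ^ 2)) ^ i * (1 / τ) ^ (4 * i - u) + 2 ^ j * Y ^ i * τ ^ u) <
      M.choose j * 1 := mul_lt_mul_of_pos_left hsmall hcj
  linarith

end Pool.Agent.Lib.MP_bdd9a3_nt.SP
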