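import Mathlib

set_option autoImplicit false

/-!
Primes in `(n/4, n]`.
-/

namespace Pool.Agent.Lib.MP_bdd9a3_nt.SP

open Finset Filter

/-- the primes in `(n/4, n]` -/
def PP (n : ℕ) : Finset ℕ := (range (n + 1)).filter (fun p => p.Prime ∧ n < 4 * p)

lemma mem_PP {n p : ℕ} : p ∈ PP n ↔ p ≤ n ∧ p.Prime ∧ n < 4 * p := by
  unfold PP
  rw [mem_filter, mem_range, Nat.lt_succ_iff]

theorem PP_card : ∀ᶠ n : ℕ in atTop, (n : ℝ) / (8 * Real.log n) ≤ ((PP n).card : ℝ) := by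
  have h1 : ∀ᶠ x : ℝ in atTop, Real.log x ≤ (1 / 40) * x ^ (1 / 2 : ℝ) := by
    have h := (isLittleO_log_rpow_atTop (r := 1 / 2) (by norm_num)).bound
      (by norm_num : (0 : ℝ) < 1 / 40)
    filter_upwards [h, eventually_ge_atTop 1] with x hx hx1
    rw [Real.norm_of_nonneg (Real.log_nonneg hx1), Real.norm_of_nonneg (by positivity)] at hx
    exact hx
  have h2 : ∀ᶠ n : ℕ in atTop, Real.log n ≤ (1 / 40) * (n : ℝ) ^ (1 / 2 : ℝ) :=
    tendsto_natCast_atTop_atTop.eventually h1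
  have h3 : ∀ᶠ n : ℕ in atTop, Real.log ((n : ℝ) + 1) ≤
      (1 / 40) * ((n : ℝ) + 1) ^ (1 / 2 : ℝ) :=
    (tendsto_atTop_add_const_right _ 1 tendsto_natCast_atTop_atTop).eventually h1
  filter_upwards [h2, h3, eventually_ge_atTop 10] with n hn2 hn3 hn
  have hn' : (10 : ℝ) ≤ n := by exact_mod_cast hn
  have hlog : 0 < Real.log n := Real.log_pos (by linarith)
  have hsq : (n : ℝ) ^ (1 / 2 : ℝ) = Real.sqrt n := (Real.sqrt_eq_rpow _).symm
  have hsq1 : ((n : ℝ) + 1) ^ (1 / 2 : ℝ) = Real.sqrt ((n : ℝ) + 1) := (Real.sqrt_eq_rpow _).symm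
  rw [hsq] at hn2
  rw [hsq1] at hn3
  have hs2 : Real.sqrt n * Real.sqrt n = n := Real.mul_self_sqrt (by linarith)
  have hs0 : 0 ≤ Real.sqrt (n : ℝ) := Real.sqrt_nonneg _
  have hs1 : Real.sqrt ((n : ℝ) + 1) ≤ n := by
    rw [Real.sqrt_le_left (by linarith)]
    nlinarith
  have h4 : 2 * Real.sqrt n * Real.log n ≤ (1 / 20) * n := by
    have := mul_le_mul_of_nonneg_left hn2 (by positivity : 0 ≤ 2 * Real.sqrt (n : ℝ))
    nlinarith
  have h5 : Real.log ((n : ℝ) + 1) ≤ (1 / 40) * n := by linarith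
  have h6 := Chebyshev.theta_ge n
  have h7 : Chebyshev.theta (n : ℝ) = ∑ p ∈ Nat.primesLE n, Real.log p :=
    Chebyshev.theta_eq_sum_primesLE_log n
  have h8 : ∑ p ∈ Nat.primesLE n, Real.log p =
      ∑ p ∈ (Nat.primesLE n).filter (fun p => n < 4 * p), Real.log p +
      ∑ p ∈ (Nat.primesLE n).filter (fun p => ¬ n < 4 * p), Real.log p :=
    (sum_filter_add_sum_filter_not _ _ _).symm
  have h9 : (Nat.primesLE n).filter (fun p => n < 4 * p) = PP n := by
    ext p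
    rw [mem_filter, Nat.mem_primesLE, mem_PP]
    tauto
  have h10 : (Nat.primesLE n).filter (fun p => ¬ n < 4 * p) ⊆ Nat.primesLE (n / 4) := by
    intro p hp
    rw [mem_filter, Nat.mem_primesLE] at hp
    rw [Nat.mem_primesLE]
    refine ⟨?_, hp.1.2⟩
    rw [Nat.le_div_iff_mul_le (by norm_num)]
    omega
  have h11 : ∑ p ∈ (Nat.primesLE n).filter (fun p => ¬ n < 4 * p), Real.log p ≤
      Real.log 4 * ((n : ℝ) / 4) := by
    calc ∑ p ∈ (Nat.primesLE n).filter (fun p => ¬ n < 4 * p), Real.log p ≤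
        ∑ p ∈ Nat.primesLE (n / 4), Real.log p :=
          sum_le_sum_of_subset_of_nonneg h10 fun p hp _ =>
            Real.log_natCast_nonneg p
      _ = Chebyshev.theta ((n / 4 : ℕ) : ℝ) := (Chebyshev.theta_eq_sum_primesLE_log _).symm
      _ ≤ Real.log 4 * ((n / 4 : ℕ) : ℝ) := Chebyshev.theta_le_log4_mul_x (Nat.cast_nonneg _)
      _ ≤ _ := by
        refine mul_le_mul_of_nonneg_left ?_ (Real.log_nonneg (by norm_num))
        have := @Nat.cast_div_le ℝ _ _ _ n 4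
        exact_mod_cast this
  have h12 : ∑ p ∈ PP n, Real.log p ≤ (PP n).card * Real.log n := by
    rw [← nsmul_eq_mul]
    refine sum_le_card_nsmul _ _ _ fun p hp => ?_
    obtain ⟨hp1, hp2, _⟩ := mem_PP.1 hp
    exact Real.log_le_log (by exact_mod_cast hp2.pos) (by exact_mod_cast hp1)
  have h13 : Real.log 4 = 2 * Real.log 2 := by
    rw [show (4 : ℝ) = 2 ^ 2 by norm_num, Real.log_pow]
    norm_num
  rw [h9] at h8
  have h14 := Real.log_two_gt_d9
  rw [div_le_iff₀ (by positivity)]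
  rw [h13] at h11
  nlinarith

end Pool.Agent.Lib.MP_bdd9a3_nt.SP
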