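import Mathlib
import Pool.Agent.Lib.MP_bdd9a3_nt.SP.Fam
import Pool.Agent.Lib.MP_bdd9a3_nt.SP.PC

set_option autoImplicit false

/-!
The choice of the parameters.
-/

namespace Pool.Agent.Lib.MP_bdd9a3_nt.SP

open Finset Filter

lemma geo {x : ℝ} (h0 : 0 ≤ x) (h1 : x ≤ 1 / 2) (j : ℕ) :
    ∑ i ∈ Icc 1 j, x ^ i ≤ 2 * x * (1 - (1 / 2) ^ j) := by
  induction j with
  | zero => simp
  | succ j ih =>
    rw [sum_Icc_succ_top (by omega)]
    have h2 : x ^ (j + 1) ≤ x * (1 / 2) ^ j := by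
      rw [pow_succ, mul_comm]
      exact mul_le_mul_of_nonneg_left (pow_le_pow_left₀ h0 h1 j) h0
    have h3 : ((1 : ℝ) / 2) ^ (j + 1) = (1 / 2) ^ j * (1 / 2) := pow_succ _ _
    rw [h3]
    nlinarith

lemma geo' {x : ℝ} (h0 : 0 ≤ x) (h1 : x ≤ 1 / 2) (j : ℕ) : ∑ i ∈ Icc 1 j, x ^ i ≤ 2 * x := by
  refine (geo h0 h1 j).trans ?_
  have : (0 : ℝ) ≤ (1 / 2) ^ j := by positivity
  nlinarith

lemma sum_small {C B Y θ c1 β : ℝ} {u j : ℕ} (hC : 0 < C) (hY : 1 ≤ Y) (hB0 : 0 ≤ B)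
    (hB : B ≤ Y ^ (-β)) (hθ : θ = (1 + β) / 4)
    (hj : (j : ℝ) ≤ c1 * u) (hju : j ≤ u)
    (h1 : 2 * C * Y ^ (-β) < 1 / 4) (h1' : Y ^ (-β) ≤ 1 / 2)
    (h2 : 8 ≤ Y ^ (θ - c1))
    (h3 : C * (u * (1 / 8) ^ u) < 1 / 4) (h4 : (u : ℝ) * (1 / 4) ^ u < 1 / 4) :
    ∑ i ∈ Icc 1 j, (C * B ^ i * (1 / Y ^ (-θ)) ^ (4 * i - u) + 2 ^ j * Y ^ i * (Y ^ (-θ)) ^ u) <
      1 := by
  have hY0 : 0 < Y := by linarith
  -- the key power
  have key : ∀ i : ℕ, i ≤ j → Y ^ ((i : ℝ) - θ * u) ≤ (1 / 8) ^ u := by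
    intro i hi
    have hi' : (i : ℝ) ≤ c1 * u := le_trans (by exact_mod_cast hi) hj
    have e1 : Y ^ ((i : ℝ) - θ * u) ≤ Y ^ (-((θ - c1) * u)) :=
      Real.rpow_le_rpow_of_exponent_le hY (by linarith)
    refine e1.trans ?_
    rw [Real.rpow_neg hY0.le, Real.rpow_mul hY0.le, Real.rpow_natCast, one_div, inv_pow]
    exact inv_anti₀ (by positivity) (pow_le_pow_left₀ (by norm_num) h2 u)
  have hx0 : 0 ≤ Y ^ (-β) := (Real.rpow_pos_of_pos hY0 _).le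
  have t1 : ∀ i ∈ Icc 1 j, C * B ^ i * (1 / Y ^ (-θ)) ^ (4 * i - u) ≤
      C * (Y ^ (-β)) ^ i + C * (1 / 8) ^ u := by
    intro i hi
    obtain ⟨hi1, hi2⟩ := mem_Icc.1 hi
    have hBi : B ^ i ≤ (Y ^ (-β)) ^ i := pow_le_pow_left₀ hB0 hB i
    have h8 : (0 : ℝ) ≤ C * (1 / 8) ^ u := by positivity
    rcases le_total (4 * i) u with h | h
    · rw [Nat.sub_eq_zero_of_le h, pow_zero, mul_one]
      have := mul_le_mul_of_nonneg_left hBi hC.le
      linarith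
    · have e1 : (1 / Y ^ (-θ)) ^ (4 * i - u) = Y ^ (θ * (4 * i - u)) := by
        rw [Real.rpow_neg hY0.le, one_div, inv_inv, ← Real.rpow_natCast, ← Real.rpow_mul hY0.le]
        congr 1
        rw [Nat.cast_sub h]
        push_cast
        ring
      have e2 : (Y ^ (-β)) ^ i = Y ^ (-β * i) := by
        rw [← Real.rpow_natCast, ← Real.rpow_mul hY0.le]
      have e3 : Y ^ (-β * i) * Y ^ (θ * (4 * i - u)) = Y ^ ((i : ℝ) - θ * u) := by
        rw [← Real.rpow_add hY0]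
        congr 1
        rw [hθ]
        ring
      have h9 : 0 ≤ C * (Y ^ (-β)) ^ i := by positivity
      calc C * B ^ i * (1 / Y ^ (-θ)) ^ (4 * i - u) ≤
          C * (Y ^ (-β)) ^ i * (1 / Y ^ (-θ)) ^ (4 * i - u) := by
            refine mul_le_mul_of_nonneg_right (mul_le_mul_of_nonneg_left hBi hC.le) ?_
            positivity
        _ = C * (Y ^ ((i : ℝ) - θ * u)) := by rw [e1, e2, mul_assoc, e3]
        _ ≤ C * (1 / 8) ^ u := mul_le_mul_of_nonneg_left (key i hi2) hC.le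
        _ ≤ _ := by linarith
  have t2 : ∀ i ∈ Icc 1 j, 2 ^ j * Y ^ i * (Y ^ (-θ)) ^ u ≤ (1 / 4) ^ u := by
    intro i hi
    obtain ⟨hi1, hi2⟩ := mem_Icc.1 hi
    have e1 : Y ^ i * (Y ^ (-θ)) ^ u = Y ^ ((i : ℝ) - θ * u) := by
      rw [← Real.rpow_natCast Y i, ← Real.rpow_natCast (Y ^ (-θ)) u, ← Real.rpow_mul hY0.le,
        ← Real.rpow_add hY0]
      congr 1
      ring
    have e2 : (2 : ℝ) ^ j ≤ 2 ^ u := pow_le_pow_right₀ (by norm_num) hju
    calc 2 ^ j * Y ^ i * (Y ^ (-θ)) ^ u = 2 ^ j * Y ^ ((i : ℝ) - θ * u) := by rw [mul_assoc, e1]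
      _ ≤ 2 ^ u * (1 / 8) ^ u := by
          refine mul_le_mul e2 (key i hi2) ?_ (by positivity)
          exact (Real.rpow_pos_of_pos hY0 _).le
      _ = (1 / 4) ^ u := by
          rw [← mul_pow]
          norm_num
  have hjr : (j : ℝ) ≤ u := by exact_mod_cast hju
  calc ∑ i ∈ Icc 1 j, (C * B ^ i * (1 / Y ^ (-θ)) ^ (4 * i - u) +
      2 ^ j * Y ^ i * (Y ^ (-θ)) ^ u) ≤
      ∑ i ∈ Icc 1 j, ((C * (Y ^ (-β)) ^ i + C * (1 / 8) ^ u) + (1 / 4) ^ u) :=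
        sum_le_sum fun i hi => add_le_add (t1 i hi) (t2 i hi)
    _ = C * ∑ i ∈ Icc 1 j, (Y ^ (-β)) ^ i + (j * (C * (1 / 8) ^ u) + j * (1 / 4) ^ u) := by
        rw [sum_add_distrib, sum_add_distrib, ← Finset.mul_sum, sum_const, sum_const,
          Nat.card_Icc, Nat.add_sub_cancel, nsmul_eq_mul, nsmul_eq_mul]
        ring
    _ ≤ C * (2 * Y ^ (-β)) + (u * (C * (1 / 8) ^ u) + u * (1 / 4) ^ u) := by
        have g1 := mul_le_mul_of_nonneg_left (geo' hx0 h1' j) hC.le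
        have g2 : (j : ℝ) * (C * (1 / 8) ^ u) ≤ u * (C * (1 / 8) ^ u) :=
          mul_le_mul_of_nonneg_right hjr (by positivity)
        have g3 : (j : ℝ) * (1 / 4) ^ u ≤ u * (1 / 4) ^ u :=
          mul_le_mul_of_nonneg_right hjr (by positivity)
        linarith
    _ < 1 := by linarith

lemma B_le {Z u j : ℕ} {A' γ β : ℝ} (hA' : 0 < A') (hZ : 12 ≤ Z) (hj : j ≤ u)
    (hu : (u : ℝ) ^ A' ≤ Z) (hγ : γ = 1 - 3 / A' - β)
    (hM : (Z : ℝ) / (8 * Real.log Z) ≤ ((PP Z).card : ℝ))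
    (hP : ((4 * Z : ℕ) : ℝ) / (8 * Real.log ((4 * Z : ℕ) : ℝ)) ≤ ((PP (4 * Z)).card : ℝ))
    (hL : 8192 * (Real.log ((4 * Z : ℕ) : ℝ)) ^ 3 ≤ ((4 * Z : ℕ) : ℝ) ^ γ) :
    4 * (j : ℝ) ^ 3 * ((4 * Z : ℕ) : ℝ) ^ 2 / ((PP Z).card * ((PP (4 * Z)).card : ℝ) ^ 2) ≤
      ((4 * Z : ℕ) : ℝ) ^ (-β) ∧ (8 * u * Real.log ((4 * Z : ℕ) : ℝ)) ^ 3 ≤
        (((4 * Z : ℕ) : ℝ) ^ (1 - β)) := by
  set Y : ℝ := ((4 * Z : ℕ) : ℝ) with hYdef
  have hYZ : Y = 4 * Z := by rw [hYdef]; push_cast; ring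
  have hZ' : (12 : ℝ) ≤ Z := by exact_mod_cast hZ
  have hY0 : 0 < Y := by rw [hYZ]; linarith
  have hY1 : 1 ≤ Y := by rw [hYZ]; linarith
  set L : ℝ := Real.log Y with hLdef
  have hL0 : 0 < L := Real.log_pos (by rw [hYZ]; linarith)
  have hlogZ : 0 < Real.log Z := Real.log_pos (by linarith)
  have hlogZL : Real.log Z ≤ L := Real.log_le_log (by linarith) (by rw [hYZ]; linarith)
  have hM' : (Z : ℝ) / (8 * L) ≤ ((PP Z).card : ℝ) :=
    le_trans (div_le_div_of_nonneg_left (by linarith) (by positivity) (by linarith)) hM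
  have hP' : (Z : ℝ) / (2 * L) ≤ ((PP (4 * Z)).card : ℝ) := by
    refine le_trans (le_of_eq ?_) hP
    rw [hYZ]
    field_simp
    ring
  have hu3 : (u : ℝ) ^ 3 ≤ Y ^ (3 / A') := by
    have e1 : (u : ℝ) ^ 3 = ((u : ℝ) ^ A') ^ (3 / A') := by
      rw [← Real.rpow_mul (Nat.cast_nonneg u), ← Real.rpow_natCast]
      congr 1
      field_simp
      norm_num
    rw [e1]
    refine Real.rpow_le_rpow (by positivity) ?_ (by positivity)
    rw [hYZ]
    linarith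
  have hj3 : (j : ℝ) ^ 3 ≤ (u : ℝ) ^ 3 :=
    pow_le_pow_left₀ (Nat.cast_nonneg _) (by exact_mod_cast hj) 3
  have hprod : (u : ℝ) ^ 3 * (8192 * L ^ 3) ≤ Y ^ (1 - β) := by
    calc (u : ℝ) ^ 3 * (8192 * L ^ 3) ≤ Y ^ (3 / A') * Y ^ γ := by gcongr
      _ = Y ^ (1 - β) := by
        rw [← Real.rpow_add hY0]
        congr 1
        rw [hγ]
        ring
  constructor
  · have hZ0 : (0 : ℝ) < Z := by linarith
    have hMP : (Z : ℝ) / (8 * L) * (Z / (2 * L)) ^ 2 ≤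
        (PP Z).card * ((PP (4 * Z)).card : ℝ) ^ 2 := by gcongr
    have hMP0 : 0 < (Z : ℝ) / (8 * L) * (Z / (2 * L)) ^ 2 := by positivity
    calc 4 * (j : ℝ) ^ 3 * Y ^ 2 / ((PP Z).card * ((PP (4 * Z)).card : ℝ) ^ 2) ≤
        4 * (u : ℝ) ^ 3 * Y ^ 2 / ((Z : ℝ) / (8 * L) * (Z / (2 * L)) ^ 2) := by gcongr
      _ = (u : ℝ) ^ 3 * (8192 * L ^ 3) / Y := by
        rw [hYZ]
        field_simp
        ring
      _ ≤ Y ^ (1 - β) / Y := by gcongr
      _ = Y ^ (-β) := by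
        rw [div_eq_iff hY0.ne', ← Real.rpow_add_one hY0.ne']
        congr 1
        ring
  · refine le_trans ?_ hprod
    have : (8 * (u : ℝ) * L) ^ 3 = (u : ℝ) ^ 3 * (512 * L ^ 3) := by ring
    rw [this]
    gcongr
    norm_num

theorem part_b (A c : ℝ) (hA : 3 < A) (hc : c < 1 / 2 - 3 / (4 * A)) (N : ℕ) :
    ∃ n : ℕ, N < n ∧ (∀ p : ℕ, p.Prime → p ∣ n → (p : ℝ) < (Real.log n) ^ A) ∧
      ∃ d : ℕ, d ∣ n + 1 ∧ (n : ℝ) ^ c < d ∧
        ∀ p : ℕ, p.Prime → p ∣ d → (p : ℝ) < (Real.log n) ^ A := by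
  have hA0 : 0 < A := by linarith
  -- the constants
  have hb0 : 0 < 1 / 2 - 3 / (4 * A) := by
    have : 3 / (4 * A) < 1 / 4 := by
      rw [div_lt_div_iff₀ (by positivity) (by norm_num)]
      linarith
    linarith
  set c0 : ℝ := max c 0 with hc0
  have hc0' : c0 < 1 / 2 - 3 / (4 * A) := max_lt hc hb0
  have hc00 : 0 ≤ c0 := le_max_right _ _
  have hcc0 : c ≤ c0 := le_max_left _ _
  obtain ⟨c1, hc1, hc1'⟩ := exists_between hc0'
  have hc10 : 0 < c1 := lt_of_le_of_lt hc00 hc1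
  have hA3 : 3 / A < 1 := by rw [div_lt_one hA0]; exact hA
  have h34 : 3 / (4 * A) = (3 / A) / 4 := by field_simp
  have hmax : max 0 (4 * c1 - 1) < 1 - 3 / A := by
    refine max_lt (by linarith) ?_
    rw [h34] at hc1'
    linarith
  obtain ⟨β, hβ1, hβ2⟩ := exists_between hmax
  have hβ0 : 0 < β := lt_of_le_of_lt (le_max_left _ _) hβ1
  have hβc : 4 * c1 - 1 < β := lt_of_le_of_lt (le_max_right _ _) hβ1
  set θ : ℝ := (1 + β) / 4 with hθ
  have hθc : c1 < θ := by rw [hθ]; linarith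
  have hβ3 : 3 / A < 1 - β := by linarith
  have h1β : 0 < 1 - β := lt_of_le_of_lt (by positivity) hβ3
  have hAA : 3 / (1 - β) < A := by
    rw [div_lt_iff₀ h1β]
    rw [div_lt_iff₀ hA0] at hβ3
    linarith
  obtain ⟨A', hA'1, hA'2⟩ := exists_between hAA
  have hA'0 : 0 < A' := lt_trans (by positivity) hA'1
  have hA'3 : 3 / A' < 1 - β := by
    rw [div_lt_iff₀ hA'0]
    rw [div_lt_iff₀ h1β] at hA'1
    linarith
  set γ : ℝ := 1 - 3 / A' - β with hγ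
  have hγ0 : 0 < γ := by rw [hγ]; linarith
  obtain ⟨C, hC, hfam⟩ := fam
  -- the functions
  set Zf : ℕ → ℕ := fun u => ⌈(u : ℝ) ^ A'⌉₊ with hZf
  have tZ : Tendsto Zf atTop atTop :=
    tendsto_nat_ceil_atTop.comp ((tendsto_rpow_atTop hA'0).comp tendsto_natCast_atTop_atTop)
  have t4Z : Tendsto (fun u => 4 * Zf u) atTop atTop :=
    tendsto_atTop_mono (fun u => Nat.le_mul_of_pos_left _ (by norm_num)) tZ
  have tY : Tendsto (fun u => ((4 * Zf u : ℕ) : ℝ)) atTop atTop :=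
    tendsto_natCast_atTop_atTop.comp t4Z
  have e1 := tZ.eventually PP_card
  have e1' := t4Z.eventually PP_card
  have e2 : ∀ᶠ u : ℕ in atTop, 8192 * (Real.log ((4 * Zf u : ℕ) : ℝ)) ^ 3 ≤
      ((4 * Zf u : ℕ) : ℝ) ^ γ := by
    refine tY.eventually (p := fun x : ℝ => 8192 * (Real.log x) ^ 3 ≤ x ^ γ) ?_
    have h := (isLittleO_log_rpow_rpow_atTop (s := γ) 3 hγ0).bound
      (by norm_num : (0 : ℝ) < 1 / 8192)
    filter_upwards [h, eventually_ge_atTop 1] with x hx hx1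
    rw [Real.norm_of_nonneg (Real.rpow_nonneg (Real.log_nonneg hx1) _),
      Real.norm_of_nonneg (by positivity)] at hx
    have : Real.log x ^ (3 : ℝ) = Real.log x ^ 3 := by
      rw [← Real.rpow_natCast]
      norm_num
    rw [this] at hx
    linarith
  have e3 : ∀ᶠ u : ℕ in atTop, 2 * C * ((4 * Zf u : ℕ) : ℝ) ^ (-β) < 1 / 4 := by
    have h := ((tendsto_rpow_neg_atTop hβ0).const_mul (2 * C)).comp tY
    rw [mul_zero] at h
    exact h.eventually (gt_mem_nhds (by norm_num))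
  have e3' : ∀ᶠ u : ℕ in atTop, ((4 * Zf u : ℕ) : ℝ) ^ (-β) ≤ 1 / 2 := by
    have h := (tendsto_rpow_neg_atTop hβ0).comp tY
    filter_upwards [h.eventually (gt_mem_nhds (by norm_num : (0 : ℝ) < 1 / 2))] with u hu
    exact hu.le
  have e4 : ∀ᶠ u : ℕ in atTop, 8 ≤ ((4 * Zf u : ℕ) : ℝ) ^ (θ - c1) :=
    ((tendsto_rpow_atTop (by linarith : 0 < θ - c1)).comp tY).eventually_ge_atTop 8
  have e5 : ∀ᶠ u : ℕ in atTop, C * ((u : ℝ) * (1 / 8) ^ u) < 1 / 4 := by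
    have h := (tendsto_self_mul_const_pow_of_lt_one (r := (1 / 8 : ℝ)) (by norm_num)
      (by norm_num)).const_mul C
    rw [mul_zero] at h
    exact h.eventually (gt_mem_nhds (by norm_num))
  have e5' : ∀ᶠ u : ℕ in atTop, (u : ℝ) * (1 / 4) ^ u < 1 / 4 := by
    have h := tendsto_self_mul_const_pow_of_lt_one (r := (1 / 4 : ℝ)) (by norm_num)
      (by norm_num)
    exact h.eventually (gt_mem_nhds (by norm_num))
  have e6 : ∀ᶠ u : ℕ in atTop, 9 ≤ (u : ℝ) ^ (A - A') :=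
    ((tendsto_rpow_atTop (by linarith : 0 < A - A')).comp
      tendsto_natCast_atTop_atTop).eventually_ge_atTop 9
  set δ : ℝ := c1 - c0 with hδ
  have hδ0 : 0 < δ := by rw [hδ]; linarith
  have e8 : ∀ᶠ u : ℕ in atTop, c1 * Real.log 16 ≤ δ / 2 * Real.log ((4 * Zf u : ℕ) : ℝ) :=
    ((Tendsto.const_mul_atTop (by positivity : 0 < δ / 2) Real.tendsto_log_atTop).comp
      tY).eventually_ge_atTop _
  have e8' : ∀ᶠ u : ℕ in atTop, 2 / δ + 1 ≤ (u : ℝ) :=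
    tendsto_natCast_atTop_atTop.eventually_ge_atTop _
  have e9 := tZ.eventually_ge_atTop 12
  obtain ⟨u, h1, h1', h2, h3, h3', h4, h5, h5', h6, h8, h8', h9, h10⟩ :=
    (e1.and (e1'.and (e2.and (e3.and (e3'.and (e4.and (e5.and (e5'.and (e6.and (e8.and
      (e8'.and (e9.and (eventually_ge_atTop (N + 1)))))))))))))).exists
  set Z : ℕ := Zf u with hZ
  set Y : ℝ := ((4 * Z : ℕ) : ℝ) with hY
  have hYZ : Y = 4 * Z := by rw [hY]; push_cast; ring
  have hZ12 : (12 : ℝ) ≤ Z := by exact_mod_cast h9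
  have hY0 : 0 < Y := by rw [hYZ]; linarith
  have hY1 : 1 ≤ Y := by rw [hYZ]; linarith
  have huZ : (u : ℝ) ^ A' ≤ Z := Nat.le_ceil _
  have huZ' : (Z : ℝ) < (u : ℝ) ^ A' + 1 := Nat.ceil_lt_add_one (by positivity)
  have hu1 : (1 : ℝ) ≤ u := by exact_mod_cast (by omega : 1 ≤ u)
  have hu0 : (0 : ℝ) < u := by linarith
  set j : ℕ := ⌊c1 * u⌋₊ with hj
  have hj1 : (j : ℝ) ≤ c1 * u := Nat.floor_le (by positivity)
  have hj2 : c1 * u - 1 < j := by
    have := Nat.lt_floor_add_one (c1 * (u : ℝ))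
    linarith
  have hc11 : c1 < 1 := by
    have : (0 : ℝ) < 3 / (4 * A) := by positivity
    linarith
  have hju : j ≤ u := by
    have : (j : ℝ) ≤ u := hj1.trans (mul_le_of_le_one_left hu0.le hc11.le)
    exact_mod_cast this
  obtain ⟨hB, hB'⟩ := B_le (Z := Z) (u := u) (j := j) hA'0 h9 hju huZ hγ h1 h1' h2
  have hL0 : 0 < Real.log Y := Real.log_pos (by rw [hYZ]; linarith)
  have hlogZ0 : 0 < Real.log (Z : ℝ) := Real.log_pos (by linarith)
  have hlogZL : Real.log (Z : ℝ) ≤ Real.log Y :=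
    Real.log_le_log (by linarith) (by rw [hYZ]; linarith)
  -- j is at most the number of primes
  have hjM : j ≤ (PP Z).card := by
    have hb1 : (8 * (u : ℝ) * Real.log Y) ^ 3 ≤ (Z : ℝ) ^ 3 := by
      refine hB'.trans ?_
      have : Y ^ (1 - β) ≤ Y ^ (1 : ℝ) := Real.rpow_le_rpow_of_exponent_le hY1 (by linarith)
      rw [Real.rpow_one] at this
      refine this.trans ?_
      rw [hYZ]
      have z1 : (4 : ℝ) ≤ (Z : ℝ) ^ 2 := by nlinarith
      have z2 := mul_le_mul_of_nonneg_right z1 (by linarith : (0 : ℝ) ≤ Z)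
      calc 4 * (Z : ℝ) ≤ (Z : ℝ) ^ 2 * Z := z2
        _ = (Z : ℝ) ^ 3 := by ring
    have hb2 : 8 * (u : ℝ) * Real.log Y ≤ Z := le_of_pow_le_pow_left₀ (by norm_num) (by linarith) hb1
    have hb3 : (u : ℝ) ≤ Z / (8 * Real.log Z) := by
      rw [le_div_iff₀ (by positivity)]
      have z3 := mul_le_mul_of_nonneg_left hlogZL hu0.le
      linarith
    have hb4 : (u : ℝ) ≤ ((PP Z).card : ℝ) := hb3.trans h1
    have : u ≤ (PP Z).card := by exact_mod_cast hb4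
    omega
  -- apply the existence theorem
  have hmem4 : ∀ p ∈ PP (4 * Z), p.Prime ∧ p ≤ 4 * Z := fun p hp =>
    ⟨(mem_PP.1 hp).2.1, (mem_PP.1 hp).1⟩
  have hmem1 : ∀ q ∈ PP Z, q.Prime ∧ q ≤ 4 * Z := fun q hq =>
    ⟨(mem_PP.1 hq).2.1, by have := (mem_PP.1 hq).1; omega⟩
  have hdis : Disjoint (PP (4 * Z)) (PP Z) := by
    rw [disjoint_left]
    intro p hp hp'
    have a1 := (mem_PP.1 hp).2.2
    have a2 := (mem_PP.1 hp').1
    omega
  have hcard0 : 0 < ((PP (4 * Z)).card : ℝ) := by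
    refine lt_of_lt_of_le ?_ h1'
    positivity
  have hne : (PP (4 * Z)).Nonempty := by
    rw [← card_pos]
    exact_mod_cast hcard0
  have hτ0 : 0 < Y ^ (-θ) := Real.rpow_pos_of_pos hY0 _
  obtain ⟨J, hJ1, hJ2, x, hx, hdvd⟩ := hfam (PP (4 * Z)) (PP Z) (4 * Z) u j (Y ^ (-θ)) hmem4 hmem1
    hdis hne (by omega) hjM hτ0
    (sum_small hC hY1 (by positivity) hB hθ hj1 hju h3 h3' h4 h5 h5')
  have hxm : ∀ i, x i ∈ PP (4 * Z) := fun i => Fintype.mem_piFinset.1 hx i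
  set n : ℕ := ∏ i, x i with hn
  have hn0 : 0 < n := prod_pos fun i _ => ((mem_PP.1 (hxm i)).2.1).pos
  -- size of n
  have hlogn : (u : ℝ) ≤ Real.log n := by
    rw [hn, Nat.cast_prod, Real.log_prod (fun i _ => by
      exact_mod_cast ((mem_PP.1 (hxm i)).2.1).ne_zero)]
    calc (u : ℝ) = ∑ _i : Fin u, (1 : ℝ) := by simp
      _ ≤ ∑ i : Fin u, Real.log (x i) := by
        refine sum_le_sum fun i _ => ?_
        rw [Real.le_log_iff_exp_le (by exact_mod_cast ((mem_PP.1 (hxm i)).2.1).pos)]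
        have a1 := (mem_PP.1 (hxm i)).2.2
        have a2 : Z < x i := by omega
        have a3 : (12 : ℝ) ≤ x i := by exact_mod_cast (by omega : 12 ≤ x i)
        have := Real.exp_one_lt_d9
        linarith
  have hnY : (n : ℝ) ≤ Y ^ u := by
    have : n ≤ (4 * Z) ^ u := by
      rw [hn]
      calc ∏ i, x i ≤ ∏ _i : Fin u, (4 * Z) := prod_le_prod' fun i _ => (mem_PP.1 (hxm i)).1
        _ = (4 * Z) ^ u := by rw [prod_const, card_univ, Fintype.card_fin]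
    rw [hY]
    exact_mod_cast this
  have hYA : Y < (Real.log n) ^ A := by
    have b1 : (u : ℝ) ^ A ≤ (Real.log n) ^ A := Real.rpow_le_rpow hu0.le hlogn hA0.le
    have b2 : (u : ℝ) ^ A = (u : ℝ) ^ A' * (u : ℝ) ^ (A - A') := by
      rw [← Real.rpow_add hu0]
      congr 1
      ring
    have b3 : 1 ≤ (u : ℝ) ^ A' := Real.one_le_rpow hu1 hA'0.le
    have b4 := mul_le_mul_of_nonneg_left h6 (by linarith : 0 ≤ (u : ℝ) ^ A')
    rw [hYZ]
    linarith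
  refine ⟨n, ?_, ?_, ∏ q ∈ J, q, hdvd, ?_, ?_⟩
  · have b1 : (N : ℝ) < n := by
      have b2 : Real.log n < n := by
        have := Real.log_le_sub_one_of_pos (by exact_mod_cast hn0 : (0 : ℝ) < n)
        linarith
      have b3 : (N : ℝ) + 1 ≤ u := by exact_mod_cast h10
      linarith
    exact_mod_cast b1
  · intro p hp hpn
    obtain ⟨i, _, hi⟩ := (Prime.dvd_finsetProd_iff hp.prime _).1 hpn
    have : p = x i := (Nat.prime_dvd_prime_iff_eq hp (mem_PP.1 (hxm i)).2.1).1 hi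
    refine lt_of_le_of_lt ?_ hYA
    rw [this, hY]
    exact_mod_cast (mem_PP.1 (hxm i)).1
  · -- size of d
    have hd1 : ((Z : ℝ) / 4) ^ j ≤ ((∏ q ∈ J, q : ℕ) : ℝ) := by
      rw [Nat.cast_prod, ← hJ2, ← prod_const]
      refine prod_le_prod (fun _ _ => by positivity) fun q hq => ?_
      have a1 := (mem_PP.1 (hJ1 hq)).2.2
      have a2 : (Z : ℝ) < 4 * q := by exact_mod_cast a1
      linarith
    refine lt_of_lt_of_le ?_ hd1
    have hn1 : (1 : ℝ) ≤ n := by exact_mod_cast hn0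
    have hnc : (n : ℝ) ^ c ≤ Y ^ (c0 * u) := by
      calc (n : ℝ) ^ c ≤ (n : ℝ) ^ c0 := Real.rpow_le_rpow_of_exponent_le hn1 hcc0
        _ ≤ (Y ^ u) ^ c0 := Real.rpow_le_rpow (by linarith) hnY hc00
        _ = Y ^ (c0 * u) := by
          rw [← Real.rpow_natCast, ← Real.rpow_mul hY0.le, mul_comm]
    refine lt_of_le_of_lt hnc ?_
    have hZ4 : (Z : ℝ) / 4 = Y / 16 := by rw [hYZ]; ring
    have hY16 : 0 < Real.log (Y / 16) := by
      refine Real.log_pos ?_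
      rw [hYZ]
      linarith
    have hY160 : 0 < Y / 16 := by positivity
    rw [hZ4, ← Real.rpow_natCast (Y / 16) j]
    rw [← Real.log_lt_log_iff (Real.rpow_pos_of_pos hY0 _) (Real.rpow_pos_of_pos hY160 _),
      Real.log_rpow hY0, Real.log_rpow hY160]
    have b1 : (c1 * u - 1) * Real.log (Y / 16) < j * Real.log (Y / 16) :=
      mul_lt_mul_of_pos_right hj2 hY16
    refine lt_of_le_of_lt ?_ b1
    have b2 : Real.log (Y / 16) = Real.log Y - Real.log 16 := Real.log_div hY0.ne' (by norm_num)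
    rw [b2]
    have b3 : 0 < Real.log 16 := Real.log_pos (by norm_num)
    have b4 : 2 ≤ δ * u := by
      have : 2 / δ ≤ u := by linarith
      rw [div_le_iff₀ hδ0] at this
      linarith
    have b5 : c1 = c0 + δ := by rw [hδ]; ring
    -- (c1 u - 1)(L - l) - c0 u L = u (δ L - c1 l) - L + l
    have b6 : u * (c1 * Real.log 16) ≤ u * (δ / 2 * Real.log Y) :=
      mul_le_mul_of_nonneg_left h8 hu0.le
    have b7 : 2 * Real.log Y ≤ δ * u * Real.log Y := mul_le_mul_of_nonneg_right b4 hL0.le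
    have b8 : (c1 * u - 1) * (Real.log Y - Real.log 16) - c0 * u * Real.log Y =
        (δ * u * Real.log Y - u * (c1 * Real.log 16)) - Real.log Y + Real.log 16 := by
      rw [b5]
      ring
    linarith
  · intro p hp hpd
    obtain ⟨q, hq, hi⟩ := (Prime.dvd_finsetProd_iff hp.prime _).1 hpd
    have : p = q := (Nat.prime_dvd_prime_iff_eq hp (mem_PP.1 (hJ1 hq)).2.1).1 hi
    refine lt_of_le_of_lt ?_ hYA
    rw [this, hY]
    exact_mod_cast (hmem1 q (hJ1 hq)).2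

end Pool.Agent.Lib.MP_bdd9a3_nt.SP
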