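import Mathlib
import Pool.Agent.Lib.MP_bdd9a3_nt.SP.Fam

set_option autoImplicit false

/-!
One modulus `2^m` and a short variable.
-/

namespace Pool.Agent.Lib.MP_bdd9a3_nt.SP

open Finset
open scoped ComplexConjugate

/-! ### A Fejer weighted character sum -/

section W1

variable {r : ℕ} [NeZero r]

lemma card_cls (S : ℕ) (c : ZMod r) :
    (((range S).filter (fun a : ℕ => (a : ZMod r) = c)).card : ℝ) ≤ S / r + 1 := by
  have hr : 0 < r := Nat.pos_of_ne_zero (NeZero.ne r)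
  have h1 : ((range S).filter (fun a : ℕ => (a : ZMod r) = c)).card ≤ (range (S / r + 1)).card := by
    refine card_le_card_of_injOn (fun a => a / r) ?_ ?_
    · intro a ha
      have ha' := mem_range.1 (mem_filter.1 ha).1
      rw [mem_coe, mem_range]
      exact Nat.lt_succ_of_le (Nat.div_le_div_right ha'.le)
    · intro a ha b hb hab
      have ha' := (mem_filter.1 ha).2
      have hb' := (mem_filter.1 hb).2
      have h2 : (a : ZMod r) = b := by rw [ha', hb']
      rw [ZMod.natCast_eq_natCast_iff'] at h2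
      have hab' : a / r = b / r := hab
      rw [← Nat.div_add_mod a r, ← Nat.div_add_mod b r, h2, hab']
  rw [card_range] at h1
  have h2 : ((S / r : ℕ) : ℝ) ≤ (S : ℝ) / r := Nat.cast_div_le
  have h3 : (((range S).filter (fun a : ℕ => (a : ZMod r) = c)).card : ℝ) ≤
      ((S / r + 1 : ℕ) : ℝ) := by exact_mod_cast h1
  push_cast at h3
  linarith

lemma sum_E (S : ℕ) : ∑ h : ZMod r, ‖∑ a ∈ range S, ZMod.stdAddChar (h * (a : ZMod r))‖ ^ 2 ≤
    (S : ℝ) ^ 2 + r * S := by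
  classical
  have hr : (0 : ℝ) < r := by exact_mod_cast Nat.pos_of_ne_zero (NeZero.ne r)
  set f : ZMod r → ℂ := fun c => (((range S).filter (fun a : ℕ => (a : ZMod r) = c)).card : ℂ)
    with hf
  have h1 : ∀ h : ZMod r, ∑ a ∈ range S, ZMod.stdAddChar (h * (a : ZMod r)) =
      ∑ c, f c * ZMod.stdAddChar (h * c) := by
    intro h
    rw [← sum_fiberwise_of_maps_to (s := range S) (t := univ)
      (g := fun a : ℕ => (a : ZMod r)) (fun _ _ => mem_univ _)]
    refine sum_congr rfl fun c _ => ?_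
    have : ∀ a ∈ (range S).filter (fun a : ℕ => (a : ZMod r) = c),
        ZMod.stdAddChar (h * (a : ZMod r)) = ZMod.stdAddChar (h * c) := by
      intro a ha
      rw [(mem_filter.1 ha).2]
    rw [sum_congr rfl this, sum_const, nsmul_eq_mul]
  simp only [h1]
  rw [parseval f]
  have h2 : ∀ c, ‖f c‖ ^ 2 ≤
      (S / r + 1) * (((range S).filter (fun a : ℕ => (a : ZMod r) = c)).card : ℝ) := by
    intro c
    rw [hf]
    simp only
    rw [Complex.norm_natCast, sq]
    exact mul_le_mul_of_nonneg_right (card_cls S c) (Nat.cast_nonneg _)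
  have h3 : ∑ c : ZMod r, (((range S).filter (fun a : ℕ => (a : ZMod r) = c)).card : ℝ) = S := by
    rw [← Nat.cast_sum, ← card_eq_sum_card_fiberwise (f := fun a : ℕ => (a : ZMod r))
      (s := range S) (t := univ) (fun _ _ => mem_coe.2 (mem_univ _)), card_range]
  calc (r : ℝ) * ∑ c, ‖f c‖ ^ 2 ≤ r * ∑ c : ZMod r, ((S : ℝ) / r + 1) *
        (((range S).filter (fun a : ℕ => (a : ZMod r) = c)).card : ℝ) :=
        mul_le_mul_of_nonneg_left (sum_le_sum fun c _ => h2 c) hr.le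
    _ = r * ((S / r + 1) * S) := by rw [← Finset.mul_sum, h3]
    _ = _ := by
        field_simp

lemma W1 {ψ : DirichletCharacter ℂ r} (hψ : ψ.IsPrimitive) (hr1 : 1 < r) (S : ℕ) :
    ‖∑ a ∈ range S, ∑ b ∈ range S, ψ ((a : ZMod r) - (b : ZMod r))‖ ≤ Real.sqrt r * S := by
  classical
  have hr : (0 : ℝ) < r := by exact_mod_cast Nat.pos_of_ne_zero (NeZero.ne r)
  have hψ' : (ψ⁻¹).IsPrimitive := by
    rw [DirichletCharacter.isPrimitive_def, DirichletCharacter.conductor_inv]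
    exact hψ
  set τ : ℂ := gaussSum ψ⁻¹ ZMod.stdAddChar with hτ
  have hτ2 : ‖τ‖ ^ 2 = r := tau_sq hψ'
  set E : ZMod r → ℂ := fun h => ∑ a ∈ range S, ZMod.stdAddChar (h * (a : ZMod r)) with hE
  have h1 : ∀ n : ZMod r, ψ n * τ = ∑ h, ψ⁻¹ h * ZMod.stdAddChar (n * h) := by
    intro n
    rw [gauss_eq hψ', inv_inv]
  have h2 : (∑ a ∈ range S, ∑ b ∈ range S, ψ ((a : ZMod r) - (b : ZMod r))) * τ =
      ∑ h, ψ⁻¹ h * ((‖E h‖ ^ 2 : ℝ) : ℂ) := by
    have e1 : ∀ h : ZMod r, ((‖E h‖ ^ 2 : ℝ) : ℂ) =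
        ∑ a ∈ range S, ∑ b ∈ range S, ZMod.stdAddChar (((a : ZMod r) - (b : ZMod r)) * h) := by
      intro h
      have : ((‖E h‖ ^ 2 : ℝ) : ℂ) = E h * conj (E h) := by
        rw [Complex.mul_conj, Complex.normSq_eq_norm_sq]
      rw [this, hE]
      simp only
      rw [map_sum, sum_mul_sum]
      refine sum_congr rfl fun a _ => sum_congr rfl fun b _ => ?_
      rw [← AddChar.map_neg_eq_conj, ← AddChar.map_add_eq_mul]
      congr 1
      ring
    simp only [e1]
    rw [Finset.sum_mul]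
    simp only [Finset.sum_mul, h1, Finset.mul_sum]
    rw [sum_comm (s := univ) (t := range S)]
    exact sum_congr rfl fun a _ => sum_comm
  have h3 : ‖∑ a ∈ range S, ∑ b ∈ range S, ψ ((a : ZMod r) - (b : ZMod r))‖ * ‖τ‖ ≤
      ∑ h ∈ univ.erase (0 : ZMod r), ‖E h‖ ^ 2 := by
    rw [← norm_mul, h2, ← add_sum_erase _ _ (mem_univ (0 : ZMod r))]
    have : ψ⁻¹ (0 : ZMod r) = 0 := by
      apply MulChar.map_nonunit
      intro h0
      have : Fact (1 < r) := ⟨hr1⟩
      exact not_isUnit_zero h0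
    rw [this, zero_mul, zero_add]
    refine (norm_sum_le _ _).trans (sum_le_sum fun h _ => ?_)
    rw [norm_mul, Complex.norm_real, Real.norm_of_nonneg (sq_nonneg _)]
    exact mul_le_of_le_one_left (sq_nonneg _) (DirichletCharacter.norm_le_one _ _)
  have h4 : ∑ h ∈ univ.erase (0 : ZMod r), ‖E h‖ ^ 2 ≤ r * S := by
    have h5 := sum_E (r := r) S
    rw [← add_sum_erase _ _ (mem_univ (0 : ZMod r))] at h5
    have h6 : ‖∑ a ∈ range S, ZMod.stdAddChar ((0 : ZMod r) * (a : ZMod r))‖ ^ 2 = (S : ℝ) ^ 2 := by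
      simp
    rw [h6] at h5
    linarith
  have h5 : ‖τ‖ = Real.sqrt r := by
    rw [← hτ2, Real.sqrt_sq (norm_nonneg _)]
  rw [h5] at h3
  have h6 : 0 < Real.sqrt (r : ℝ) := Real.sqrt_pos.2 hr
  have h7 : Real.sqrt (r : ℝ) * Real.sqrt r = r := Real.mul_self_sqrt hr.le
  have h8 := h3.trans h4
  have h9 : ‖∑ a ∈ range S, ∑ b ∈ range S, ψ ((a : ZMod r) - (b : ZMod r))‖ * Real.sqrt r ≤
      (Real.sqrt r * S) * Real.sqrt r := by
    calc _ ≤ (r : ℝ) * S := h8
      _ = (Real.sqrt (r : ℝ) * Real.sqrt r) * S := by rw [h7]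
      _ = _ := by ring
  exact le_of_mul_le_mul_right h9 h6

end W1

/-! ### Characters modulo a power of two -/

lemma Wchi {m : ℕ} {χ : DirichletCharacter ℂ (2 ^ m)} (hχ : χ ≠ 1) (S : ℕ) :
    ‖∑ a ∈ range S, ∑ b ∈ range S, χ ((a : ZMod (2 ^ m)) - (b : ZMod (2 ^ m)))‖ ≤
      Real.sqrt (2 ^ m) * S := by
  have hne : NeZero χ.conductor := ⟨χ.conductor_ne_zero⟩
  have h1 : χ.conductor ≠ 1 := fun h => hχ (χ.eq_one_iff_conductor_eq_one.2 h)
  have hdvd : χ.conductor ∣ 2 ^ m := χ.conductor_dvd_level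
  obtain ⟨i, hi, hri⟩ := (Nat.dvd_prime_pow Nat.prime_two).1 hdvd
  have hi0 : i ≠ 0 := by
    rintro rfl
    exact h1 (by rw [hri, pow_zero])
  have h2 : 2 ∣ χ.conductor := by
    rw [hri]
    exact dvd_pow_self 2 hi0
  have h3 : 1 < χ.conductor := by
    have := χ.conductor_ne_zero
    omega
  have hval : ∀ n : ℤ, χ ((n : ℤ) : ZMod (2 ^ m)) =
      χ.primitiveCharacter ((n : ℤ) : ZMod χ.conductor) := by
    intro n
    by_cases hn : IsCoprime n ((2 ^ m : ℕ) : ℤ)
    · exact (χ.primitiveCharacter_apply_of_isCoprime hn).symm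
    · have h4 : χ ((n : ℤ) : ZMod (2 ^ m)) = 0 := (χ.apply_eq_zero_iff n).2 hn
      rw [h4, eq_comm, DirichletCharacter.apply_eq_zero_iff]
      intro hc
      apply hn
      have h5 : IsCoprime n ((2 : ℕ) : ℤ) :=
        hc.of_isCoprime_of_dvd_right (by exact_mod_cast h2)
      push_cast at h5 ⊢
      exact h5.pow_right
  have h6 : ∀ a b : ℕ, χ ((a : ZMod (2 ^ m)) - (b : ZMod (2 ^ m))) =
      χ.primitiveCharacter ((a : ZMod χ.conductor) - (b : ZMod χ.conductor)) := by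
    intro a b
    have := hval ((a : ℤ) - b)
    push_cast at this
    exact this
  simp only [h6]
  refine (W1 χ.primitiveCharacter_isPrimitive h3 S).trans ?_
  refine mul_le_mul_of_nonneg_right (Real.sqrt_le_sqrt ?_) (Nat.cast_nonneg _)
  have := Nat.le_of_dvd (by positivity) hdvd
  exact_mod_cast this

lemma orth {d : ℕ} [NeZero d] (P : Finset ℕ) (Y k : ℕ) (hP : ∀ p ∈ P, p.Prime ∧ p ≤ Y)
    (hd : Y ^ k < d) :
    ∑ χ : DirichletCharacter ℂ d, ‖SS P χ‖ ^ (2 * k) ≤ d * (k.factorial * (P.card : ℝ) ^ k) := by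
  classical
  set T : ZMod d → ℂ := fun c =>
    (((tup P k).filter (fun x => ((∏ i, x i : ℕ) : ZMod d) = c)).card : ℂ) with hT
  have h1 : ∀ χ : DirichletCharacter ℂ d, ∑ c, χ c * T c = SS P χ ^ k := by
    intro χ
    rw [SS_pow, ← sum_fiberwise_of_maps_to (s := tup P k) (t := univ)
      (g := fun x => ((∏ i, x i : ℕ) : ZMod d)) (fun _ _ => mem_univ _)]
    refine sum_congr rfl fun c _ => ?_
    have : ∀ x ∈ (tup P k).filter (fun x => ((∏ i, x i : ℕ) : ZMod d) = c),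
        χ ((∏ i, x i : ℕ) : ZMod d) = χ c := by
      intro x hx
      rw [(mem_filter.1 hx).2]
    rw [sum_congr rfl this, sum_const, nsmul_eq_mul, mul_comm]
  have h2 := char_parseval T
  simp only [h1, norm_pow, ← pow_mul] at h2
  have h3 : ∀ c, ‖T c‖ ^ 2 ≤ k.factorial *
      (((tup P k).filter (fun x => ((∏ i, x i : ℕ) : ZMod d) = c)).card : ℝ) := by
    intro c
    rw [hT]
    simp only
    rw [Complex.norm_natCast, sq]
    refine mul_le_mul_of_nonneg_right ?_ (Nat.cast_nonneg _)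
    have h4 : (tup P k).filter (fun x => ((∏ i, x i : ℕ) : ZMod d) = c) ⊆
        (tup P k).filter (fun x => ∏ i, x i = c.val) := by
      intro x hx
      obtain ⟨hx1, hx2⟩ := mem_filter.1 hx
      refine mem_filter.2 ⟨hx1, ?_⟩
      have hlt : ∏ i, x i < d := by
        refine lt_of_le_of_lt ?_ hd
        calc ∏ i, x i ≤ ∏ _i : Fin k, Y :=
              prod_le_prod' fun i _ => (hP _ (Fintype.mem_piFinset.1 hx1 i)).2
          _ = Y ^ k := by rw [prod_const, card_univ, Fintype.card_fin]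
      rw [← hx2, ZMod.val_cast_of_lt hlt]
    exact_mod_cast (card_le_card h4).trans (card_rep P (fun p hp => (hP p hp).1) k c.val)
  have h5 : ∑ c : ZMod d,
      (((tup P k).filter (fun x => ((∏ i, x i : ℕ) : ZMod d) = c)).card : ℝ) =
      (P.card : ℝ) ^ k := by
    have h6 := card_eq_sum_card_fiberwise (s := tup P k) (t := univ)
      (f := fun x => ((∏ i, x i : ℕ) : ZMod d)) (fun _ _ => mem_coe.2 (mem_univ _))
    rw [card_tup] at h6
    rw [← Nat.cast_sum]
    exact_mod_cast h6.symm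
  have h7 : ∑ χ : DirichletCharacter ℂ d, ‖SS P χ‖ ^ (2 * k) =
      ∑ χ : DirichletCharacter ℂ d, ‖SS P χ‖ ^ (k * 2) := by
    simp only [mul_comm k 2]
  rw [h7]
  refine h2.trans (mul_le_mul_of_nonneg_left ?_ (Nat.cast_nonneg _))
  calc ∑ c ∈ univ.filter (fun a : ZMod d => IsUnit a), ‖T c‖ ^ 2 ≤ ∑ c, ‖T c‖ ^ 2 :=
        sum_le_sum_of_subset_of_nonneg (filter_subset _ _) fun _ _ _ => sq_nonneg _
    _ ≤ ∑ c : ZMod d, k.factorial *
        (((tup P k).filter (fun x => ((∏ i, x i : ℕ) : ZMod d) = c)).card : ℝ) :=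
        sum_le_sum fun c _ => h3 c
    _ = _ := by rw [← Finset.mul_sum, h5]

lemma odd_count (a S : ℕ) :
    ∑ b ∈ range (2 * S), (if (a + b) % 2 = 1 then (1 : ℝ) else 0) = S := by
  induction S with
  | zero => simp
  | succ S ih =>
    rw [show 2 * (S + 1) = 2 * S + 1 + 1 by ring, sum_range_succ, sum_range_succ, ih]
    rcases Nat.even_or_odd a with h | h
    · obtain ⟨t, rfl⟩ := h
      rw [if_neg (by omega), if_pos (by omega)]
      push_cast
      ring
    · obtain ⟨t, rfl⟩ := h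
      rw [if_pos (by omega), if_neg (by omega)]
      push_cast
      ring

lemma W_one {m : ℕ} (hm : 1 ≤ m) (S : ℕ) :
    ∑ a ∈ range (2 * S), ∑ b ∈ range (2 * S),
      (1 : DirichletCharacter ℂ (2 ^ m)) ((a : ZMod (2 ^ m)) - (b : ZMod (2 ^ m))) =
      ((2 * S * S : ℝ) : ℂ) := by
  have h1 : ∀ a b : ℕ,
      (1 : DirichletCharacter ℂ (2 ^ m)) ((a : ZMod (2 ^ m)) - (b : ZMod (2 ^ m))) =
      ((if (a + b) % 2 = 1 then (1 : ℝ) else 0 : ℝ) : ℂ) := by
    intro a b
    have e1 : ((a : ZMod (2 ^ m)) - (b : ZMod (2 ^ m))) = (((a : ℤ) - b : ℤ) : ZMod (2 ^ m)) := by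
      push_cast
      rfl
    rw [e1]
    split_ifs with h
    · have h2 : IsUnit (((a : ℤ) - b : ℤ) : ZMod (2 ^ m)) := by
        rw [ZMod.coe_int_isUnit_iff_isCoprime]
        push_cast
        refine IsCoprime.pow_left ?_
        rw [Int.isCoprime_iff_gcd_eq_one, Int.gcd_comm]
        have h3 : ((a : ℤ) - b) % 2 = 1 := by omega
        have h4 : Odd ((a : ℤ) - b) := Int.odd_iff.2 h3
        have h5 := Int.isCoprime_iff_gcd_eq_one.1 ((Int.isCoprime_two_right).2 h4)
        exact h5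
      rw [MulChar.one_apply h2]
      simp
    · have h2 : ¬ IsUnit (((a : ℤ) - b : ℤ) : ZMod (2 ^ m)) := by
        rw [ZMod.coe_int_isUnit_iff_isCoprime]
        intro hc
        have h5 : IsCoprime (2 : ℤ) ((a : ℤ) - b) := by
          refine hc.of_isCoprime_of_dvd_left ?_
          push_cast
          exact dvd_pow_self 2 (by omega)
        have h6 : Odd ((a : ℤ) - b) := Int.isCoprime_two_left.1 h5
        have h7 := Int.odd_iff.1 h6
        omega
      rw [MulChar.map_nonunit _ h2]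
      simp
  simp only [h1]
  have h2 : ∑ a ∈ range (2 * S), ∑ b ∈ range (2 * S),
      ((if (a + b) % 2 = 1 then (1 : ℝ) else 0 : ℝ) : ℂ) =
      ((∑ a ∈ range (2 * S), ∑ b ∈ range (2 * S), (if (a + b) % 2 = 1 then (1 : ℝ) else 0) : ℝ)
        : ℂ) := by
    push_cast
    rfl
  rw [h2]
  congr 1
  simp only [odd_count]
  rw [sum_const, card_range, nsmul_eq_mul]
  push_cast
  ring

/-- The existence theorem modulo `2^m`. -/
theorem exists_two (P : Finset ℕ) (Y k m S : ℕ) (hP : ∀ p ∈ P, p.Prime ∧ p ≤ Y)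
    (hodd : ∀ p ∈ P, p ≠ 2) (hm : 1 ≤ m) (hd : Y ^ k < 2 ^ m)
    (hlt : Real.sqrt (2 ^ m) * (2 * S) * (2 ^ m * (k.factorial * (P.card : ℝ) ^ k)) <
      (P.card : ℝ) ^ (2 * k) * (2 * S * S)) :
    ∃ x ∈ tup P (2 * k), ∃ a < 2 * S, ∃ b < 2 * S,
      ((2 ^ m : ℕ) : ℤ) ∣ (∏ i, (x i : ℤ)) * ((a : ℤ) - b) + 1 := by
  classical
  by_contra hno
  push Not at hno
  set d : ℕ := 2 ^ m with hdd
  have hd0 : NeZero d := ⟨by positivity⟩
  set W : DirichletCharacter ℂ d → ℂ := fun χ =>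
    ∑ a ∈ range (2 * S), ∑ b ∈ range (2 * S), χ ((a : ZMod d) - (b : ZMod d)) with hW
  have h1 : ∀ x ∈ tup P (2 * k), ∀ a ∈ range (2 * S), ∀ b ∈ range (2 * S),
      ∑ χ : DirichletCharacter ℂ d,
        χ ((-1 : ZMod d)⁻¹) * χ (((∏ i, x i : ℕ) : ZMod d) * ((a : ZMod d) - (b : ZMod d))) =
        0 := by
    intro x hx a ha b hb
    rw [DirichletCharacter.sum_char_inv_mul_char_eq ℂ (a := (-1 : ZMod d)) isUnit_one.neg _,
      if_neg]
    intro he
    apply hno x hx a (mem_range.1 ha) b (mem_range.1 hb)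
    rw [← ZMod.intCast_zmod_eq_zero_iff_dvd]
    push_cast at he ⊢
    rw [← he]
    ring
  have h2 : ∑ χ : DirichletCharacter ℂ d,
      χ ((-1 : ZMod d)⁻¹) * (SS P χ ^ (2 * k) * W χ) = 0 := by
    have e1 : ∀ χ : DirichletCharacter ℂ d, χ ((-1 : ZMod d)⁻¹) * (SS P χ ^ (2 * k) * W χ) =
        ∑ x ∈ tup P (2 * k), ∑ a ∈ range (2 * S), ∑ b ∈ range (2 * S),
        χ ((-1 : ZMod d)⁻¹) * χ (((∏ i, x i : ℕ) : ZMod d) * ((a : ZMod d) - (b : ZMod d))) := by
      intro χ
      rw [SS_pow, hW]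
      simp only [map_mul, Finset.sum_mul, Finset.mul_sum]
      symm
      rw [sum_comm]
      exact sum_congr rfl fun a _ => sum_comm
    simp only [e1]
    rw [sum_comm]
    refine sum_eq_zero fun x hx => ?_
    rw [sum_comm]
    refine sum_eq_zero fun a ha => ?_
    rw [sum_comm]
    exact sum_eq_zero fun b hb => h1 x hx a ha b hb
  rw [← add_sum_erase _ _ (mem_univ (1 : DirichletCharacter ℂ d))] at h2
  have h3 : SS P (1 : DirichletCharacter ℂ d) = P.card := by
    unfold SS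
    rw [card_eq_sum_ones]
    push_cast
    refine sum_congr rfl fun p hp => ?_
    refine MulChar.one_apply ((ZMod.isUnit_iff_coprime p d).2 ?_)
    rw [hdd]
    refine Nat.Coprime.pow_right _ ?_
    rw [Nat.coprime_primes (hP p hp).1 Nat.prime_two]
    exact hodd p hp
  have hu : IsUnit ((-1 : ZMod d)⁻¹) := by
    have : ((-1 : ZMod d)⁻¹) * (-1) = 1 := ZMod.inv_mul_of_unit _ isUnit_one.neg
    exact IsUnit.of_mul_eq_one _ this
  have hW1 : W 1 = ((2 * S * S : ℝ) : ℂ) := W_one hm S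
  rw [h3, MulChar.one_apply hu, one_mul, hW1] at h2
  have h4 : (P.card : ℂ) ^ (2 * k) * ((2 * S * S : ℝ) : ℂ) =
      -∑ χ ∈ univ.erase (1 : DirichletCharacter ℂ d),
        χ ((-1 : ZMod d)⁻¹) * (SS P χ ^ (2 * k) * W χ) := eq_neg_of_add_eq_zero_left h2
  have hS0 : (0 : ℝ) ≤ 2 * S * S := by positivity
  have h5 : (P.card : ℝ) ^ (2 * k) * (2 * S * S) ≤
      ∑ χ ∈ univ.erase (1 : DirichletCharacter ℂ d),
        ‖SS P χ‖ ^ (2 * k) * (Real.sqrt (2 ^ m) * (2 * S)) := by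
    calc (P.card : ℝ) ^ (2 * k) * (2 * S * S) =
        ‖(P.card : ℂ) ^ (2 * k) * ((2 * S * S : ℝ) : ℂ)‖ := by
          rw [norm_mul, norm_pow, Complex.norm_natCast, Complex.norm_real,
            Real.norm_of_nonneg hS0]
      _ ≤ ∑ χ ∈ univ.erase (1 : DirichletCharacter ℂ d),
          ‖χ ((-1 : ZMod d)⁻¹) * (SS P χ ^ (2 * k) * W χ)‖ := by
          rw [h4, norm_neg]
          exact norm_sum_le _ _
      _ ≤ _ := by
          refine sum_le_sum fun χ hχ => ?_
          rw [norm_mul, norm_mul, norm_pow]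
          have h6 : ‖W χ‖ ≤ Real.sqrt (2 ^ m) * (2 * S) := by
            have := Wchi (mem_erase.1 hχ).1 (2 * S)
            push_cast at this
            exact this
          calc ‖χ ((-1 : ZMod d)⁻¹)‖ * (‖SS P χ‖ ^ (2 * k) * ‖W χ‖) ≤
              1 * (‖SS P χ‖ ^ (2 * k) * (Real.sqrt (2 ^ m) * (2 * S))) := by
                refine mul_le_mul (DirichletCharacter.norm_le_one χ _) ?_ (by positivity)
                  zero_le_one
                exact mul_le_mul_of_nonneg_left h6 (by positivity)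
            _ = _ := one_mul _
  rw [← Finset.sum_mul] at h5
  have h6 : ∑ χ ∈ univ.erase (1 : DirichletCharacter ℂ d), ‖SS P χ‖ ^ (2 * k) ≤
      (2 ^ m : ℝ) * (k.factorial * (P.card : ℝ) ^ k) := by
    refine le_trans (sum_le_sum_of_subset_of_nonneg (erase_subset _ _) fun _ _ _ => by
      positivity) ?_
    have := orth (d := d) P Y k hP hd
    have e : (d : ℝ) = (2 : ℝ) ^ m := by rw [hdd]; push_cast; ring
    rw [e] at this
    exact this
  have h7 := mul_le_mul_of_nonneg_right h6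
    (by positivity : (0 : ℝ) ≤ Real.sqrt (2 ^ m) * (2 * S))
  linarith

end Pool.Agent.Lib.MP_bdd9a3_nt.SP
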