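import Mathlib
import Pool.Agent.Lib.MP_bdd9a3_nt.SP.WW

set_option autoImplicit false

/-!
Averaging over a family of smooth moduli, with a short free variable.
-/

namespace Pool.Agent.Lib.MP_bdd9a3_nt.SP

open Finset

/-! ### The short sum for an induced character -/

lemma cls_image (S g c : ℕ) (hc : c < g) :
    (range S).filter (fun a => a % g = c) =
      (range ((S - c + g - 1) / g)).image (fun t => c + g * t) := by
  have hg : 0 < g := by omega
  ext a
  rw [mem_filter, mem_range, mem_image]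
  constructor
  · rintro ⟨ha, hac⟩
    have e : g * (a / g) + a % g = a := Nat.div_add_mod a g
    refine ⟨a / g, ?_, by omega⟩
    rw [mem_range, Nat.lt_iff_add_one_le, Nat.le_div_iff_mul_le hg, add_mul, one_mul,
      mul_comm (a / g) g]
    omega
  · rintro ⟨t, ht, rfl⟩
    rw [mem_range, Nat.lt_iff_add_one_le, Nat.le_div_iff_mul_le hg, add_mul, one_mul,
      mul_comm t g] at ht
    refine ⟨by omega, ?_⟩
    rw [Nat.add_mul_mod_self_left, Nat.mod_eq_of_lt hc]

lemma VV {r : ℕ} [NeZero r] {ψ : DirichletCharacter ℂ r} (hψ : ψ.IsPrimitive) (hr1 : 1 < r)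
    (S g : ℕ) (hg : 0 < g) :
    ‖∑ a ∈ range S, ∑ b ∈ range S, (if (g : ℤ) ∣ (a : ℤ) - b then
      ψ ((a : ZMod r) - (b : ZMod r)) else 0)‖ ≤ Real.sqrt r * S := by
  have h0 : ∀ a b : ℕ, ((g : ℤ) ∣ (a : ℤ) - b) ↔ a % g = b % g := by
    intro a b
    constructor
    · intro h
      have h1 : (b : ℤ) ≡ a [ZMOD g] := (Int.modEq_iff_dvd).2 h
      have h2 : (b : ℕ) ≡ a [MOD g] := (Int.natCast_modEq_iff).1 h1
      exact h2.symm
    · intro h
      have h2 : (b : ℕ) ≡ a [MOD g] := h.symm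
      exact (Int.modEq_iff_dvd).1 ((Int.natCast_modEq_iff).2 h2)
  simp only [h0]
  have h1 : ∑ a ∈ range S, ∑ b ∈ range S, (if a % g = b % g then
      ψ ((a : ZMod r) - (b : ZMod r)) else 0) =
      ∑ c ∈ range g, ∑ a ∈ (range S).filter (fun a => a % g = c),
        ∑ b ∈ (range S).filter (fun b => b % g = c), ψ ((a : ZMod r) - (b : ZMod r)) := by
    rw [← sum_fiberwise_of_maps_to (s := range S) (t := range g) (g := fun a => a % g)
      (fun a _ => mem_range.2 (Nat.mod_lt _ hg))]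
    refine sum_congr rfl fun c _ => ?_
    refine sum_congr rfl fun a ha => ?_
    have hac := (mem_filter.1 ha).2
    rw [sum_filter]
    refine sum_congr rfl fun b _ => ?_
    rw [hac]
    by_cases hb : b % g = c
    · rw [if_pos hb.symm, if_pos hb]
    · rw [if_neg (fun h => hb h.symm), if_neg hb]
  rw [h1]
  have h2 : ∀ c ∈ range g, ‖∑ a ∈ (range S).filter (fun a => a % g = c),
        ∑ b ∈ (range S).filter (fun b => b % g = c), ψ ((a : ZMod r) - (b : ZMod r))‖ ≤
      Real.sqrt r * ((range S).filter (fun a => a % g = c)).card := by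
    intro c hc
    have hc' := mem_range.1 hc
    rw [cls_image S g c hc']
    set n : ℕ := (S - c + g - 1) / g with hn
    have hinj : Set.InjOn (fun t => c + g * t) (range n : Set ℕ) := by
      intro t _ t' _ h
      have h' : c + g * t = c + g * t' := h
      exact Nat.eq_of_mul_eq_mul_left hg (by omega)
    rw [card_image_of_injOn hinj, card_range, sum_image hinj]
    have h3 : ∀ t ∈ range n, ∑ b ∈ (range n).image (fun t => c + g * t),
        ψ (((c + g * t : ℕ) : ZMod r) - (b : ZMod r)) =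
        ∑ t' ∈ range n, ψ (g : ZMod r) * ψ ((t : ZMod r) - (t' : ZMod r)) := by
      intro t _
      rw [sum_image hinj]
      refine sum_congr rfl fun t' _ => ?_
      rw [← map_mul]
      congr 1
      push_cast
      ring
    rw [sum_congr rfl h3]
    simp only [← Finset.mul_sum]
    rw [norm_mul]
    calc ‖ψ (g : ZMod r)‖ * ‖∑ t ∈ range n, ∑ t' ∈ range n, ψ ((t : ZMod r) - (t' : ZMod r))‖ ≤
        1 * (Real.sqrt r * n) :=
          mul_le_mul (DirichletCharacter.norm_le_one _ _) (W1 hψ hr1 n) (norm_nonneg _)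
            zero_le_one
      _ = _ := one_mul _
  refine (norm_sum_le _ _).trans ((sum_le_sum h2).trans (le_of_eq ?_))
  rw [← Finset.mul_sum, ← Nat.cast_sum]
  congr 2
  have h4 := card_eq_sum_card_fiberwise (s := range S) (t := range g) (f := fun a => a % g)
    (fun a _ => by rw [mem_coe, mem_range]; exact Nat.mod_lt _ hg)
  rw [card_range] at h4
  exact h4.symm

lemma sieve_ind (J : Finset ℕ) (hJ : ∀ q ∈ J, q.Prime) (n : ℤ) :
    (if IsCoprime n ((∏ q ∈ J, q : ℕ) : ℤ) then (1 : ℂ) else 0) =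
      ∑ G ∈ J.powerset, (-1) ^ G.card * (if ((∏ q ∈ G, q : ℕ) : ℤ) ∣ n then 1 else 0) := by
  classical
  have h1 : ∀ G ⊆ J, ((if ((∏ q ∈ G, q : ℕ) : ℤ) ∣ n then 1 else 0 : ℂ)) =
      ∏ q ∈ G, (if (q : ℤ) ∣ n then 1 else 0) := by
    intro G hG
    rw [prod_ite_zero]
    have : (((∏ q ∈ G, q : ℕ) : ℤ) ∣ n) ↔ ∀ q ∈ G, (q : ℤ) ∣ n := by
      constructor
      · intro h q hq
        refine dvd_trans ?_ h
        exact_mod_cast dvd_prod_of_mem (fun q => q) hq
      · intro h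
        rw [Nat.cast_prod]
        refine Finset.prod_dvd_of_coprime ?_ h
        intro q hq q' hq' hne
        rw [Function.onFun, Nat.isCoprime_iff_coprime,
          Nat.coprime_primes (hJ q (hG hq)) (hJ q' (hG hq'))]
        exact hne
    by_cases h : ∀ q ∈ G, (q : ℤ) ∣ n
    · rw [if_pos (this.2 h), if_pos h]
      simp
    · rw [if_neg (fun h' => h (this.1 h')), if_neg h]
  have h2 : ∑ G ∈ J.powerset, (-1 : ℂ) ^ G.card *
      (if ((∏ q ∈ G, q : ℕ) : ℤ) ∣ n then 1 else 0) =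
      ∏ q ∈ J, ((-(if (q : ℤ) ∣ n then 1 else 0 : ℂ)) + 1) := by
    rw [prod_add]
    refine sum_congr rfl fun G hG => ?_
    rw [h1 G (mem_powerset.1 hG), prod_const_one, mul_one, prod_neg]
  rw [h2]
  have h3 : ∀ q, (-(if (q : ℤ) ∣ n then 1 else 0 : ℂ)) + 1 = if ¬ (q : ℤ) ∣ n then 1 else 0 := by
    intro q
    by_cases h : (q : ℤ) ∣ n
    · rw [if_pos h, if_neg (not_not.2 h)]
      ring
    · rw [if_neg h, if_pos h]
      ring
  have h4 : ∀ q ∈ J, (-(if ((q : ℕ) : ℤ) ∣ n then 1 else 0 : ℂ)) + 1 =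
      if ¬ ((q : ℕ) : ℤ) ∣ n then 1 else 0 := fun q _ => h3 q
  rw [prod_congr rfl h4, prod_ite_zero]
  have h5 : IsCoprime n ((∏ q ∈ J, q : ℕ) : ℤ) ↔ ∀ q ∈ J, ¬ (q : ℤ) ∣ n := by
    rw [Nat.cast_prod, IsCoprime.prod_right_iff]
    refine forall₂_congr fun q hq => ?_
    have hp : Prime (q : ℤ) := Nat.prime_iff_prime_int.1 (hJ q hq)
    constructor
    · intro h hd
      exact hp.not_isUnit (h.isUnit_of_dvd' hd dvd_rfl)
    · intro h
      exact ((Prime.coprime_iff_not_dvd hp).2 h).symm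
  by_cases h : ∀ q ∈ J, ¬ (q : ℤ) ∣ n
  · rw [if_pos (h5.2 h), if_pos h]
    simp
  · rw [if_neg (fun h' => h (h5.1 h')), if_neg h]

lemma W2 (J : Finset ℕ) (hJ : ∀ q ∈ J, q.Prime) {d : ℕ} [NeZero d] (hd : d = ∏ q ∈ J, q)
    {χ : DirichletCharacter ℂ d} (hχ : χ ≠ 1) (S : ℕ) :
    ‖∑ a ∈ range S, ∑ b ∈ range S, χ ((a : ZMod d) - (b : ZMod d))‖ ≤
      2 ^ J.card * (Real.sqrt χ.conductor * S) := by
  have hne : NeZero χ.conductor := ⟨χ.conductor_ne_zero⟩
  have h1 : χ.conductor ≠ 1 := fun h => hχ (χ.eq_one_iff_conductor_eq_one.2 h)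
  have h3 : 1 < χ.conductor := by
    have := χ.conductor_ne_zero
    omega
  have hval : ∀ n : ℤ, χ ((n : ℤ) : ZMod d) =
      ∑ G ∈ J.powerset, (-1) ^ G.card * (if ((∏ q ∈ G, q : ℕ) : ℤ) ∣ n then
        χ.primitiveCharacter ((n : ℤ) : ZMod χ.conductor) else 0) := by
    intro n
    have e1 : ∑ G ∈ J.powerset, (-1) ^ G.card * (if ((∏ q ∈ G, q : ℕ) : ℤ) ∣ n then
        χ.primitiveCharacter ((n : ℤ) : ZMod χ.conductor) else 0) =
        χ.primitiveCharacter ((n : ℤ) : ZMod χ.conductor) *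
        ∑ G ∈ J.powerset, (-1) ^ G.card * (if ((∏ q ∈ G, q : ℕ) : ℤ) ∣ n then 1 else 0) := by
      rw [Finset.mul_sum]
      refine sum_congr rfl fun G _ => ?_
      split_ifs <;> ring
    rw [e1, ← sieve_ind J hJ n]
    by_cases hn : IsCoprime n ((∏ q ∈ J, q : ℕ) : ℤ)
    · rw [if_pos hn, mul_one]
      rw [← hd] at hn
      exact (χ.primitiveCharacter_apply_of_isCoprime hn).symm
    · rw [if_neg hn, mul_zero]
      rw [← hd] at hn
      exact (χ.apply_eq_zero_iff n).2 hn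
  have h6 : ∀ a b : ℕ, χ ((a : ZMod d) - (b : ZMod d)) =
      ∑ G ∈ J.powerset, (-1) ^ G.card * (if ((∏ q ∈ G, q : ℕ) : ℤ) ∣ ((a : ℤ) - b) then
        χ.primitiveCharacter ((a : ZMod χ.conductor) - (b : ZMod χ.conductor)) else 0) := by
    intro a b
    have := hval ((a : ℤ) - b)
    push_cast at this ⊢
    exact this
  simp only [h6]
  have h7 : ∑ a ∈ range S, ∑ b ∈ range S, ∑ G ∈ J.powerset,
      (-1) ^ G.card * (if ((∏ q ∈ G, q : ℕ) : ℤ) ∣ ((a : ℤ) - b) then
        χ.primitiveCharacter ((a : ZMod χ.conductor) - (b : ZMod χ.conductor)) else 0) =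
      ∑ G ∈ J.powerset, (-1) ^ G.card * ∑ a ∈ range S, ∑ b ∈ range S,
        (if ((∏ q ∈ G, q : ℕ) : ℤ) ∣ ((a : ℤ) - b) then
        χ.primitiveCharacter ((a : ZMod χ.conductor) - (b : ZMod χ.conductor)) else 0) := by
    simp only [Finset.mul_sum]
    rw [sum_comm (s := J.powerset)]
    exact sum_congr rfl fun a _ => sum_comm
  rw [h7]
  refine (norm_sum_le _ _).trans ?_
  calc ∑ G ∈ J.powerset, ‖(-1 : ℂ) ^ G.card * ∑ a ∈ range S, ∑ b ∈ range S,
        (if ((∏ q ∈ G, q : ℕ) : ℤ) ∣ ((a : ℤ) - b) then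
        χ.primitiveCharacter ((a : ZMod χ.conductor) - (b : ZMod χ.conductor)) else 0)‖ ≤
      ∑ _G ∈ J.powerset, Real.sqrt χ.conductor * S := by
        refine sum_le_sum fun G hG => ?_
        rw [norm_mul, norm_pow, norm_neg, norm_one, one_pow, one_mul]
        exact VV χ.primitiveCharacter_isPrimitive h3 S _
          (prod_pos_of fun q hq => hJ q (mem_powerset.1 hG hq))
    _ = _ := by
        rw [sum_const, card_powerset, nsmul_eq_mul]
        push_cast
        ring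

/-! ### The principal character -/

lemma count_dvd (S q : ℕ) (hq : 0 < q) :
    ∑ a ∈ range S, ∑ b ∈ range S, (if ((q : ℤ) ∣ (a : ℤ) - b) then (1 : ℝ) else 0) ≤
      S * (S / q + 1) := by
  have hne : NeZero q := ⟨hq.ne'⟩
  have h1 : ∀ a : ℕ, ∑ b ∈ range S, (if ((q : ℤ) ∣ (a : ℤ) - b) then (1 : ℝ) else 0) ≤
      S / q + 1 := by
    intro a
    have h2 := card_cls (r := q) S (a : ZMod q)
    refine le_trans (le_of_eq ?_) h2
    rw [← sum_filter, sum_const, nsmul_eq_mul, mul_one]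
    congr 2
    ext b
    rw [mem_filter, mem_filter]
    refine and_congr_right fun _ => ?_
    rw [← ZMod.intCast_zmod_eq_zero_iff_dvd]
    push_cast
    rw [sub_eq_zero, eq_comm]
  calc ∑ a ∈ range S, ∑ b ∈ range S, (if ((q : ℤ) ∣ (a : ℤ) - b) then (1 : ℝ) else 0) ≤
      ∑ _a ∈ range S, ((S : ℝ) / q + 1) := sum_le_sum fun a _ => h1 a
    _ = _ := by rw [sum_const, card_range, nsmul_eq_mul]

lemma W_prin (J : Finset ℕ) (hJ : ∀ q ∈ J, q.Prime) [NeZero (∏ q ∈ J, q)] (S : ℕ)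
    (hq : ∀ q ∈ J, 4 * J.card ≤ q) (hS : 4 * J.card ≤ S) (hS1 : 1 ≤ S) :
    ∃ w : ℝ, (S : ℝ) ^ 2 / 2 ≤ w ∧ ∑ a ∈ range S, ∑ b ∈ range S,
      (1 : DirichletCharacter ℂ (∏ q ∈ J, q))
        ((a : ZMod (∏ q ∈ J, q)) - (b : ZMod (∏ q ∈ J, q))) = (w : ℂ) := by
  classical
  refine ⟨∑ a ∈ range S, ∑ b ∈ range S,
    (if IsCoprime ((a : ℤ) - b) ((∏ q ∈ J, q : ℕ) : ℤ) then (1 : ℝ) else 0), ?_, ?_⟩
  · -- lower bound
    have h1 : ∀ n : ℤ, 1 - ∑ q ∈ J, (if (q : ℤ) ∣ n then (1 : ℝ) else 0) ≤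
        (if IsCoprime n ((∏ q ∈ J, q : ℕ) : ℤ) then (1 : ℝ) else 0) := by
      intro n
      have hnn : 0 ≤ ∑ q ∈ J, (if (q : ℤ) ∣ n then (1 : ℝ) else 0) :=
        sum_nonneg fun _ _ => by split_ifs <;> norm_num
      split_ifs with h
      · linarith
      · have h5 : ∃ q ∈ J, (q : ℤ) ∣ n := by
          by_contra hno
          push Not at hno
          apply h
          rw [Nat.cast_prod, IsCoprime.prod_right_iff]
          intro q hq'
          have hp : Prime (q : ℤ) := Nat.prime_iff_prime_int.1 (hJ q hq')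
          exact ((Prime.coprime_iff_not_dvd hp).2 (hno q hq')).symm
        obtain ⟨q, hq', hd⟩ := h5
        have h6 := single_le_sum (f := fun q : ℕ => (if (q : ℤ) ∣ n then (1 : ℝ) else 0))
          (fun _ _ => by split_ifs <;> norm_num) hq'
        simp only [if_pos hd] at h6
        linarith
    have h2 : ∑ a ∈ range S, ∑ b ∈ range S, (1 - ∑ q ∈ J,
        (if ((q : ℤ) ∣ (a : ℤ) - b) then (1 : ℝ) else 0)) =
        (S : ℝ) ^ 2 - ∑ q ∈ J, ∑ a ∈ range S, ∑ b ∈ range S,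
          (if ((q : ℤ) ∣ (a : ℤ) - b) then (1 : ℝ) else 0) := by
      simp only [sum_sub_distrib, sum_const, card_range, nsmul_eq_mul, mul_one]
      rw [sum_comm (s := J)]
      have : ∑ a ∈ range S, ∑ b ∈ range S, ∑ q ∈ J,
          (if ((q : ℤ) ∣ (a : ℤ) - b) then (1 : ℝ) else 0) =
          ∑ a ∈ range S, ∑ q ∈ J, ∑ b ∈ range S,
          (if ((q : ℤ) ∣ (a : ℤ) - b) then (1 : ℝ) else 0) :=
        sum_congr rfl fun a _ => sum_comm
      rw [this]
      ring
    refine le_trans ?_ (sum_le_sum fun a _ => sum_le_sum fun b _ => h1 ((a : ℤ) - b))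
    rw [h2]
    have hS0 : (0 : ℝ) < S := by exact_mod_cast hS1
    have h3 : ∀ q ∈ J, ∑ a ∈ range S, ∑ b ∈ range S,
        (if ((q : ℤ) ∣ (a : ℤ) - b) then (1 : ℝ) else 0) ≤ (S : ℝ) ^ 2 / (2 * J.card) := by
      intro q hq'
      refine (count_dvd S q (hJ q hq').pos).trans ?_
      have hc : 0 < J.card := card_pos.2 ⟨q, hq'⟩
      have hc' : (0 : ℝ) < J.card := by exact_mod_cast hc
      have hq0 : (0 : ℝ) < q := by exact_mod_cast (hJ q hq').pos
      have g1 : (4 : ℝ) * J.card ≤ q := by exact_mod_cast hq q hq'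
      have g2 : (4 : ℝ) * J.card ≤ S := by exact_mod_cast hS
      have g3 : (S : ℝ) / q ≤ S / (4 * J.card) :=
        div_le_div_of_nonneg_left hS0.le (by positivity) g1
      have g4 : (1 : ℝ) ≤ S / (4 * J.card) := by
        rw [le_div_iff₀ (by positivity)]
        linarith
      calc (S : ℝ) * (S / q + 1) ≤ S * (S / (4 * J.card) + S / (4 * J.card)) := by gcongr
        _ = _ := by field_simp; ring
    have h4 : ∑ q ∈ J, ∑ a ∈ range S, ∑ b ∈ range S,
        (if ((q : ℤ) ∣ (a : ℤ) - b) then (1 : ℝ) else 0) ≤ (S : ℝ) ^ 2 / 2 := by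
      refine (sum_le_sum h3).trans ?_
      rw [sum_const, nsmul_eq_mul]
      rcases Nat.eq_zero_or_pos J.card with h0 | h0
      · rw [h0]
        simp
        positivity
      · have hc' : (0 : ℝ) < J.card := by exact_mod_cast h0
        refine le_of_eq ?_
        field_simp
    linarith
  · push_cast
    refine sum_congr rfl fun a _ => sum_congr rfl fun b _ => ?_
    have e1 : ((a : ZMod (∏ q ∈ J, q)) - (b : ZMod (∏ q ∈ J, q))) =
        (((a : ℤ) - b : ℤ) : ZMod (∏ q ∈ J, q)) := by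
      push_cast
      rfl
    rw [e1]
    split_ifs with h
    · have h' : IsCoprime ((a : ℤ) - b) ((∏ q ∈ J, q : ℕ) : ℤ) := by push_cast; exact h
      exact MulChar.one_apply (ZMod.coe_int_isUnit_iff_isCoprime _ _ |>.2 h'.symm)
    · have h' : ¬ IsCoprime ((a : ℤ) - b) ((∏ q ∈ J, q : ℕ) : ℤ) := by push_cast; exact h
      exact MulChar.map_nonunit _ fun hu =>
        h' (ZMod.coe_int_isUnit_iff_isCoprime _ _ |>.1 hu).symm

end Pool.Agent.Lib.MP_bdd9a3_nt.SP
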