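import Mathlib
import Pool.Agent.Lib.MP_bdd9a3_nt.SP.Fam2

set_option autoImplicit false

/-!
The existence theorem with a short free variable.
-/

namespace Pool.Agent.Lib.MP_bdd9a3_nt.SP

open Finset

open scoped Classical in
theorem exists_tuple2 {d : ℕ} [NeZero d] (P : Finset ℕ) (u S : ℕ) (w : ℝ) (v : ℕ → ℝ)
    (hcop : ∀ p ∈ P, p.Coprime d) (hw0 : 0 ≤ w)
    (hw : ∑ a ∈ range S, ∑ b ∈ range S,
      (1 : DirichletCharacter ℂ d) ((a : ZMod d) - (b : ZMod d)) = (w : ℂ))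
    (hv : ∀ χ : DirichletCharacter ℂ d, χ ≠ 1 →
      ‖∑ a ∈ range S, ∑ b ∈ range S, χ ((a : ZMod d) - (b : ZMod d))‖ ≤ v χ.conductor)
    (h : ∑ χ ∈ univ.erase (1 : DirichletCharacter ℂ d), ‖SS P χ‖ ^ u * v χ.conductor <
      (P.card : ℝ) ^ u * w) :
    ∃ x ∈ tup P u, ∃ a < S, ∃ b < S, ((d : ℕ) : ℤ) ∣ (∏ i, (x i : ℤ)) * ((a : ℤ) - b) + 1 := by
  by_contra hno
  push Not at hno
  set W : DirichletCharacter ℂ d → ℂ := fun χ =>
    ∑ a ∈ range S, ∑ b ∈ range S, χ ((a : ZMod d) - (b : ZMod d)) with hW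
  have h1 : ∀ x ∈ tup P u, ∀ a ∈ range S, ∀ b ∈ range S,
      ∑ χ : DirichletCharacter ℂ d,
        χ ((-1 : ZMod d)⁻¹) * χ (((∏ i, x i : ℕ) : ZMod d) * ((a : ZMod d) - (b : ZMod d))) =
        0 := by
    intro x hx a ha b hb
    rw [DirichletCharacter.sum_char_inv_mul_char_eq ℂ (a := (-1 : ZMod d)) isUnit_one.neg _,
      if_neg]
    intro he
    apply hno x hx a (mem_range.1 ha) b (mem_range.1 hb)
    rw [← ZMod.intCast_zmod_eq_zero_iff_dvd]
    push_cast at he ⊢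
    rw [← he]
    ring
  have h2 : ∑ χ : DirichletCharacter ℂ d,
      χ ((-1 : ZMod d)⁻¹) * (SS P χ ^ u * W χ) = 0 := by
    have e1 : ∀ χ : DirichletCharacter ℂ d, χ ((-1 : ZMod d)⁻¹) * (SS P χ ^ u * W χ) =
        ∑ x ∈ tup P u, ∑ a ∈ range S, ∑ b ∈ range S,
        χ ((-1 : ZMod d)⁻¹) * χ (((∏ i, x i : ℕ) : ZMod d) * ((a : ZMod d) - (b : ZMod d))) := by
      intro χ
      rw [SS_pow, hW]
      simp only [map_mul, Finset.sum_mul, Finset.mul_sum]
      symm
      rw [sum_comm]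
      exact sum_congr rfl fun a _ => sum_comm
    simp only [e1]
    rw [sum_comm]
    refine sum_eq_zero fun x hx => ?_
    rw [sum_comm]
    refine sum_eq_zero fun a ha => ?_
    rw [sum_comm]
    exact sum_eq_zero fun b hb => h1 x hx a ha b hb
  rw [← add_sum_erase _ _ (mem_univ (1 : DirichletCharacter ℂ d))] at h2
  have h3 : SS P (1 : DirichletCharacter ℂ d) = P.card := by
    unfold SS
    rw [card_eq_sum_ones]
    push_cast
    refine sum_congr rfl fun p hp => ?_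
    exact MulChar.one_apply ((ZMod.isUnit_iff_coprime p d).2 (hcop p hp))
  have hu : IsUnit ((-1 : ZMod d)⁻¹) := by
    have : ((-1 : ZMod d)⁻¹) * (-1) = 1 := ZMod.inv_mul_of_unit _ isUnit_one.neg
    exact IsUnit.of_mul_eq_one _ this
  have hW1 : W 1 = (w : ℂ) := hw
  rw [h3, MulChar.one_apply hu, one_mul, hW1] at h2
  have h4 : (P.card : ℂ) ^ u * (w : ℂ) =
      -∑ χ ∈ univ.erase (1 : DirichletCharacter ℂ d),
        χ ((-1 : ZMod d)⁻¹) * (SS P χ ^ u * W χ) := eq_neg_of_add_eq_zero_left h2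
  have h5 : (P.card : ℝ) ^ u * w ≤
      ∑ χ ∈ univ.erase (1 : DirichletCharacter ℂ d), ‖SS P χ‖ ^ u * v χ.conductor := by
    calc (P.card : ℝ) ^ u * w = ‖(P.card : ℂ) ^ u * (w : ℂ)‖ := by
          rw [norm_mul, norm_pow, Complex.norm_natCast, Complex.norm_real,
            Real.norm_of_nonneg hw0]
      _ ≤ ∑ χ ∈ univ.erase (1 : DirichletCharacter ℂ d),
          ‖χ ((-1 : ZMod d)⁻¹) * (SS P χ ^ u * W χ)‖ := by
          rw [h4, norm_neg]
          exact norm_sum_le _ _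
      _ ≤ _ := by
          refine sum_le_sum fun χ hχ => ?_
          rw [norm_mul, norm_mul, norm_pow]
          have h6 : ‖W χ‖ ≤ v χ.conductor := hv χ (mem_erase.1 hχ).1
          calc ‖χ ((-1 : ZMod d)⁻¹)‖ * (‖SS P χ‖ ^ u * ‖W χ‖) ≤
              1 * (‖SS P χ‖ ^ u * v χ.conductor) := by
                refine mul_le_mul (DirichletCharacter.norm_le_one χ _) ?_ (by positivity)
                  zero_le_one
                exact mul_le_mul_of_nonneg_left h6 (by positivity)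
            _ = _ := one_mul _
  linarith

open scoped Classical in
theorem sum_chars_leW (P J : Finset ℕ) (u : ℕ) (v : ℕ → ℝ) (hv : ∀ r, 0 ≤ v r)
    (hJ : ∀ q ∈ J, q.Prime) {d : ℕ} [NeZero d] (hd : d = ∏ q ∈ J, q)
    (hP : ∀ p ∈ P, p.Coprime d) :
    ∑ χ ∈ univ.erase (1 : DirichletCharacter ℂ d), ‖SS P χ‖ ^ u * v χ.conductor ≤
      ∑ I ∈ J.powerset.erase ∅, (∑ ψ ∈ prim (∏ q ∈ I, q), ‖SS P ψ‖ ^ u) * v (∏ q ∈ I, q) := by
  have hd0 : d ≠ 0 := NeZero.ne d
  set g : (Σ c : ℕ, DirichletCharacter ℂ c) → ℝ := fun y => ‖SS P y.2‖ ^ u * v y.1 with hg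
  have hg0 : ∀ y, 0 ≤ g y := fun y => mul_nonneg (by positivity) (hv _)
  set e : DirichletCharacter ℂ d → (Σ c : ℕ, DirichletCharacter ℂ c) :=
    fun χ => ⟨χ.conductor, χ.primitiveCharacter⟩ with he
  have hinj : Function.Injective e := by
    set l : (Σ c : ℕ, DirichletCharacter ℂ c) → DirichletCharacter ℂ d :=
      fun y => if h : y.1 ∣ d then DirichletCharacter.changeLevel h y.2 else 1 with hl
    have : Function.LeftInverse l e := by
      intro χ
      simp only [hl, he]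
      rw [dif_pos χ.conductor_dvd_level]
      exact χ.changeLevel_primitiveCharacter
    exact this.injective
  have hSS : ∀ χ : DirichletCharacter ℂ d, SS P χ = SS P χ.primitiveCharacter := by
    intro χ
    unfold SS
    refine sum_congr rfl fun p hp => ?_
    have h1 := χ.primitiveCharacter_apply_of_isCoprime (a := (p : ℤ))
      (Nat.isCoprime_iff_coprime.2 (hP p hp))
    simp only [Int.cast_natCast] at h1
    exact h1.symm
  have hstep1 : ∑ χ ∈ univ.erase (1 : DirichletCharacter ℂ d), ‖SS P χ‖ ^ u * v χ.conductor ≤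
      ∑ c ∈ d.divisors.erase 1, ∑ ψ ∈ prim c, ‖SS P ψ‖ ^ u * v c := by
    rw [← Finset.sum_sigma (d.divisors.erase 1) (fun c => prim c) (fun y => g y)]
    calc ∑ χ ∈ univ.erase (1 : DirichletCharacter ℂ d), ‖SS P χ‖ ^ u * v χ.conductor =
        ∑ χ ∈ univ.erase (1 : DirichletCharacter ℂ d), g (e χ) := by
          refine sum_congr rfl fun χ _ => ?_
          rw [hg, he]
          simp only
          rw [hSS χ]
      _ = ∑ y ∈ (univ.erase (1 : DirichletCharacter ℂ d)).image e, g y := by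
          rw [sum_image fun x _ y _ h => hinj h]
      _ ≤ _ := by
          refine sum_le_sum_of_subset_of_nonneg ?_ fun _ _ _ => hg0 _
          intro y hy
          obtain ⟨χ, hχ, rfl⟩ := mem_image.1 hy
          have hχ1 : χ ≠ 1 := (mem_erase.1 hχ).1
          rw [mem_sigma]
          refine ⟨?_, ?_⟩
          · rw [mem_erase, Nat.mem_divisors]
            refine ⟨?_, χ.conductor_dvd_level, hd0⟩
            intro h
            exact hχ1 (χ.eq_one_iff_conductor_eq_one.2 h)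
          · have : NeZero χ.conductor := ⟨χ.conductor_ne_zero⟩
            change χ.primitiveCharacter ∈ prim χ.conductor
            rw [prim_eq, mem_filter]
            exact ⟨mem_univ _, χ.primitiveCharacter_isPrimitive⟩
  refine hstep1.trans ?_
  simp only [← Finset.sum_mul]
  set G : ℕ → ℝ := fun c => (∑ ψ ∈ prim c, ‖SS P ψ‖ ^ u) * v c with hG
  have hG0 : ∀ c, 0 ≤ G c := fun c =>
    mul_nonneg (sum_nonneg fun _ _ => by positivity) (hv c)
  change ∑ c ∈ d.divisors.erase 1, G c ≤ ∑ I ∈ J.powerset.erase ∅, G (∏ q ∈ I, q)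
  rw [← sum_image (f := G) (g := fun I : Finset ℕ => ∏ q ∈ I, q)
    (s := J.powerset.erase ∅) (fun I hI I' hI' h => prod_injOn hJ
      (mem_powerset.1 (mem_erase.1 hI).2) (mem_powerset.1 (mem_erase.1 hI').2) h)]
  refine sum_le_sum_of_subset_of_nonneg ?_ fun _ _ _ => hG0 _
  intro c hc
  obtain ⟨hc1, hc2⟩ := mem_erase.1 hc
  obtain ⟨hc3, _⟩ := Nat.mem_divisors.1 hc2
  have hsq : Squarefree c := by
    rw [hd] at hc3
    exact (sqf_prod hJ).squarefree_of_dvd hc3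
  rw [mem_image]
  refine ⟨c.primeFactors, ?_, Nat.prod_primeFactors_of_squarefree hsq⟩
  rw [mem_erase, mem_powerset]
  refine ⟨?_, ?_⟩
  · intro h
    rw [Nat.primeFactors_eq_empty] at h
    rcases h with h | h
    · exact hsq.ne_zero h
    · exact hc1 h
  · intro p hp
    have h1 := Nat.primeFactors_mono hc3 hd0 hp
    rwa [hd, Nat.primeFactors_prod hJ] at h1

/-- The existence theorem with a short variable. -/
theorem fam2 : ∃ C : ℝ, 0 < C ∧ ∀ (P P' : Finset ℕ) (Y u j S : ℕ) (τ : ℝ),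
    (∀ p ∈ P, p.Prime ∧ p ≤ Y) → (∀ q ∈ P', q.Prime ∧ q ≤ Y) → Disjoint P P' → P.Nonempty →
    1 ≤ Y → j ≤ P'.card → 0 < τ → (∀ q ∈ P', 4 * j ≤ q) → 4 * j ≤ S → 1 ≤ S →
    ∑ i ∈ Icc 1 j, (2 * 2 ^ j * Real.sqrt ((Y : ℝ) ^ i) / S) *
      (C * (4 * (j : ℝ) ^ 3 * Y ^ 2 / (P'.card * (P.card : ℝ) ^ 2)) ^ i *
      (1 / τ) ^ (4 * i - u) + 2 ^ j * Y ^ i * τ ^ u) < 1 →
    ∃ J ⊆ P', J.card = j ∧ ∃ x ∈ tup P u, ∃ a < S, ∃ b < S,
      ((∏ q ∈ J, q : ℕ) : ℤ) ∣ (∏ i, (x i : ℤ)) * ((a : ℤ) - b) + 1 := by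
  classical
  obtain ⟨C, hC, hcb⟩ := cond_bound
  refine ⟨C, hC, ?_⟩
  intro P P' Y u j S τ hP hP' hdis hne hY hj hτ hq4 hS4 hS1 hsmall
  by_contra hno
  push Not at hno
  set M : ℕ := P'.card with hM
  have hcard : (0 : ℝ) < P.card := by exact_mod_cast hne.card_pos
  have hY' : (1 : ℝ) ≤ Y := by exact_mod_cast hY
  have hS0 : (0 : ℝ) < S := by exact_mod_cast hS1
  have hpr : ∀ q ∈ P', q.Prime := fun q hq => (hP' q hq).1
  set v : ℕ → ℝ := fun r => 2 ^ j * (Real.sqrt r * S) with hv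
  have hv0 : ∀ r, 0 ≤ v r := fun r => by rw [hv]; positivity
  set Γ : Finset ℕ → ℝ := fun I => ∑ ψ ∈ prim (∏ q ∈ I, q), (‖SS P ψ‖ / P.card) ^ u with hΓ
  have hΓ0 : ∀ I, 0 ≤ Γ I := fun I => sum_nonneg fun _ _ => by positivity
  set Δ : Finset ℕ → ℝ := fun I => Γ I * (v (∏ q ∈ I, q) / ((S : ℝ) ^ 2 / 2)) with hΔ
  have hΔ0 : ∀ I, 0 ≤ Δ I := fun I => mul_nonneg (hΓ0 I) (div_nonneg (hv0 _) (by positivity))
  -- each J contributes at least 1
  have h1 : ∀ J ∈ powersetCard j P', 1 ≤ ∑ i ∈ Icc 1 j, ∑ I ∈ powersetCard i J, Δ I := by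
    intro J hJ
    obtain ⟨hJ1, hJ2⟩ := mem_powersetCard.1 hJ
    have hprJ : ∀ q ∈ J, q.Prime := fun q hq => hpr q (hJ1 hq)
    have hne0 : NeZero (∏ q ∈ J, q) := ⟨(prod_pos_of hprJ).ne'⟩
    have hcop : ∀ p ∈ P, p.Coprime (∏ q ∈ J, q) := by
      intro p hp
      refine Nat.Coprime.prod_right fun q hq => ?_
      rw [Nat.coprime_primes (hP p hp).1 (hprJ q hq)]
      rintro rfl
      exact disjoint_left.1 hdis hp (hJ1 hq)
    rw [← powerset_split J j hJ2]
    by_contra hlt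
    push Not at hlt
    obtain ⟨w, hw1, hw2⟩ := W_prin J hprJ S (fun q hq => by rw [hJ2]; exact hq4 q (hJ1 hq))
      (by rw [hJ2]; exact hS4) hS1
    have hw0 : 0 ≤ w := le_trans (by positivity) hw1
    have h2 := sum_chars_leW P J u v hv0 hprJ rfl hcop
    have h3 : ∑ I ∈ J.powerset.erase ∅, (∑ ψ ∈ prim (∏ q ∈ I, q), ‖SS P ψ‖ ^ u) *
        v (∏ q ∈ I, q) =
        (∑ I ∈ J.powerset.erase ∅, Δ I) * ((P.card : ℝ) ^ u * ((S : ℝ) ^ 2 / 2)) := by
      rw [Finset.sum_mul]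
      refine sum_congr rfl fun I _ => ?_
      have e1 : ∑ ψ ∈ prim (∏ q ∈ I, q), ‖SS P ψ‖ ^ u = Γ I * (P.card : ℝ) ^ u := by
        rw [hΓ]
        simp only
        rw [Finset.sum_mul]
        refine sum_congr rfl fun ψ _ => ?_
        rw [div_pow]
        field_simp
      rw [e1, hΔ]
      simp only
      field_simp
    have h4 : ∑ χ ∈ univ.erase (1 : DirichletCharacter ℂ (∏ q ∈ J, q)),
        ‖SS P χ‖ ^ u * v χ.conductor < (P.card : ℝ) ^ u * w := by
      refine h2.trans_lt ?_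
      rw [h3]
      calc (∑ I ∈ J.powerset.erase ∅, Δ I) * ((P.card : ℝ) ^ u * ((S : ℝ) ^ 2 / 2)) <
          1 * ((P.card : ℝ) ^ u * ((S : ℝ) ^ 2 / 2)) :=
            mul_lt_mul_of_pos_right hlt (by positivity)
        _ = (P.card : ℝ) ^ u * ((S : ℝ) ^ 2 / 2) := one_mul _
        _ ≤ _ := mul_le_mul_of_nonneg_left hw1 (by positivity)
    obtain ⟨x, hx, a, ha, b, hb, hdvd⟩ := exists_tuple2 P u S w v hcop hw0 hw2
      (fun χ hχ => by
        have := W2 J hprJ rfl hχ S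
        rw [hJ2] at this
        exact this) h4
    exact hno J hJ1 hJ2 x hx a ha b hb hdvd
  -- sum over J
  have h2 : (M.choose j : ℝ) ≤ ∑ i ∈ Icc 1 j, ((M - i).choose (j - i) : ℝ) *
      ∑ I ∈ powersetCard i P', Δ I := by
    calc (M.choose j : ℝ) = ∑ J ∈ powersetCard j P', (1 : ℝ) := by
          rw [sum_const, card_powersetCard, nsmul_eq_mul, mul_one]
      _ ≤ ∑ J ∈ powersetCard j P', ∑ i ∈ Icc 1 j, ∑ I ∈ powersetCard i J, Δ I := sum_le_sum h1
      _ = ∑ i ∈ Icc 1 j, ∑ J ∈ powersetCard j P', ∑ I ∈ powersetCard i J, Δ I := sum_comm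
      _ ≤ _ := by
          refine sum_le_sum fun i _ => ?_
          have h3 : ∑ J ∈ powersetCard j P', ∑ I ∈ powersetCard i J, Δ I =
              ∑ I ∈ powersetCard i P', ∑ _J ∈ (powersetCard j P').filter (fun J => I ⊆ J), Δ I := by
            refine sum_comm' ?_
            intro J I
            simp only [mem_powersetCard, mem_filter]
            constructor
            · rintro ⟨⟨h4, h5⟩, h6, h7⟩
              exact ⟨⟨⟨h4, h5⟩, h6⟩, h6.trans h4, h7⟩
            · rintro ⟨⟨⟨h4, h5⟩, h6⟩, _, h7⟩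
              exact ⟨⟨h4, h5⟩, h6, h7⟩
          rw [h3, Finset.mul_sum]
          refine sum_le_sum fun I hI => ?_
          rw [sum_const, nsmul_eq_mul]
          refine mul_le_mul_of_nonneg_right ?_ (hΔ0 I)
          exact_mod_cast card_sup P' I j i hI
  have hcj : (0 : ℝ) < M.choose j := by exact_mod_cast Nat.choose_pos hj
  have h3 : ∀ i ∈ Icc 1 j, ((M - i).choose (j - i) : ℝ) * ∑ I ∈ powersetCard i P', Δ I ≤
      M.choose j * ((2 * 2 ^ j * Real.sqrt ((Y : ℝ) ^ i) / S) *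
      (C * (4 * (j : ℝ) ^ 3 * Y ^ 2 / (M * (P.card : ℝ) ^ 2)) ^ i *
      (1 / τ) ^ (4 * i - u) + 2 ^ j * Y ^ i * τ ^ u)) := by
    intro i hi
    obtain ⟨hi1, hi2⟩ := mem_Icc.1 hi
    have hM0 : (0 : ℝ) < M := by exact_mod_cast (by omega : 0 < M)
    have hj0 : (0 : ℝ) < j := by exact_mod_cast (by omega : 0 < j)
    have h4 := hcb P P' Y u i τ hP hP' hne hY hτ
    have h5 : ((M - i).choose (j - i) : ℝ) ≤ M.choose j * ((j : ℝ) / M) ^ i := by
      have := choose_step M j i hj hi2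
      have h6 : ((M - i).choose (j - i) : ℝ) * (M : ℝ) ^ i ≤ M.choose j * (j : ℝ) ^ i := by
        exact_mod_cast this
      rw [div_pow, ← mul_div_assoc, le_div_iff₀ (by positivity)]
      exact h6
    have h6 : ((M - i).choose (j - i) : ℝ) * M.choose i ≤ M.choose j * 2 ^ j := by
      have h7 : M.choose j * j.choose i = M.choose i * (M - i).choose (j - i) :=
        Nat.choose_mul hi2
      have h8 : j.choose i ≤ 2 ^ j := Nat.choose_le_two_pow _ _
      have h9 : (M - i).choose (j - i) * M.choose i ≤ M.choose j * 2 ^ j := by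
        rw [mul_comm, ← h7]
        exact Nat.mul_le_mul_left _ h8
      exact_mod_cast h9
    have h7 : ((2 * i).factorial : ℝ) ≤ (4 * (j : ℝ) ^ 2) ^ i := by
      have h8 : (2 * i).factorial ≤ (2 * i) ^ (2 * i) := Nat.factorial_le_pow _
      have h9 : (2 * i) ^ (2 * i) ≤ (2 * j) ^ (2 * i) := Nat.pow_le_pow_left (by omega) _
      have h10 : (2 * j) ^ (2 * i) = (4 * j ^ 2) ^ i := by
        rw [pow_mul]
        congr 1
        ring
      have := h8.trans (h9.trans h10.le)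
      exact_mod_cast this
    set κ : ℝ := 2 * 2 ^ j * Real.sqrt ((Y : ℝ) ^ i) / S with hκ
    have hκ0 : 0 ≤ κ := by rw [hκ]; positivity
    have h8 : ∑ I ∈ powersetCard i P', Δ I ≤ κ * ∑ I ∈ powersetCard i P', Γ I := by
      rw [Finset.mul_sum]
      refine sum_le_sum fun I hI => ?_
      obtain ⟨hI1, hI2⟩ := mem_powersetCard.1 hI
      rw [hΔ]
      simp only
      rw [mul_comm]
      refine mul_le_mul_of_nonneg_right ?_ (hΓ0 I)
      have h9 : Real.sqrt ((∏ q ∈ I, q : ℕ) : ℝ) ≤ Real.sqrt ((Y : ℝ) ^ i) := by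
        refine Real.sqrt_le_sqrt ?_
        exact_mod_cast prod_le_pow (fun q hq => (hP' q (hI1 hq)).2) hI2
      rw [hv, hκ]
      simp only
      rw [div_le_div_iff₀ (by positivity) hS0]
      calc 2 ^ j * (Real.sqrt ((∏ q ∈ I, q : ℕ) : ℝ) * S) * S =
          Real.sqrt ((∏ q ∈ I, q : ℕ) : ℝ) * (2 ^ j * S ^ 2) := by ring
        _ ≤ Real.sqrt ((Y : ℝ) ^ i) * (2 ^ j * S ^ 2) :=
          mul_le_mul_of_nonneg_right h9 (by positivity)
        _ = _ := by ring
    calc ((M - i).choose (j - i) : ℝ) * ∑ I ∈ powersetCard i P', Δ I ≤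
        ((M - i).choose (j - i) : ℝ) * (κ * ∑ I ∈ powersetCard i P', Γ I) :=
          mul_le_mul_of_nonneg_left h8 (Nat.cast_nonneg _)
      _ = κ * (((M - i).choose (j - i) : ℝ) * ∑ I ∈ powersetCard i P', Γ I) := by ring
      _ ≤ κ * (((M - i).choose (j - i) : ℝ) * ((1 / τ) ^ (4 * i - u) * (C * (Y : ℝ) ^ (2 * i) *
          (2 * i).factorial / (P.card : ℝ) ^ (2 * i)) + M.choose i * ((Y : ℝ) ^ i * τ ^ u))) :=
          mul_le_mul_of_nonneg_left (mul_le_mul_of_nonneg_left h4 (Nat.cast_nonneg _)) hκ0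
      _ = κ * (((M - i).choose (j - i) : ℝ) * ((1 / τ) ^ (4 * i - u) * (C * (Y : ℝ) ^ (2 * i) *
          (2 * i).factorial / (P.card : ℝ) ^ (2 * i))) +
          (((M - i).choose (j - i) : ℝ) * M.choose i) * ((Y : ℝ) ^ i * τ ^ u)) := by ring
      _ ≤ κ * ((M.choose j * ((j : ℝ) / M) ^ i) * ((1 / τ) ^ (4 * i - u) *
          (C * (Y : ℝ) ^ (2 * i) * (4 * (j : ℝ) ^ 2) ^ i / (P.card : ℝ) ^ (2 * i))) +
          (M.choose j * 2 ^ j) * ((Y : ℝ) ^ i * τ ^ u)) := by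
          refine mul_le_mul_of_nonneg_left ?_ hκ0
          gcongr
      _ = _ := by
          have e1 : (4 * (j : ℝ) ^ 3 * Y ^ 2 / (M * (P.card : ℝ) ^ 2)) ^ i =
              ((j : ℝ) / M) ^ i * ((Y : ℝ) ^ (2 * i) * (4 * (j : ℝ) ^ 2) ^ i /
                (P.card : ℝ) ^ (2 * i)) := by
            rw [pow_mul, pow_mul, ← mul_pow, ← div_pow, ← mul_pow]
            congr 1
            field_simp
          rw [e1]
          ring
  have h4 := h2.trans (sum_le_sum h3)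
  rw [← Finset.mul_sum] at h4
  have h5 := mul_lt_mul_of_pos_left hsmall hcj
  rw [mul_one] at h5
  exact absurd h4 (not_le.2 h5)

end Pool.Agent.Lib.MP_bdd9a3_nt.SP
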