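import Mathlib
import Pool.Agent.Lib.MP_bdd9a3_nt.SP.Fam3
import Pool.Agent.Lib.MP_bdd9a3_nt.SP.Asy

set_option autoImplicit false

/-!
The range `2 < A ≤ 3`.
-/

namespace Pool.Agent.Lib.MP_bdd9a3_nt.SP

open Finset Filter

lemma sum_small2 {C B Y β ρ σ γ : ℝ} {j S : ℕ} (hC : 0 < C) (hY : 16 ≤ Y) (hB0 : 0 ≤ B)
    (hB : B ≤ Y ^ (-β)) (hρ : 1 / 2 - β = ρ) (hρ0 : 0 ≤ ρ) (hσ : ρ ≤ σ - γ)
    (hS : Y ^ (σ * j) ≤ S) (hS1 : 1 ≤ (S : ℝ)) (hYγ : 16 ≤ Y ^ γ)
    (h4 : (2 * C + 2) * ((j : ℝ) * (1 / 8) ^ j) < 1) :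
    ∑ i ∈ Icc 1 j, (2 * 2 ^ j * Real.sqrt (Y ^ i) / S) *
      (C * B ^ i * (1 / (1 / Y)) ^ (4 * i - 4 * j) + 2 ^ j * Y ^ i * (1 / Y) ^ (4 * j)) < 1 := by
  have hY0 : 0 < Y := by linarith
  have hY1 : 1 ≤ Y := by linarith
  have hS0 : (0 : ℝ) < S := by linarith
  have key : ∀ i ∈ Icc 1 j, (2 * 2 ^ j * Real.sqrt (Y ^ i) / S) *
      (C * B ^ i * (1 / (1 / Y)) ^ (4 * i - 4 * j) + 2 ^ j * Y ^ i * (1 / Y) ^ (4 * j)) ≤
      (2 * C + 2) * (1 / 8) ^ j := by
    intro i hi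
    obtain ⟨hi1, hi2⟩ := mem_Icc.1 hi
    have e0 : 4 * i - 4 * j = 0 := by omega
    rw [e0, pow_zero, mul_one]
    have hsq : Real.sqrt (Y ^ i) = Y ^ ((i : ℝ) / 2) := by
      rw [Real.sqrt_eq_rpow, ← Real.rpow_natCast, ← Real.rpow_mul hY0.le]
      congr 1
      ring
    have hBi : B ^ i ≤ Y ^ (-β * i) := by
      rw [Real.rpow_mul hY0.le, Real.rpow_natCast]
      exact pow_le_pow_left₀ hB0 hB i
    have hir : (i : ℝ) ≤ j := by exact_mod_cast hi2
    -- first part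
    have p1 : 2 * 2 ^ j * Real.sqrt (Y ^ i) / S * (C * B ^ i) ≤ 2 * C * (1 / 8) ^ j := by
      have q1 : Real.sqrt (Y ^ i) * B ^ i ≤ Y ^ (ρ * j) := by
        rw [hsq]
        calc Y ^ ((i : ℝ) / 2) * B ^ i ≤ Y ^ ((i : ℝ) / 2) * Y ^ (-β * i) := by gcongr
          _ = Y ^ (ρ * i) := by
            rw [← Real.rpow_add hY0]
            congr 1
            rw [← hρ]
            ring
          _ ≤ Y ^ (ρ * j) := Real.rpow_le_rpow_of_exponent_le hY1
              (mul_le_mul_of_nonneg_left hir hρ0)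
      have q2 : Y ^ (ρ * j) * 16 ^ j ≤ S := by
        calc Y ^ (ρ * j) * 16 ^ j ≤ Y ^ (ρ * j) * (Y ^ γ) ^ j := by gcongr
          _ = Y ^ ((ρ + γ) * j) := by
            rw [← Real.rpow_natCast (Y ^ γ) j, ← Real.rpow_mul hY0.le, ← Real.rpow_add hY0]
            congr 1
            ring
          _ ≤ Y ^ (σ * j) := Real.rpow_le_rpow_of_exponent_le hY1
              (mul_le_mul_of_nonneg_right (by linarith) (Nat.cast_nonneg _))
          _ ≤ S := hS
      have q3 : Real.sqrt (Y ^ i) * B ^ i / S ≤ (1 / 16) ^ j := by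
        rw [div_le_iff₀ hS0]
        have q4 : (16 : ℝ) ^ j * (1 / 16) ^ j = 1 := by
          rw [← mul_pow]
          norm_num
        calc Real.sqrt (Y ^ i) * B ^ i ≤ Y ^ (ρ * j) := q1
          _ = (Y ^ (ρ * j) * 16 ^ j) * (1 / 16) ^ j := by
            rw [mul_assoc, q4, mul_one]
          _ ≤ S * (1 / 16) ^ j := by gcongr
          _ = _ := by ring
      calc 2 * 2 ^ j * Real.sqrt (Y ^ i) / S * (C * B ^ i) =
          2 * C * 2 ^ j * (Real.sqrt (Y ^ i) * B ^ i / S) := by ring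
        _ ≤ 2 * C * 2 ^ j * (1 / 16) ^ j := by gcongr
        _ = 2 * C * (2 * (1 / 16)) ^ j := by rw [mul_pow]; ring
        _ = _ := by norm_num
    -- second part
    have p2 : 2 * 2 ^ j * Real.sqrt (Y ^ i) / S * (2 ^ j * Y ^ i * (1 / Y) ^ (4 * j)) ≤
        2 * (1 / 8) ^ j := by
      have q1 : Real.sqrt (Y ^ i) ≤ Y ^ j := by
        rw [Real.sqrt_le_left (by positivity), ← pow_mul]
        exact pow_le_pow_right₀ hY1 (by omega)
      have q2 : Y ^ i ≤ Y ^ j := pow_le_pow_right₀ hY1 hi2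
      have q3 : (1 / Y) ^ (4 * j) = (1 / Y) ^ j * (1 / Y) ^ j * (1 / Y) ^ (2 * j) := by
        rw [← pow_add, ← pow_add]
        congr 1
        ring
      have q4 : Y ^ j * (1 / Y) ^ j = 1 := by
        rw [← mul_pow, mul_one_div_cancel hY0.ne', one_pow]
      have q5 : (1 / Y) ^ (2 * j) ≤ (1 / 32) ^ j := by
        rw [pow_mul]
        refine pow_le_pow_left₀ (by positivity) ?_ j
        rw [div_pow, one_pow]
        exact one_div_le_one_div_of_le (by norm_num) (by nlinarith)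
      calc 2 * 2 ^ j * Real.sqrt (Y ^ i) / S * (2 ^ j * Y ^ i * (1 / Y) ^ (4 * j)) ≤
          2 * 2 ^ j * Real.sqrt (Y ^ i) * (2 ^ j * Y ^ i * (1 / Y) ^ (4 * j)) := by
            refine mul_le_mul_of_nonneg_right ?_ (by positivity)
            exact div_le_self (by positivity) hS1
        _ ≤ 2 * 2 ^ j * Y ^ j * (2 ^ j * Y ^ j * (1 / Y) ^ (4 * j)) := by gcongr
        _ = 2 * (2 ^ j * 2 ^ j) * (Y ^ j * (1 / Y) ^ j) * (Y ^ j * (1 / Y) ^ j) *
            (1 / Y) ^ (2 * j) := by rw [q3]; ring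
        _ = 2 * 4 ^ j * (1 / Y) ^ (2 * j) := by
            rw [q4, ← mul_pow]
            norm_num
        _ ≤ 2 * 4 ^ j * (1 / 32) ^ j := by gcongr
        _ = 2 * (4 * (1 / 32)) ^ j := by rw [mul_pow]; ring
        _ = _ := by norm_num
    calc 2 * 2 ^ j * Real.sqrt (Y ^ i) / S * (C * B ^ i + 2 ^ j * Y ^ i * (1 / Y) ^ (4 * j)) =
        2 * 2 ^ j * Real.sqrt (Y ^ i) / S * (C * B ^ i) +
        2 * 2 ^ j * Real.sqrt (Y ^ i) / S * (2 ^ j * Y ^ i * (1 / Y) ^ (4 * j)) := by ring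
      _ ≤ 2 * C * (1 / 8) ^ j + 2 * (1 / 8) ^ j := add_le_add p1 p2
      _ = _ := by ring
  refine lt_of_le_of_lt (sum_le_sum key) ?_
  rw [sum_const, Nat.card_Icc, Nat.add_sub_cancel, nsmul_eq_mul]
  linarith

theorem part_a (A θ : ℝ) (hA : 2 < A) (hA3 : A ≤ 3) (hθ : θ < 10 * A / (7 * A + 6)) (N : ℕ) :
    ∃ n : ℕ, N < n ∧ ∃ m : ℕ, m ∣ n * (n + 1) ∧ (n : ℝ) ^ θ < m ∧
      ∀ p : ℕ, p.Prime → p ∣ m → (p : ℝ) < (Real.log n) ^ A := by
  have hA0 : 0 < A := by linarith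
  set t0 : ℝ := max θ 0 with ht0
  have ht00 : 0 ≤ t0 := le_max_right _ _
  have htt : θ ≤ t0 := le_max_left _ _
  have ht0' : t0 < 10 * A / (7 * A + 6) := max_lt hθ (by positivity)
  set σA : ℝ := 3 / A - 1 / 2 with hσA
  have h3A : 1 ≤ 3 / A := by rw [le_div_iff₀ hA0]; linarith
  have hσA1 : 1 / 2 ≤ σA := by rw [hσA]; linarith
  have hkey : t0 * (4 + σA) < 5 := by
    rw [lt_div_iff₀ (by positivity)] at ht0'
    have e : t0 * (4 + σA) = t0 * (7 * A + 6) / (2 * A) := by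
      rw [hσA]
      field_simp
      ring
    rw [e, div_lt_iff₀ (by positivity)]
    linarith
  set η : ℝ := (5 - t0 * (4 + σA)) / (2 * (t0 + 1)) with hη
  have hη0 : 0 < η := div_pos (by linarith) (by positivity)
  set σ : ℝ := σA + η with hσ
  have hσ1 : 1 / 2 ≤ σ := by rw [hσ]; linarith
  have hδ : t0 * (4 + σ) < 5 := by
    have e1 : η * (2 * (t0 + 1)) = 5 - t0 * (4 + σA) := by
      rw [hη]
      field_simp
    have e2 : 0 < η * (t0 + 2) := mul_pos hη0 (by linarith)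
    rw [hσ]
    linarith
  have hAA : max 2 (3 / (σ + 1 / 2)) < A := by
    refine max_lt hA ?_
    rw [div_lt_iff₀ (by linarith)]
    have : 3 / A < σ + 1 / 2 := by rw [hσ, hσA]; linarith
    rw [div_lt_iff₀ hA0] at this
    linarith
  obtain ⟨A', hA'1, hA'2⟩ := exists_between hAA
  have hA'two : 2 < A' := lt_of_le_of_lt (le_max_left _ _) hA'1
  have hA'0 : 0 < A' := by linarith
  have hA'3 : 3 / A' < σ + 1 / 2 := by
    have : 3 / (σ + 1 / 2) < A' := lt_of_le_of_lt (le_max_right _ _) hA'1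
    rw [div_lt_iff₀ (by linarith)] at this
    rw [div_lt_iff₀ hA'0]
    linarith
  set γ : ℝ := min (1 / 4) ((σ + 1 / 2 - 3 / A') / 2) with hγdef
  have hγ0 : 0 < γ := lt_min (by norm_num) (by linarith)
  have hγ1 : γ ≤ 1 / 4 := min_le_left _ _
  have hγ2 : γ ≤ (σ + 1 / 2 - 3 / A') / 2 := min_le_right _ _
  set β : ℝ := 1 - 3 / A' - γ with hβ
  have hγβ : γ = 1 - 3 / A' - β := by rw [hβ]; ring
  set ρ : ℝ := 1 / 2 - β with hρ
  have h3A' : 1 < 3 / A' := by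
    rw [lt_div_iff₀ hA'0]
    linarith
  have h3A'2 : 3 / A' < 3 / 2 := by
    rw [div_lt_div_iff₀ hA'0 two_pos]
    linarith
  have hρ0 : 0 ≤ ρ := by rw [hρ, hβ]; linarith
  have hρσ : ρ ≤ σ - γ := by rw [hρ, hβ]; linarith
  obtain ⟨C, hC, hfam⟩ := fam2
  -- the functions
  set Zf : ℕ → ℕ := fun j => ⌈((4 * j : ℕ) : ℝ) ^ A'⌉₊ with hZf
  have t4 : Tendsto (fun j : ℕ => ((4 * j : ℕ) : ℝ)) atTop atTop :=
    tendsto_natCast_atTop_atTop.comp (tendsto_atTop_mono (fun j => Nat.le_mul_of_pos_left _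
      (by norm_num)) tendsto_id)
  have tZ : Tendsto Zf atTop atTop :=
    tendsto_nat_ceil_atTop.comp ((tendsto_rpow_atTop hA'0).comp t4)
  have t4Z : Tendsto (fun j => 4 * Zf j) atTop atTop :=
    tendsto_atTop_mono (fun j => Nat.le_mul_of_pos_left _ (by norm_num)) tZ
  have tY : Tendsto (fun j => ((4 * Zf j : ℕ) : ℝ)) atTop atTop :=
    tendsto_natCast_atTop_atTop.comp t4Z
  have e1 := tZ.eventually PP_card
  have e1' := t4Z.eventually PP_card
  have e2 : ∀ᶠ j : ℕ in atTop, 8192 * (Real.log ((4 * Zf j : ℕ) : ℝ)) ^ 3 ≤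
      ((4 * Zf j : ℕ) : ℝ) ^ γ := by
    refine tY.eventually (p := fun x : ℝ => 8192 * (Real.log x) ^ 3 ≤ x ^ γ) ?_
    have h := (isLittleO_log_rpow_rpow_atTop (s := γ) 3 hγ0).bound
      (by norm_num : (0 : ℝ) < 1 / 8192)
    filter_upwards [h, eventually_ge_atTop 1] with x hx hx1
    rw [Real.norm_of_nonneg (Real.rpow_nonneg (Real.log_nonneg hx1) _),
      Real.norm_of_nonneg (by positivity)] at hx
    have : Real.log x ^ (3 : ℝ) = Real.log x ^ 3 := by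
      rw [← Real.rpow_natCast]
      norm_num
    rw [this] at hx
    linarith
  have e4 : ∀ᶠ j : ℕ in atTop, 16 ≤ ((4 * Zf j : ℕ) : ℝ) ^ γ :=
    ((tendsto_rpow_atTop hγ0).comp tY).eventually_ge_atTop 16
  have e5 : ∀ᶠ j : ℕ in atTop, (2 * C + 2) * ((j : ℝ) * (1 / 8) ^ j) < 1 := by
    have h := (tendsto_self_mul_const_pow_of_lt_one (r := (1 / 8 : ℝ)) (by norm_num)
      (by norm_num)).const_mul (2 * C + 2)
    rw [mul_zero] at h
    exact h.eventually (gt_mem_nhds (by norm_num))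
  have e6 : ∀ᶠ j : ℕ in atTop, 9 ≤ ((4 * j : ℕ) : ℝ) ^ (A - A') :=
    ((tendsto_rpow_atTop (by linarith : 0 < A - A')).comp t4).eventually_ge_atTop 9
  set δ : ℝ := 5 - t0 * (4 + σ) with hδdef
  have hδ0 : 0 < δ := by rw [hδdef]; linarith
  have e8 : ∀ᶠ j : ℕ in atTop, 5 * Real.log 16 + t0 * Real.log 2 + 1 ≤
      δ * Real.log ((4 * Zf j : ℕ) : ℝ) :=
    ((Tendsto.const_mul_atTop hδ0 Real.tendsto_log_atTop).comp tY).eventually_ge_atTop _
  have e9 := tZ.eventually_ge_atTop 16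
  obtain ⟨j, h1, h1', h2, h4, h5, h6, h8, h9, h10⟩ :=
    (e1.and (e1'.and (e2.and (e4.and (e5.and (e6.and (e8.and
      (e9.and (eventually_ge_atTop (N + 1)))))))))).exists
  set Z : ℕ := Zf j with hZ
  set u : ℕ := 4 * j with hu
  set Y : ℝ := ((4 * Z : ℕ) : ℝ) with hY
  have hYZ : Y = 4 * Z := by rw [hY]; push_cast; ring
  have hZ16 : (16 : ℝ) ≤ Z := by exact_mod_cast h9
  have hY0 : 0 < Y := by rw [hYZ]; linarith
  have hY1 : 1 ≤ Y := by rw [hYZ]; linarith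
  have huZ : (u : ℝ) ^ A' ≤ Z := Nat.le_ceil _
  have huZ' : (Z : ℝ) < (u : ℝ) ^ A' + 1 := Nat.ceil_lt_add_one (by positivity)
  have hj1n : 1 ≤ j := by omega
  have hu1 : (1 : ℝ) ≤ u := by exact_mod_cast (by omega : 1 ≤ u)
  have hu0 : (0 : ℝ) < u := by linarith
  have hjr : (1 : ℝ) ≤ j := by exact_mod_cast hj1n
  have huj : (u : ℝ) = 4 * j := by rw [hu]; push_cast; ring
  have hju : j ≤ u := by omega
  -- u^2 ≤ Z
  have hu2Z : (u : ℝ) ^ 2 ≤ Z := by
    refine le_trans ?_ huZ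
    rw [← Real.rpow_natCast]
    refine Real.rpow_le_rpow_of_exponent_le hu1 ?_
    push_cast
    exact hA'two.le
  obtain ⟨hB, hB'⟩ := B_le (Z := Z) (u := u) (j := j) hA'0 (by omega) hju huZ hγβ h1 h1' h2
  have hL0 : 0 < Real.log Y := Real.log_pos (by rw [hYZ]; linarith)
  have hlogZ0 : 0 < Real.log (Z : ℝ) := Real.log_pos (by linarith)
  have hlogZL : Real.log (Z : ℝ) ≤ Real.log Y :=
    Real.log_le_log (by linarith) (by rw [hYZ]; linarith)
  have hjM : j ≤ (PP Z).card := by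
    have hb1 : (8 * (u : ℝ) * Real.log Y) ^ 3 ≤ (Z : ℝ) ^ 3 := by
      refine hB'.trans ?_
      have : Y ^ (1 - β) ≤ Y ^ (2 : ℝ) :=
        Real.rpow_le_rpow_of_exponent_le hY1 (by rw [hβ]; linarith)
      rw [Real.rpow_two] at this
      refine this.trans ?_
      rw [hYZ]
      have z2 := mul_le_mul_of_nonneg_right hZ16 (by positivity : (0 : ℝ) ≤ (Z : ℝ) ^ 2)
      calc (4 * (Z : ℝ)) ^ 2 = 16 * (Z : ℝ) ^ 2 := by ring
        _ ≤ Z * (Z : ℝ) ^ 2 := z2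
        _ = (Z : ℝ) ^ 3 := by ring
    have hb2 : 8 * (u : ℝ) * Real.log Y ≤ Z := le_of_pow_le_pow_left₀ (by norm_num) (by linarith) hb1
    have hb3 : (u : ℝ) ≤ Z / (8 * Real.log Z) := by
      rw [le_div_iff₀ (by positivity)]
      have z3 := mul_le_mul_of_nonneg_left hlogZL hu0.le
      linarith
    have hb4 : (u : ℝ) ≤ ((PP Z).card : ℝ) := hb3.trans h1
    have : u ≤ (PP Z).card := by exact_mod_cast hb4
    omega
  -- the range of the short variable
  set S : ℕ := ⌈Y ^ (σ * j)⌉₊ with hSdef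
  have hYσ1 : 1 ≤ Y ^ (σ * j) := Real.one_le_rpow hY1 (by positivity)
  have hS : Y ^ (σ * j) ≤ S := Nat.le_ceil _
  have hS' : (S : ℝ) ≤ 2 * Y ^ (σ * j) := by
    have := Nat.ceil_lt_add_one (by positivity : 0 ≤ Y ^ (σ * j))
    linarith
  have hS1 : 1 ≤ (S : ℝ) := hYσ1.trans hS
  have hS1n : 1 ≤ S := by exact_mod_cast hS1
  have h4S : 4 * j ≤ S := by
    have c1 : (u : ℝ) ≤ Y ^ (1 / 2 : ℝ) := by
      rw [← Real.sqrt_eq_rpow]
      refine Real.le_sqrt_of_sq_le ?_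
      rw [hYZ]
      linarith
    have c2 : Y ^ (1 / 2 : ℝ) ≤ Y ^ (σ * j) :=
      Real.rpow_le_rpow_of_exponent_le hY1 (by
        have := le_mul_of_one_le_right (by linarith : 0 ≤ σ) hjr
        linarith)
    have c3 : (u : ℝ) ≤ S := c1.trans (c2.trans hS)
    exact_mod_cast c3
  -- apply the existence theorem
  have hmem4 : ∀ p ∈ PP (4 * Z), p.Prime ∧ p ≤ 4 * Z := fun p hp =>
    ⟨(mem_PP.1 hp).2.1, (mem_PP.1 hp).1⟩
  have hmem1 : ∀ q ∈ PP Z, q.Prime ∧ q ≤ 4 * Z := fun q hq =>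
    ⟨(mem_PP.1 hq).2.1, by have := (mem_PP.1 hq).1; omega⟩
  have hdis : Disjoint (PP (4 * Z)) (PP Z) := by
    rw [disjoint_left]
    intro p hp hp'
    have a1 := (mem_PP.1 hp).2.2
    have a2 := (mem_PP.1 hp').1
    omega
  have hcard0 : 0 < ((PP (4 * Z)).card : ℝ) := by
    refine lt_of_lt_of_le ?_ h1'
    positivity
  have hne : (PP (4 * Z)).Nonempty := by
    rw [← card_pos]
    exact_mod_cast hcard0
  have hq4 : ∀ q ∈ PP Z, 4 * j ≤ q := by
    intro q hq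
    have a1 := (mem_PP.1 hq).2.2
    have a2 : (u : ℝ) ^ 2 ≤ Z := hu2Z
    have a3 : u ^ 2 ≤ Z := by exact_mod_cast a2
    have a4 : 4 * u ≤ u ^ 2 := by
      rw [sq]
      exact Nat.mul_le_mul_right _ (by omega)
    omega
  have hY16 : 16 ≤ Y := by rw [hYZ]; linarith
  have hBnn : 0 ≤ 4 * (j : ℝ) ^ 3 * Y ^ 2 / ((PP Z).card * ((PP (4 * Z)).card : ℝ) ^ 2) :=
    div_nonneg (mul_nonneg (mul_nonneg (by norm_num) (pow_nonneg (Nat.cast_nonneg _) _))
      (sq_nonneg _)) (mul_nonneg (Nat.cast_nonneg _) (sq_nonneg _))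
  have hτ : 0 < 1 / Y := by positivity
  have hsum := sum_small2 hC hY16 hBnn hB hρ.symm hρ0 hρσ hS hS1 h4 h5
  have h4Z : 1 ≤ 4 * Z := by omega
  obtain ⟨J, hJ1, hJ2, x, hx, a, ha, b, hb, hdvd⟩ := hfam (PP (4 * Z)) (PP Z) (4 * Z) u j S
    (1 / Y) hmem4 hmem1 hdis hne h4Z hjM hτ hq4 h4S hS1n hsum
  have hxm : ∀ i, x i ∈ PP (4 * Z) := fun i => Fintype.mem_piFinset.1 hx i
  set X : ℕ := ∏ i, x i with hX
  set d : ℕ := ∏ q ∈ J, q with hd
  have hXz : (∏ i, (x i : ℤ)) = (X : ℤ) := by rw [hX]; push_cast; rfl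
  rw [hXz] at hdvd
  have hX0 : 0 < X := prod_pos fun i _ => ((mem_PP.1 (hxm i)).2.1).pos
  have hXY : (X : ℝ) ≤ Y ^ u := by
    have : X ≤ (4 * Z) ^ u := by
      rw [hX]
      calc ∏ i, x i ≤ ∏ _i : Fin u, (4 * Z) := prod_le_prod' fun i _ => (mem_PP.1 (hxm i)).1
        _ = (4 * Z) ^ u := by rw [prod_const, card_univ, Fintype.card_fin]
    rw [hY]
    exact_mod_cast this
  have hXlow : Z ^ u ≤ X := by
    rw [hX]
    calc Z ^ u = ∏ _i : Fin u, Z := by rw [prod_const, card_univ, Fintype.card_fin]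
      _ ≤ ∏ i, x i := prod_le_prod' fun i _ => by
        have := (mem_PP.1 (hxm i)).2.2
        omega
  have hdlow : ((Z : ℝ) / 4) ^ j ≤ (d : ℝ) := by
    rw [hd, Nat.cast_prod, ← hJ2, ← prod_const]
    refine prod_le_prod (fun _ _ => by positivity) fun q hq => ?_
    have a1 := (mem_PP.1 (hJ1 hq)).2.2
    have a2 : (Z : ℝ) < 4 * q := by exact_mod_cast a1
    linarith
  have hd1 : 1 < d := by
    have c1 : (4 : ℝ) ≤ (Z : ℝ) / 4 := by linarith
    have c2 : (1 : ℝ) < ((Z : ℝ) / 4) ^ j := one_lt_pow₀ (by linarith) (by omega)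
    exact_mod_cast c2.trans_le hdlow
  -- primes of X and d
  have hprX : ∀ p : ℕ, p.Prime → p ∣ X → (p : ℝ) ≤ Y := by
    intro p hp hpn
    obtain ⟨i, _, hi⟩ := (Prime.dvd_finsetProd_iff hp.prime _).1 hpn
    have : p = x i := (Nat.prime_dvd_prime_iff_eq hp (mem_PP.1 (hxm i)).2.1).1 hi
    rw [this, hY]
    exact_mod_cast (mem_PP.1 (hxm i)).1
  have hprd : ∀ p : ℕ, p.Prime → p ∣ d → (p : ℝ) ≤ Y := by
    intro p hp hpd
    obtain ⟨q, hq, hi⟩ := (Prime.dvd_finsetProd_iff hp.prime _).1 hpd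
    have : p = q := (Nat.prime_dvd_prime_iff_eq hp (mem_PP.1 (hJ1 hq)).2.1).1 hi
    rw [this, hY]
    exact_mod_cast (hmem1 q (hJ1 hq)).2
  -- the pair of consecutive integers
  obtain ⟨n, hnlow, hnup, hdiv⟩ : ∃ n : ℕ, X ≤ n + 1 ∧ n ≤ X * S ∧ X * d ∣ n * (n + 1) := by
    rcases lt_trichotomy ((a : ℤ) - b) 0 with hs | hs | hs
    · -- negative
      obtain ⟨t, ht⟩ : ∃ t : ℕ, (b : ℤ) - a = t := ⟨b - a, by omega⟩
      have ht1 : 1 ≤ t := by omega
      have htS : t ≤ S := by omega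
      have hXt : X ≤ X * t := Nat.le_mul_of_pos_right _ (by omega)
      refine ⟨X * t - 1, by omega, ?_, ?_⟩
      · have := Nat.mul_le_mul_left X htS
        omega
      · have e1 : X * t - 1 + 1 = X * t := by omega
        rw [e1]
        have e2 : (d : ℤ) ∣ ((X * t - 1 : ℕ) : ℤ) := by
          have e3 : ((X * t - 1 : ℕ) : ℤ) = -((X : ℤ) * ((a : ℤ) - b) + 1) := by
            rw [Nat.cast_sub (by omega)]
            push_cast
            rw [← ht]
            ring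
          rw [e3]
          exact (dvd_neg).2 hdvd
        have e4 : d ∣ X * t - 1 := by exact_mod_cast e2
        rw [mul_comm X d]
        exact Nat.mul_dvd_mul e4 (Dvd.intro _ rfl)
    · exfalso
      rw [hs, mul_zero, zero_add] at hdvd
      have : d ∣ 1 := by exact_mod_cast hdvd
      rw [Nat.dvd_one] at this
      omega
    · -- positive
      obtain ⟨t, ht⟩ : ∃ t : ℕ, (a : ℤ) - b = t := ⟨a - b, by omega⟩
      have ht1 : 1 ≤ t := by omega
      have htS : t ≤ S := by omega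
      have hXt : X ≤ X * t := Nat.le_mul_of_pos_right _ (by omega)
      refine ⟨X * t, by omega, Nat.mul_le_mul_left X htS, ?_⟩
      rw [ht] at hdvd
      have e4 : d ∣ X * t + 1 := by exact_mod_cast hdvd
      exact Nat.mul_dvd_mul (Dvd.intro _ rfl) e4
  -- size of n
  have hX16 : (16 : ℝ) ^ u ≤ X := by
    have c1 : (16 : ℕ) ^ u ≤ X := (Nat.pow_le_pow_left h9 u).trans hXlow
    exact_mod_cast c1
  have hexp : Real.exp u ≤ n := by
    have c1 : Real.exp u = Real.exp 1 ^ u := by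
      rw [← Real.exp_nat_mul, mul_one]
    have c2 : Real.exp 1 ^ u ≤ 4 ^ u :=
      pow_le_pow_left₀ (Real.exp_pos _).le (by have := Real.exp_one_lt_d9; linarith) u
    have c3 : (16 : ℝ) ^ u = 4 ^ u * 4 ^ u := by rw [← mul_pow]; norm_num
    have c4 : (4 : ℝ) ≤ 4 ^ u := by
      calc (4 : ℝ) = 4 ^ 1 := (pow_one _).symm
        _ ≤ 4 ^ u := pow_le_pow_right₀ (by norm_num) (by omega)
    have c5 : (X : ℝ) ≤ n + 1 := by exact_mod_cast hnlow
    have c6 : (4 : ℝ) * 4 ^ u ≤ 4 ^ u * 4 ^ u := mul_le_mul_of_nonneg_right c4 (by positivity)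
    rw [c1]
    linarith
  have hn0 : (0 : ℝ) < n := lt_of_lt_of_le (Real.exp_pos _) hexp
  have hlogn : (u : ℝ) ≤ Real.log n := by
    rw [Real.le_log_iff_exp_le hn0]
    exact hexp
  have hYA : Y < (Real.log n) ^ A := by
    have b1 : (u : ℝ) ^ A ≤ (Real.log n) ^ A := Real.rpow_le_rpow hu0.le hlogn hA0.le
    have b2 : (u : ℝ) ^ A = (u : ℝ) ^ A' * (u : ℝ) ^ (A - A') := by
      rw [← Real.rpow_add hu0]
      congr 1
      ring
    have b3 : 1 ≤ (u : ℝ) ^ A' := Real.one_le_rpow hu1 hA'0.le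
    have b4 := mul_le_mul_of_nonneg_left h6 (by linarith : 0 ≤ (u : ℝ) ^ A')
    rw [hYZ]
    linarith
  refine ⟨n, ?_, X * d, hdiv, ?_, ?_⟩
  · have b1 : (N : ℝ) < n := by
      have b2 : Real.log n < n := by
        have := Real.log_le_sub_one_of_pos hn0
        linarith
      have b3 : (N : ℝ) + 1 ≤ u := by exact_mod_cast (by omega : N + 1 ≤ u)
      linarith
    exact_mod_cast b1
  · -- n^θ < X d
    have hn1 : (1 : ℝ) ≤ n := by
      refine le_trans ?_ hexp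
      exact Real.one_le_exp hu0.le
    have hnle : (n : ℝ) ≤ 2 * Y ^ ((4 + σ) * j) := by
      calc (n : ℝ) ≤ X * S := by exact_mod_cast hnup
        _ ≤ Y ^ u * (2 * Y ^ (σ * j)) := by gcongr
        _ = 2 * (Y ^ u * Y ^ (σ * j)) := by ring
        _ = 2 * Y ^ ((4 + σ) * j) := by
          rw [← Real.rpow_natCast Y u, ← Real.rpow_add hY0, huj]
          congr 2
          ring
    have hnθ : (n : ℝ) ^ θ ≤ (2 * Y ^ ((4 + σ) * j)) ^ t0 :=
      (Real.rpow_le_rpow_of_exponent_le hn1 htt).trans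
        (Real.rpow_le_rpow hn0.le hnle ht00)
    refine lt_of_le_of_lt hnθ ?_
    have hZ4 : (Z : ℝ) / 4 = Y / 16 := by rw [hYZ]; ring
    have hY160 : 0 < Y / 16 := by positivity
    have hlow : (Y / 16) ^ (5 * j) ≤ ((X * d : ℕ) : ℝ) := by
      have c1 : (Y / 16) ^ u ≤ (X : ℝ) := by
        refine le_trans ?_ (by exact_mod_cast hXlow : ((Z : ℝ) ^ u ≤ X))
        refine pow_le_pow_left₀ hY160.le ?_ u
        rw [hYZ]
        linarith
      have c2 : (Y / 16) ^ j ≤ (d : ℝ) := by rw [← hZ4]; exact hdlow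
      have c3 : (Y / 16) ^ (5 * j) = (Y / 16) ^ u * (Y / 16) ^ j := by
        rw [← pow_add]
        congr 1
        omega
      rw [c3]
      push_cast
      gcongr
    refine lt_of_lt_of_le ?_ hlow
    have hbig : 0 < 2 * Y ^ ((4 + σ) * j) := by positivity
    rw [← Real.log_lt_log_iff (Real.rpow_pos_of_pos hbig _) (by positivity),
      Real.log_rpow hbig, Real.log_pow, Real.log_mul (by norm_num) (by positivity),
      Real.log_rpow hY0, Real.log_div hY0.ne' (by norm_num)]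
    push_cast
    have b3 : 0 < Real.log 16 := Real.log_pos (by norm_num)
    have b2 : 0 ≤ t0 * Real.log 2 := mul_nonneg ht00 (Real.log_nonneg (by norm_num))
    have b4 := mul_le_mul_of_nonneg_left h8 (by linarith : (0 : ℝ) ≤ j)
    have b5 : (j : ℝ) * (δ * Real.log Y) = 5 * j * Real.log Y - t0 * ((4 + σ) * j * Real.log Y) := by
      rw [hδdef]
      ring
    rw [b5] at b4
    have b6 : t0 * Real.log 2 ≤ j * (t0 * Real.log 2) := le_mul_of_one_le_left b2 hjr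
    linarith
  · intro p hp hpm
    rcases (Nat.Prime.dvd_mul hp).1 hpm with h | h
    · exact (hprX p hp h).trans_lt hYA
    · exact (hprd p hp h).trans_lt hYA

end Pool.Agent.Lib.MP_bdd9a3_nt.SP
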